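import Mathlib

set_option autoImplicit false

open Finset

namespace Pool.Agent.V11299.Cyc

/-- `m` is a cyclic number: `gcd (m, φ(m)) = 1`. -/
def Cyc (m : ℕ) : Prop := Nat.Coprime m (Nat.totient m)

lemma Cyc.not_dvd {m p q : ℕ} (h : Cyc m) (hp : p.Prime) (hq : q.Prime) (hpm : p ∣ m)
    (hqm : q ∣ m) : ¬ p ∣ q - 1 := by
  intro hd
  have h1 : q - 1 ∣ Nat.totient m := by
    have := Nat.totient_dvd_of_dvd hqm
    rwa [Nat.totient_prime hq] at this
  have h2 : p ∣ Nat.gcd m (Nat.totient m) := Nat.dvd_gcd hpm (hd.trans h1)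
  rw [h] at h2
  exact hp.one_lt.ne' (Nat.dvd_one.mp h2)

lemma cyc_of {m : ℕ} (hm : m ≠ 0) (h1 : ∀ p : ℕ, p.Prime → ¬ p ^ 2 ∣ m)
    (h2 : ∀ p q : ℕ, p.Prime → q.Prime → p ∣ m → q ∣ m → ¬ p ∣ q - 1) : Cyc m := by
  refine Nat.coprime_of_dvd fun r hr hrm hrt => ?_
  rw [Nat.totient_eq_div_primeFactors_mul] at hrt
  rcases (Nat.Prime.dvd_mul hr).mp hrt with h | h
  · refine h1 r hr ?_
    have h3 : r ∣ ∏ p ∈ m.primeFactors, p :=
      Finset.dvd_prod_of_mem (fun p => p) (Nat.mem_primeFactors.mpr ⟨hr, hrm, hm⟩)
    have h4 := mul_dvd_mul h h3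
    rw [Nat.div_mul_cancel (Nat.prod_primeFactors_dvd m)] at h4
    rwa [sq]
  · rw [Prime.dvd_finsetProd_iff hr.prime] at h
    obtain ⟨q, hq, hrq⟩ := h
    rw [Nat.mem_primeFactors] at hq
    exact h2 r q hr hq.1 hrm hq.2.1 hrq

lemma Cyc.pos {m : ℕ} (h : Cyc m) : 0 < m := by
  rcases Nat.eq_zero_or_pos m with h0 | h0
  · subst h0
    simp [Cyc] at h
  · exact h0

lemma Cyc.odd {m : ℕ} (h : Cyc m) (hm : 2 < m) : ¬ 2 ∣ m := by
  intro h2
  have h3 : 2 ∣ Nat.gcd m (Nat.totient m) := Nat.dvd_gcd h2 (Nat.totient_even hm).two_dvd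
  rw [h] at h3
  omega

lemma cyc_prime {p : ℕ} (hp : p.Prime) : Cyc p := by
  unfold Cyc
  rw [Nat.totient_prime hp]
  rw [Nat.Prime.coprime_iff_not_dvd hp]
  intro h
  have h1 := hp.one_lt
  have := Nat.le_of_dvd (by omega) h
  omega

/-- number of residue classes mod `p` hit by the shifts -/
def nu (s : Finset ℕ) (p : ℕ) : ℕ := ((range p).filter (fun c => ∃ h ∈ s, p ∣ c + h)).card

/-- the density of the `c` with all `c + h` free of primes `≤ y` -/
noncomputable def dens (s : Finset ℕ) (y : ℕ) : ℝ :=
  ∏ p ∈ (Icc 1 y).filter Nat.Prime, (1 - (nu s p : ℝ) / p)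

/-- `c + h` has no prime factor `≤ y` for all `h ∈ s` -/
def good (y : ℕ) (s : Finset ℕ) (c : ℕ) : Prop := ∀ p : ℕ, p.Prime → p ≤ y → ∀ h ∈ s, ¬ p ∣ c + h

open Classical in
lemma card_crt {P q : ℕ} (hP : 0 < P) (hq : 0 < q) (hc : P.Coprime q) (A B : ℕ → Prop)
    (hA : Function.Periodic A P) (hB : Function.Periodic B q) :
    ((range (P * q)).filter (fun c => A c ∧ B c)).card =
      ((range P).filter A).card * ((range q).filter B).card := by
  rw [← card_product]
  refine card_bij (fun c _ => (c % P, c % q)) ?_ ?_ ?_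
  · intro c hc'
    rw [mem_filter] at hc'
    rw [mem_product, mem_filter, mem_filter, mem_range, mem_range]
    refine ⟨⟨Nat.mod_lt _ hP, ?_⟩, Nat.mod_lt _ hq, ?_⟩
    · rw [hA.map_mod_nat]; exact hc'.2.1
    · rw [hB.map_mod_nat]; exact hc'.2.2
  · intro a ha b hb hab
    rw [mem_filter, mem_range] at ha hb
    simp only [Prod.mk.injEq] at hab
    have h1 : a ≡ b [MOD P] := hab.1
    have h2 : a ≡ b [MOD q] := hab.2
    have h3 : a ≡ b [MOD P * q] := (Nat.modEq_and_modEq_iff_modEq_mul hc).mp ⟨h1, h2⟩
    exact Nat.ModEq.eq_of_lt_of_lt h3 ha.1 hb.1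
  · rintro ⟨u, v⟩ huv
    rw [mem_product, mem_filter, mem_filter, mem_range, mem_range] at huv
    obtain ⟨⟨hu, hAu⟩, hv, hBv⟩ := huv
    obtain ⟨k, hk1, hk2⟩ := Nat.chineseRemainder hc u v
    have h1 : k % P = u := by
      have : k % P = u % P := hk1
      rw [this]; exact Nat.mod_eq_of_lt hu
    have h2 : k % q = v := by
      have : k % q = v % q := hk2
      rw [this]; exact Nat.mod_eq_of_lt hv
    have h3 : k % (P * q) % P = u := by
      rw [Nat.mod_mul_right_mod, h1]
    have h4 : k % (P * q) % q = v := by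
      rw [Nat.mod_mul_left_mod, h2]
    refine ⟨k % (P * q), ?_, ?_⟩
    · rw [mem_filter, mem_range]
      refine ⟨Nat.mod_lt _ (Nat.mul_pos hP hq), ?_, ?_⟩
      · rw [← hA.map_mod_nat, h3]; exact hAu
      · rw [← hB.map_mod_nat, h4]; exact hBv
    · simp only [Prod.mk.injEq]
      exact ⟨h3, h4⟩

lemma good_periodic (y : ℕ) (s : Finset ℕ) : Function.Periodic (good y s) (primorial y) := by
  intro c
  unfold good
  apply propext
  have hd : ∀ p : ℕ, p.Prime → p ≤ y → p ∣ primorial y := by
    intro p hp hpy
    unfold primorial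
    exact dvd_prod_of_mem _ (by rw [mem_filter, mem_range]; exact ⟨by omega, hp⟩)
  constructor
  · intro h p hp hpy t ht hd'
    refine h p hp hpy t ht ?_
    have := (Nat.dvd_add_right (hd p hp hpy)).mpr hd'
    have h2 : c + primorial y + t = primorial y + (c + t) := by ring
    rwa [h2]
  · intro h p hp hpy t ht hd'
    refine h p hp hpy t ht ?_
    have h2 : c + primorial y + t = primorial y + (c + t) := by ring
    rw [h2] at hd'
    exact (Nat.dvd_add_right (hd p hp hpy)).mp hd'

lemma primorial_succ_prime {y : ℕ} (h : (y + 1).Prime) : primorial (y + 1) = primorial y * (y + 1) := by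
  unfold primorial
  rw [Finset.range_add_one, filter_insert, if_pos h, prod_insert (by simp), mul_comm]

lemma primorial_succ_not_prime {y : ℕ} (h : ¬ (y + 1).Prime) : primorial (y + 1) = primorial y := by
  unfold primorial
  rw [Finset.range_add_one, filter_insert, if_neg h]

lemma primorial_coprime {y q : ℕ} (hq : q.Prime) (h : y < q) : (primorial y).Coprime q := by
  unfold primorial
  refine Nat.Coprime.prod_left fun p hp => ?_
  rw [mem_filter, mem_range] at hp
  rw [Nat.coprime_primes hp.2 hq]
  omega

lemma dens_succ_prime {s : Finset ℕ} {y : ℕ} (h : (y + 1).Prime) :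
    dens s (y + 1) = dens s y * (1 - (nu s (y + 1) : ℝ) / ((y + 1 : ℕ) : ℝ)) := by
  unfold dens
  have h1 : Icc 1 (y + 1) = insert (y + 1) (Icc 1 y) := by
    ext x; simp only [mem_Icc, mem_insert]; omega
  rw [h1, filter_insert, if_pos h, prod_insert (by simp), mul_comm]

lemma dens_succ_not_prime {s : Finset ℕ} {y : ℕ} (h : ¬ (y + 1).Prime) :
    dens s (y + 1) = dens s y := by
  unfold dens
  have h1 : Icc 1 (y + 1) = insert (y + 1) (Icc 1 y) := by
    ext x; simp only [mem_Icc, mem_insert]; omega
  rw [h1, filter_insert, if_neg h]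

open Classical in
lemma nu_compl (s : Finset ℕ) (p : ℕ) :
    (((range p).filter (fun c => ∀ h ∈ s, ¬ p ∣ c + h)).card : ℝ) = p - nu s p := by
  have h1 := card_filter_add_card_filter_not (s := range p) (fun c => ∃ h ∈ s, p ∣ c + h)
  rw [card_range] at h1
  have h2 : ((range p).filter (fun c => ¬ ∃ h ∈ s, p ∣ c + h)) =
      (range p).filter (fun c => ∀ h ∈ s, ¬ p ∣ c + h) := by
    apply filter_congr
    intro c _
    push Not
    rfl
  rw [h2] at h1
  unfold nu
  have h3 : (((range p).filter (fun c => ∃ h ∈ s, p ∣ c + h)).card : ℝ) +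
      ((range p).filter (fun c => ∀ h ∈ s, ¬ p ∣ c + h)).card = p := by
    exact_mod_cast h1
  convert_to _ = (p : ℝ) - (((range p).filter (fun c => ∃ h ∈ s, p ∣ c + h)).card : ℝ)
  linarith

open Classical in
lemma card_good_range (s : Finset ℕ) (y : ℕ) :
    (((range (primorial y)).filter (good y s)).card : ℝ) = primorial y * dens s y := by
  induction y with
  | zero =>
    have h0 : primorial 0 = 1 := by decide
    rw [h0]
    have : (range 1).filter (good 0 s) = {0} := by
      ext c
      rw [mem_filter, mem_range, mem_singleton]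
      constructor
      · rintro ⟨h, _⟩; omega
      · rintro rfl
        refine ⟨by omega, ?_⟩
        intro p hp hp0
        have := hp.pos
        omega
    rw [this]
    simp [dens]
  | succ y ih =>
    by_cases h : (y + 1).Prime
    · rw [primorial_succ_prime h, dens_succ_prime h]
      have h1 : (range (primorial y * (y + 1))).filter (good (y + 1) s) =
          (range (primorial y * (y + 1))).filter
            (fun c => good y s c ∧ (∀ t ∈ s, ¬ (y + 1) ∣ c + t)) := by
        apply filter_congr
        intro c _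
        unfold good
        constructor
        · intro hh
          exact ⟨fun p hp hpy => hh p hp (by omega), hh (y + 1) h le_rfl⟩
        · rintro ⟨h1, h2⟩ p hp hpy
          rcases Nat.lt_or_ge y p with h3 | h3
          · have : p = y + 1 := by omega
            subst this
            exact h2
          · exact h1 p hp h3
      have hper : Function.Periodic (fun c : ℕ => ∀ t ∈ s, ¬ (y + 1) ∣ c + t) (y + 1) := by
        intro c
        apply propext
        have h2 : ∀ t, c + (y + 1) + t = (y + 1) + (c + t) := fun t => by ring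
        constructor
        · intro hh t ht hd
          refine hh t ht ?_
          rw [h2]
          exact (Nat.dvd_add_right (dvd_refl _)).mpr hd
        · intro hh t ht hd
          refine hh t ht ?_
          rw [h2] at hd
          exact (Nat.dvd_add_right (dvd_refl _)).mp hd
      have hcrt := card_crt (primorial_pos y) (by omega) (primorial_coprime h (by omega)) (good y s)
        (fun c => ∀ t ∈ s, ¬ (y + 1) ∣ c + t) (good_periodic y s) hper
      have h2 := nu_compl s (y + 1)
      have h3 : (((range (primorial y * (y + 1))).filter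
            (fun c => good y s c ∧ (∀ t ∈ s, ¬ (y + 1) ∣ c + t))).card : ℝ) =
            (((range (primorial y)).filter (good y s)).card : ℝ) * ((((y + 1 : ℕ) : ℝ)) - nu s (y + 1)) := by
        rw [← h2]
        rw [← Nat.cast_mul]
        congr 1
        convert hcrt
      rw [h1]
      convert h3.trans _
      rw [ih]
      have hy : ((y : ℝ) + 1) ≠ 0 := by positivity
      push_cast
      field_simp
    · rw [primorial_succ_not_prime h, dens_succ_not_prime h, ← ih]
      congr 2
      apply filter_congr
      intro c _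
      unfold good
      constructor
      · intro hh p hp hpy
        exact hh p hp (by omega)
      · intro hh p hp hpy
        refine hh p hp ?_
        rcases Nat.lt_or_ge y p with h3 | h3
        · have : p = y + 1 := by omega
          subst this
          exact absurd hp h
        · exact h3

lemma card_periodic {Q : ℕ → Prop} [DecidablePred Q] {P : ℕ} (hQ : Function.Periodic Q P)
    (a k : ℕ) :
    ((Ico a (a + k * P)).filter Q).card = k * ((range P).filter Q).card := by
  induction k with
  | zero => simp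
  | succ k ih =>
    have h1 : Ico a (a + (k + 1) * P) = Ico a (a + k * P) ∪ Ico (a + k * P) (a + k * P + P) := by
      rw [Ico_union_Ico_eq_Ico (by omega) (by omega)]
      congr 1
      ring
    have h2 : ((Ico (a + k * P) (a + k * P + P)).filter Q).card = ((range P).filter Q).card := by
      have := Nat.filter_Ico_card_eq_of_periodic (a + k * P) P Q hQ
      rw [this, Nat.count_eq_card_filter_range]
    rw [h1, filter_union, card_union_of_disjoint, ih, h2]
    · ring
    · apply disjoint_filter_filter
      exact Ico_disjoint_Ico_consecutive _ _ _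

open Classical in
lemma card_good_Ico (s : Finset ℕ) (y a L : ℕ) :
    |(((Ico a (a + L)).filter (good y s)).card : ℝ) - L * dens s y| ≤ primorial y := by
  have hP := primorial_pos y
  obtain ⟨P, hPP⟩ : ∃ P, P = primorial y := ⟨_, rfl⟩
  rw [← hPP] at hP ⊢
  have hP' : (0 : ℝ) < P := by exact_mod_cast hP
  have hG := card_good_range s y
  rw [← hPP] at hG
  have hper := good_periodic y s
  rw [← hPP] at hper
  have h0 := card_periodic hper a (L / P)
  have hL : L = L / P * P + L % P := (Nat.div_add_mod' L P).symm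
  have hr : L % P < P := Nat.mod_lt _ hP
  obtain ⟨k, hk⟩ : ∃ k, k = L / P := ⟨_, rfl⟩
  obtain ⟨r, hr'⟩ : ∃ r, r = L % P := ⟨_, rfl⟩
  rw [← hk, ← hr'] at hL
  rw [← hr'] at hr
  rw [← hk] at h0
  have h1 : Ico a (a + L) = Ico a (a + k * P) ∪ Ico (a + k * P) (a + L) := by
    rw [Ico_union_Ico_eq_Ico (by omega) (by omega)]
  have h2 : ((Ico a (a + L)).filter (good y s)).card = k * ((range P).filter (good y s)).card +
      ((Ico (a + k * P) (a + L)).filter (good y s)).card := by
    rw [h1, filter_union, card_union_of_disjoint, h0]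
    apply disjoint_filter_filter
    exact Ico_disjoint_Ico_consecutive _ _ _
  have h3 : ((Ico (a + k * P) (a + L)).filter (good y s)).card ≤ r := by
    refine (card_filter_le _ _).trans ?_
    rw [Nat.card_Ico]
    omega
  have hd0 : 0 ≤ dens s y := by
    have : 0 ≤ (P : ℝ) * dens s y := by rw [← hG]; exact Nat.cast_nonneg _
    by_contra hneg
    push Not at hneg
    nlinarith
  have hd1 : dens s y ≤ 1 := by
    have h4 : ((range P).filter (good y s)).card ≤ P := by
      refine (card_filter_le _ _).trans ?_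
      rw [card_range]
    have : (P : ℝ) * dens s y ≤ P := by rw [← hG]; exact_mod_cast h4
    by_contra hneg
    push Not at hneg
    nlinarith
  rw [h2]
  push_cast
  rw [hG]
  have h5 : (L : ℝ) = k * P + r := by exact_mod_cast hL
  rw [h5]
  have h6 : (k : ℝ) * (P * dens s y) + (((Ico (a + k * P) (a + L)).filter (good y s)).card : ℝ) -
      (k * P + r) * dens s y = (((Ico (a + k * P) (a + L)).filter (good y s)).card : ℝ) -
        r * dens s y := by ring
  rw [h6]
  have h7 : (((Ico (a + k * P) (a + L)).filter (good y s)).card : ℝ) ≤ P := by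
    exact_mod_cast h3.trans hr.le
  have h8 : (r : ℝ) * dens s y ≤ P := by
    have : (r : ℝ) ≤ P := by exact_mod_cast hr.le
    nlinarith [Nat.cast_nonneg (α := ℝ) r]
  have h9 : 0 ≤ (r : ℝ) * dens s y := by positivity
  have h10 : 0 ≤ (((Ico (a + k * P) (a + L)).filter (good y s)).card : ℝ) := Nat.cast_nonneg _
  rw [abs_le]
  constructor <;> linarith

lemma dens_nonneg (s : Finset ℕ) (y : ℕ) : 0 ≤ dens s y := by
  unfold dens
  refine prod_nonneg fun p hp => ?_
  rw [mem_filter, mem_Icc] at hp
  have hp0 : (0 : ℝ) < p := by exact_mod_cast hp.2.pos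
  have h1 : nu s p ≤ p := by
    unfold nu
    refine (card_filter_le _ _).trans ?_
    rw [card_range]
  have h2 : (nu s p : ℝ) ≤ p := by exact_mod_cast h1
  have : (nu s p : ℝ) / p ≤ 1 := by
    rw [div_le_one hp0]; exact h2
  linarith

lemma nu_le_card (s : Finset ℕ) (p : ℕ) : nu s p ≤ s.card := by
  unfold nu
  rcases Nat.eq_zero_or_pos p with h0 | h0
  · subst h0; simp
  have h1 : (range p).filter (fun c => ∃ h ∈ s, p ∣ c + h) ⊆
      s.image (fun h => (p - h % p) % p) := by
    intro c hc
    rw [mem_filter, mem_range] at hc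
    obtain ⟨hc, h, hs, hd⟩ := hc
    rw [mem_image]
    refine ⟨h, hs, ?_⟩
    have h3 : h % p < p := Nat.mod_lt _ h0
    obtain ⟨k, hk⟩ := hd
    have h4 : (c + h % p) % p = 0 := by
      rw [Nat.add_mod, Nat.mod_mod, ← Nat.add_mod, hk, Nat.mul_mod_right]
    rcases Nat.eq_zero_or_pos (h % p) with h5 | h5
    · rw [h5, Nat.sub_zero, Nat.mod_self]
      rw [h5, Nat.add_zero, Nat.mod_eq_of_lt hc] at h4
      omega
    · rw [Nat.mod_eq_of_lt (by omega)]
      rcases Nat.lt_or_ge (c + h % p) p with h6 | h6
      · rw [Nat.mod_eq_of_lt h6] at h4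
        omega
      · rw [Nat.mod_eq_sub_mod h6, Nat.mod_eq_of_lt (by omega)] at h4
        omega
  exact (card_le_card h1).trans card_image_le

lemma nu_eq_card {s : Finset ℕ} {p : ℕ} (hs : ∀ h ∈ s, h < p) : nu s p = s.card := by
  refine le_antisymm (nu_le_card s p) ?_
  unfold nu
  refine card_le_card_of_injOn (fun h => (p - h) % p) ?_ ?_
  · intro h hh
    have h1 := hs h hh
    rw [mem_coe, mem_filter, mem_range]
    refine ⟨Nat.mod_lt _ (by omega), h, hh, ?_⟩
    rcases Nat.eq_zero_or_pos h with h0 | h0
    · subst h0; simp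
    · simp only
      rw [Nat.mod_eq_of_lt (by omega), Nat.sub_add_cancel h1.le]
  · intro a ha b hb hab
    have h1 := hs a ha
    have h2 := hs b hb
    simp only at hab
    rcases Nat.eq_zero_or_pos a with h0 | h0
    · rcases Nat.eq_zero_or_pos b with h3 | h3
      · omega
      · rw [h0, Nat.sub_zero, Nat.mod_self, Nat.mod_eq_of_lt (by omega)] at hab
        omega
    · rcases Nat.eq_zero_or_pos b with h3 | h3
      · rw [h3, Nat.sub_zero, Nat.mod_self, Nat.mod_eq_of_lt (by omega)] at hab
        omega
      · rw [Nat.mod_eq_of_lt (by omega), Nat.mod_eq_of_lt (by omega)] at hab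
        omega

/-- for a pair `{0, g}`: `nu` is `1` if `p ∣ g` and `2` otherwise -/
lemma nu_pair {g p : ℕ} (hp : p.Prime) : nu {0, g} p = if p ∣ g then 1 else 2 := by
  have hp0 := hp.pos
  split_ifs with h
  · unfold nu
    have : (range p).filter (fun c => ∃ h ∈ ({0, g} : Finset ℕ), p ∣ c + h) = {0} := by
      ext c
      rw [mem_filter, mem_range, mem_singleton]
      constructor
      · rintro ⟨h1, t, ht, hd⟩
        rw [mem_insert, mem_singleton] at ht
        have h2 : p ∣ c := by
          rcases ht with rfl | rfl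
          · simpa using hd
          · exact (Nat.dvd_add_left h).mp hd
        exact Nat.eq_zero_of_dvd_of_lt h2 h1
      · rintro rfl
        exact ⟨hp0, 0, by simp, by simp⟩
    rw [this, card_singleton]
  · refine le_antisymm ((nu_le_card _ _).trans card_le_two) ?_
    unfold nu
    have h1 : ({0, (p - g % p)} : Finset ℕ) ⊆
        (range p).filter (fun c => ∃ h ∈ ({0, g} : Finset ℕ), p ∣ c + h) := by
      intro c hc
      rw [mem_insert, mem_singleton] at hc
      rw [mem_filter, mem_range]
      have h3 : g % p ≠ 0 := fun h4 => h (Nat.dvd_of_mod_eq_zero h4)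
      have h5 : g % p < p := Nat.mod_lt _ hp0
      rcases hc with rfl | rfl
      · exact ⟨hp0, 0, by simp, by simp⟩
      · refine ⟨by omega, g, by simp, ?_⟩
        have h6 : (p - g % p) + g = p + (g - g % p) := by
          have := Nat.mod_le g p
          omega
        rw [h6]
        exact Nat.dvd_add (dvd_refl _) (Nat.dvd_sub_mod g)
    have h2 : ({0, (p - g % p)} : Finset ℕ).card = 2 := by
      rw [card_pair]
      have h5 : g % p < p := Nat.mod_lt _ hp0
      omega
    rw [← h2]
    exact card_le_card h1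

end Pool.Agent.V11299.Cyc
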