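import Mathlib
import Pool.Agent.V11299.Cyc.Basic
import Pool.Agent.H343R2.EH.Psi
import Pool.Agent.H343R2.EH.Primes

set_option autoImplicit false

open Finset

namespace Pool.Agent.V11299.Cyc

lemma ev_log (k : ℕ) (c : ℝ) : ∃ x0 : ℕ, ∀ x : ℕ, x0 ≤ x → c * Real.log x ^ k ≤ √x := by
  have h1 : (fun x : ℝ => Real.log x ^ (k : ℝ)) =o[Filter.atTop] fun x : ℝ => x ^ (1 / 2 : ℝ) :=
    isLittleO_log_rpow_rpow_atTop (k : ℝ) (by norm_num)
  have h2 : (fun x : ℝ => c * Real.log x ^ (k : ℝ)) =o[Filter.atTop] fun x : ℝ => x ^ (1 / 2 : ℝ) :=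
    h1.const_mul_left c
  have h3 := (h2.comp_tendsto (tendsto_natCast_atTop_atTop (R := ℝ))).def (c := 1) one_pos
  rw [Filter.eventually_atTop] at h3
  obtain ⟨x0, hx0⟩ := h3
  refine ⟨x0, fun x hx => ?_⟩
  have h4 := hx0 x hx
  simp only [Function.comp, one_mul, Real.rpow_natCast] at h4
  have h5 : ‖(x : ℝ) ^ (1 / 2 : ℝ)‖ = √x := by
    rw [Real.sqrt_eq_rpow, Real.norm_of_nonneg (by positivity)]
  rw [h5] at h4
  exact (le_abs_self _).trans h4

lemma ev_L (c : ℝ) : ∃ x0 : ℕ, ∀ x : ℕ, x0 ≤ x → c ≤ Real.log x := by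
  have h := (Real.tendsto_log_atTop.comp (tendsto_natCast_atTop_atTop (R := ℝ))).eventually_ge_atTop c
  rw [Filter.eventually_atTop] at h
  obtain ⟨x0, hx0⟩ := h
  exact ⟨x0, fun x hx => hx0 x hx⟩

/-- Siegel-Walfisz, from helper343's unsmoothed theorem (proof as in `H442R2/EHI/Fourier.lean`). -/
lemma sw (U K : ℕ) : ∃ y0 : ℕ, ∀ y : ℕ, y0 ≤ y → ∀ q : ℕ, 1 ≤ q → (q : ℝ) ≤ Real.log y ^ K →
    ∀ c : ℕ, c < q → c.Coprime q →
    |H343E.piAP y q c - H343E.pi1 y / (Nat.totient q : ℝ)| ≤ y / Real.log y ^ U := by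
  obtain ⟨B, x0, h0⟩ := H343E.primes_of U (H343E.unsmoothed (U + 2))
  obtain ⟨x1, h1⟩ := ev_log (2 * K + B) 1
  obtain ⟨x2, h2⟩ := ev_L 1
  refine ⟨max (max x0 x1) (max x2 1), fun y hy q hq hqy c hc hcop => ?_⟩
  have hy0 : x0 ≤ y := le_trans (le_trans (le_max_left _ _) (le_max_left _ _)) hy
  have hy1 : x1 ≤ y := le_trans (le_trans (le_max_right _ _) (le_max_left _ _)) hy
  have hy2 : x2 ≤ y := le_trans (le_trans (le_max_left _ _) (le_max_right _ _)) hy
  have hy3 : 1 ≤ y := le_trans (le_trans (le_max_right _ _) (le_max_right _ _)) hy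
  have hyR : (1 : ℝ) ≤ y := by exact_mod_cast hy3
  have hL := h2 y hy2
  have hL0 : 0 < Real.log y := by linarith
  have hA := h1 y hy1
  rw [one_mul, pow_add, pow_mul'] at hA
  have hsq : √(y : ℝ) ≤ y := by
    rw [Real.sqrt_le_left (by positivity)]
    nlinarith
  have hq1 : (1 : ℝ) ≤ q := by exact_mod_cast hq
  have hD2 : (q : ℝ) ^ 2 ≤ 1 * y / Real.log y ^ B := by
    rw [le_div_iff₀ (by positivity), one_mul]
    refine le_trans ?_ (hA.trans hsq)
    gcongr
  have hD1 : (q : ℝ) ≤ y / Real.log y ^ B := by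
    rw [one_mul] at hD2
    refine le_trans ?_ hD2
    nlinarith
  have h4 := h0 y hy0 1 le_rfl q hD1 hD2 (fun q' => if q' = q then {c} else ∅)
    ⟨fun q' a ha => by
      split_ifs at ha with hh
      · rw [mem_singleton] at ha
        rw [ha, hh]
        exact ⟨hc, hcop⟩
      · simp at ha, fun q' => by
      split_ifs <;> simp⟩
  rw [one_mul] at h4
  refine le_trans ?_ h4
  have h5 := single_le_sum (f := fun q' => ∑ a ∈ (if q' = q then ({c} : Finset ℕ) else ∅),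
    |H343E.piAP y q' a - H343E.pi1 y / (Nat.totient q' : ℝ)|)
    (s := Icc 1 q) (fun i _ => sum_nonneg (fun _ _ => abs_nonneg _)) (mem_Icc.2 ⟨hq, le_rfl⟩)
  refine le_trans (le_of_eq ?_) h5
  simp

/-- primes `≤ N` congruent to `1` mod `p` -/
def SP (p N : ℕ) : Finset ℕ := (Icc 1 N).filter (fun q => q.Prime ∧ q ≡ 1 [MOD p])

/-- their reciprocal sum -/
noncomputable def lam (p N : ℕ) : ℝ := ∑ q ∈ SP p N, (1 : ℝ) / q

lemma piAP_eq (p N : ℕ) : H343E.piAP N p 1 = (SP p N).card := by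
  unfold H343E.piAP SP
  rfl

lemma pi1_ge : ∃ y0 : ℕ, ∀ y : ℕ, y0 ≤ y → (y : ℝ) / (2 * Real.log y) ≤ H343E.pi1 y := by
  obtain ⟨x1, h1⟩ := ev_log 1 10
  obtain ⟨x2, h2⟩ := ev_L 1
  refine ⟨max (max x1 x2) 100, fun y hy => ?_⟩
  have hy0 : x1 ≤ y := le_trans (le_trans (le_max_left _ _) (le_max_left _ _)) hy
  have hy1 : x2 ≤ y := le_trans (le_trans (le_max_right _ _) (le_max_left _ _)) hy
  have hy2 : 100 ≤ y := le_trans (le_max_right _ _) hy
  have hyR : (100 : ℝ) ≤ y := by exact_mod_cast hy2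
  have h3 := h1 y hy0
  have hL := h2 y hy1
  rw [pow_one] at h3
  have hc := Chebyshev.pi_ge y
  have h4 : (Nat.primeCounting y : ℝ) = H343E.pi1 y := by
    unfold H343E.pi1
    rw [Nat.primeCounting, Nat.primeCounting', Nat.count_eq_card_filter_range]
    congr 2
    ext x
    simp only [mem_filter, mem_range, mem_Icc]
    constructor
    · rintro ⟨h5, h6⟩; exact ⟨⟨h6.pos, by omega⟩, h6⟩
    · rintro ⟨h5, h6⟩; exact ⟨by omega, h6⟩
  rw [h4] at hc
  refine le_trans ?_ hc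
  have hl2 := Real.log_two_gt_d9
  have h5 : Real.log ((y : ℝ) + 1) ≤ 2 * Real.log y := by
    have : Real.log ((y : ℝ) + 1) ≤ Real.log ((y : ℝ) ^ 2) := by
      apply Real.log_le_log (by positivity)
      nlinarith
    rw [Real.log_pow] at this
    push_cast at this
    linarith
  have h6 : √(y : ℝ) ≤ y / 10 := by
    rw [Real.sqrt_le_left (by positivity)]
    nlinarith
  rw [div_le_div_iff₀ (by positivity) (by positivity)]
  have h7 : (y : ℝ) ≤ 2 * (y * Real.log 2 - Real.log ((y : ℝ) + 1)) := by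
    nlinarith
  nlinarith

lemma piAP_ge : ∃ y0 : ℕ, ∀ y : ℕ, y0 ≤ y → ∀ p : ℕ, p.Prime → (p : ℝ) ≤ Real.log y →
    (y : ℝ) / (4 * p * Real.log y) ≤ (SP p y).card := by
  obtain ⟨x0, h0⟩ := sw 3 1
  obtain ⟨x1, h1⟩ := pi1_ge
  obtain ⟨x2, h2⟩ := ev_L 4
  refine ⟨max (max x0 x1) (max x2 1), fun y hy p hp hpy => ?_⟩
  have hy0 : x0 ≤ y := le_trans (le_trans (le_max_left _ _) (le_max_left _ _)) hy
  have hy1 : x1 ≤ y := le_trans (le_trans (le_max_right _ _) (le_max_left _ _)) hy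
  have hy2 : x2 ≤ y := le_trans (le_trans (le_max_left _ _) (le_max_right _ _)) hy
  have hy3 : 1 ≤ y := le_trans (le_trans (le_max_right _ _) (le_max_right _ _)) hy
  have hyR : (1 : ℝ) ≤ y := by exact_mod_cast hy3
  have hL := h2 y hy2
  have hpp := hp.pos
  have hp2 : (2 : ℝ) ≤ p := by exact_mod_cast hp.two_le
  have h3 := h0 y hy0 p hp.pos (by rw [pow_one]; exact hpy) 1 hp.one_lt (Nat.coprime_one_left p)
  rw [piAP_eq, abs_le] at h3
  have h4 := h1 y hy1
  rw [Nat.totient_prime hp] at h3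
  have h5 : H343E.pi1 y / p ≤ H343E.pi1 y / ((p - 1 : ℕ) : ℝ) := by
    have h6 : 0 ≤ H343E.pi1 y := by unfold H343E.pi1; positivity
    have h7 : (0 : ℝ) < ((p - 1 : ℕ) : ℝ) := by
      have : 0 < p - 1 := by have := hp.two_le; omega
      exact_mod_cast this
    have h8 : ((p - 1 : ℕ) : ℝ) ≤ p := by exact_mod_cast Nat.sub_le p 1
    gcongr
  have h6 : (y : ℝ) / (2 * Real.log y) / p ≤ H343E.pi1 y / p := by gcongr
  have h7 : (y : ℝ) / Real.log y ^ 3 ≤ y / (4 * p * Real.log y) := by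
    apply div_le_div_of_nonneg_left (by positivity) (by positivity)
    have : 4 * (p : ℝ) * Real.log y ≤ 4 * Real.log y * Real.log y := by
      nlinarith
    nlinarith [mul_self_nonneg (Real.log y)]
  have h8 : (y : ℝ) / (2 * Real.log y) / p = y / (4 * p * Real.log y) + y / (4 * p * Real.log y) := by
    field_simp
    ring
  linarith [h3.1]

/-- telescoping: `∑_{y ∈ [a,b)} 1/(y(y+1)) = 1/a - 1/b` -/
lemma sum_tel {a b : ℕ} (ha : 1 ≤ a) (hab : a ≤ b) :
    ∑ y ∈ Ico a b, 1 / ((y : ℝ) * (y + 1)) = 1 / a - 1 / b := by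
  induction b, hab using Nat.le_induction with
  | base => simp
  | succ b hb ih =>
    rw [sum_Ico_succ_top hb, ih]
    have : (0 : ℝ) < b := by exact_mod_cast (by omega : 0 < b)
    push_cast
    field_simp
    ring

lemma lam_abel (p N : ℕ) : ∑ y ∈ Ico 1 N, ((SP p y).card : ℝ) / ((y : ℝ) * (y + 1)) ≤ lam p N := by
  have h1 : ∑ y ∈ Ico 1 N, ((SP p y).card : ℝ) / ((y : ℝ) * (y + 1)) =
      ∑ q ∈ SP p N, ∑ y ∈ Ico q N, 1 / ((y : ℝ) * (y + 1)) := by
    have h2 : ∀ y ∈ Ico 1 N, ((SP p y).card : ℝ) / ((y : ℝ) * (y + 1)) =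
        ∑ q ∈ SP p N, if q ≤ y then 1 / ((y : ℝ) * (y + 1)) else 0 := by
      intro y hy
      rw [mem_Ico] at hy
      rw [← sum_filter, sum_const, nsmul_eq_mul, mul_one_div]
      congr 2
      have : (SP p N).filter (fun q => q ≤ y) = SP p y := by
        unfold SP
        ext q
        simp only [mem_filter, mem_Icc]
        constructor
        · rintro ⟨⟨h1, h2⟩, h3⟩; exact ⟨⟨h1.1, h3⟩, h2⟩
        · rintro ⟨h1, h2⟩; exact ⟨⟨⟨h1.1, by omega⟩, h2⟩, h1.2⟩
      rw [this]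
    rw [sum_congr rfl h2, sum_comm]
    refine sum_congr rfl fun q hq => ?_
    rw [← sum_filter]
    congr 1
    unfold SP at hq
    rw [mem_filter, mem_Icc] at hq
    ext y
    simp only [mem_filter, mem_Ico]
    omega
  rw [h1]
  unfold lam
  refine sum_le_sum fun q hq => ?_
  unfold SP at hq
  rw [mem_filter, mem_Icc] at hq
  rw [sum_tel hq.1.1 hq.1.2]
  have : 0 ≤ 1 / (N : ℝ) := by positivity
  linarith

lemma loglog_step {x : ℕ} (hx : 2 ≤ x) :
    Real.log (Real.log ((x + 1 : ℕ) : ℝ)) - Real.log (Real.log x) ≤ 1 / (x * Real.log x) := by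
  have hx' : (2 : ℝ) ≤ x := by exact_mod_cast hx
  have h1 : 0 < Real.log x := Real.log_pos (by linarith)
  have h2 : 0 < Real.log ((x + 1 : ℕ) : ℝ) := Real.log_pos (by push_cast; linarith)
  rw [← Real.log_div h2.ne' h1.ne']
  have h3 : Real.log ((x + 1 : ℕ) : ℝ) ≤ Real.log x + 1 / x := by
    have h4 : Real.log ((x + 1 : ℕ) : ℝ) = Real.log x + Real.log (1 + 1 / x) := by
      rw [← Real.log_mul (by positivity) (by positivity)]
      congr 1
      push_cast
      field_simp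
    rw [h4]
    have := Real.log_le_sub_one_of_pos (show (0 : ℝ) < 1 + 1 / x by positivity)
    linarith
  have h4 : Real.log ((x + 1 : ℕ) : ℝ) / Real.log x ≤ 1 + 1 / (x * Real.log x) := by
    rw [div_le_iff₀ h1]
    have : (1 + 1 / (x * Real.log x)) * Real.log x = Real.log x + 1 / x := by
      field_simp
    rw [this]
    exact h3
  have h5 : 0 < Real.log ((x + 1 : ℕ) : ℝ) / Real.log x := by positivity
  have h6 := Real.log_le_sub_one_of_pos h5
  linarith

lemma loglog_tel {a b : ℕ} (ha : 2 ≤ a) (hab : a ≤ b) :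
    Real.log (Real.log b) - Real.log (Real.log a) ≤ ∑ x ∈ Ico a b, 1 / ((x : ℝ) * Real.log x) := by
  induction b, hab using Nat.le_induction with
  | base => simp
  | succ b hb ih =>
    rw [sum_Ico_succ_top hb]
    have := loglog_step (x := b) (by omega)
    linarith

lemma lam_lower_aux : ∃ y0 : ℕ, 2 ≤ y0 ∧ ∀ T : ℕ, y0 ≤ T → ∀ N : ℕ, T ≤ N → ∀ p : ℕ, p.Prime →
    (p : ℝ) ≤ Real.log T →
    (Real.log (Real.log ((N + 1 : ℕ) : ℝ)) - Real.log (Real.log ((T + 1 : ℕ) : ℝ))) / (4 * p) ≤ lam p N := by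
  obtain ⟨y0, h0⟩ := piAP_ge
  refine ⟨max y0 2, le_max_right _ _, fun T hT N hN p hp hpT => ?_⟩
  have hT0 : y0 ≤ T := le_trans (le_max_left _ _) hT
  have hT2 : 2 ≤ T := le_trans (le_max_right _ _) hT
  have hT' : (2 : ℝ) ≤ T := by exact_mod_cast hT2
  have hp0 : (0 : ℝ) < p := by exact_mod_cast hp.pos
  refine le_trans ?_ (lam_abel p N)
  have h1 : Ico T N ⊆ Ico 1 N := Ico_subset_Ico (by omega) le_rfl
  have h2 : ∑ y ∈ Ico T N, ((SP p y).card : ℝ) / ((y : ℝ) * (y + 1)) ≤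
      ∑ y ∈ Ico 1 N, ((SP p y).card : ℝ) / ((y : ℝ) * (y + 1)) :=
    sum_le_sum_of_subset_of_nonneg h1 (fun _ _ _ => by positivity)
  refine le_trans ?_ h2
  have h3 : ∀ y ∈ Ico T N, 1 / (4 * (p : ℝ)) * (1 / (((y + 1 : ℕ) : ℝ) * Real.log ((y + 1 : ℕ) : ℝ))) ≤
      ((SP p y).card : ℝ) / ((y : ℝ) * (y + 1)) := by
    intro y hy
    rw [mem_Ico] at hy
    have hyT : (T : ℝ) ≤ y := by exact_mod_cast hy.1
    have hy2 : (2 : ℝ) ≤ y := by linarith
    have hly : 0 < Real.log y := Real.log_pos (by linarith)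
    have h4 := h0 y (by omega) p hp (hpT.trans (Real.log_le_log (by linarith) hyT))
    have h5 : Real.log y ≤ Real.log ((y + 1 : ℕ) : ℝ) := Real.log_le_log (by linarith) (by push_cast; linarith)
    calc 1 / (4 * (p : ℝ)) * (1 / (((y + 1 : ℕ) : ℝ) * Real.log ((y + 1 : ℕ) : ℝ)))
        ≤ 1 / (4 * (p : ℝ)) * (1 / (((y + 1 : ℕ) : ℝ) * Real.log y)) := by gcongr
      _ = (y : ℝ) / (4 * p * Real.log y) / ((y : ℝ) * (y + 1)) := by
          push_cast
          field_simp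
      _ ≤ _ := by gcongr
  refine le_trans ?_ (sum_le_sum h3)
  rw [← mul_sum]
  have h6 : ∑ y ∈ Ico T N, (1 / (((y + 1 : ℕ) : ℝ) * Real.log ((y + 1 : ℕ) : ℝ))) =
      ∑ x ∈ Ico (T + 1) (N + 1), 1 / ((x : ℝ) * Real.log x) := by
    rw [← sum_Ico_add' (fun x : ℕ => 1 / ((x : ℝ) * Real.log x)) T N 1]
  rw [h6]
  have h7 := loglog_tel (a := T + 1) (b := N + 1) (by omega) (by omega)
  rw [div_eq_mul_one_div, mul_comm]
  exact mul_le_mul_of_nonneg_left h7 (by positivity)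

/-- the reciprocal sum is large -/
lemma lam_lower : ∃ n0 : ℕ, ∀ n : ℕ, n0 ≤ n → ∀ p : ℕ, p.Prime → (p : ℝ) ≤ Real.log (Real.log n) →
    Real.log (Real.log n) / (8 * p) ≤ lam p (Nat.sqrt n) := by
  obtain ⟨y0, hy02, h0⟩ := lam_lower_aux
  have htend : Filter.Tendsto (fun n : ℕ => Real.log (Real.log n)) Filter.atTop Filter.atTop :=
    Real.tendsto_log_atTop.comp (Real.tendsto_log_atTop.comp (tendsto_natCast_atTop_atTop (R := ℝ)))
  -- constant
  obtain ⟨K, hK⟩ : ∃ K : ℝ, K = Real.log (1 + Real.log (y0 + 3)) := ⟨_, rfl⟩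
  have hev1 : ∀ᶠ x : ℝ in Filter.atTop, Real.log x + K + 1 ≤ x / 2 := by
    have h1 : (fun x : ℝ => Real.log x) =o[Filter.atTop] (fun x : ℝ => x) := Real.isLittleO_log_id_atTop
    have h2 := h1.def (c := 1 / 4) (by norm_num)
    filter_upwards [h2, Filter.eventually_ge_atTop (4 * (|K| + 1))] with x hx1 hx2
    have hx0 : 0 < x := by have := abs_nonneg K; linarith
    rw [Real.norm_of_nonneg hx0.le] at hx1
    have h3 := (le_abs_self _).trans hx1
    have h4 := le_abs_self K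
    linarith
  have hev2 := htend.eventually hev1
  have hev3 : ∀ᶠ n : ℕ in Filter.atTop, (1 : ℝ) ≤ Real.log (Real.log n) :=
    htend.eventually_ge_atTop 1
  -- T ≤ sqrt n
  have hev4 : ∀ᶠ x : ℝ in Filter.atTop, Real.exp (Real.log x) * (y0 + 3) ≤ Real.exp (x / 2) := by
    have h1 : Filter.Tendsto (fun x : ℝ => x ^ 1 * Real.exp (-x)) Filter.atTop (nhds 0) :=
      Real.tendsto_pow_mul_exp_neg_atTop_nhds_zero 1
    have h2 : Filter.Tendsto (fun x : ℝ => x / 2) Filter.atTop Filter.atTop :=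
      Filter.Tendsto.atTop_div_const (by norm_num) Filter.tendsto_id
    have h3 := h1.comp h2
    have h4 : ∀ᶠ x : ℝ in Filter.atTop, (x / 2) ^ 1 * Real.exp (-(x / 2)) < 1 / (2 * (y0 + 3)) :=
      h3.eventually_lt_const (by positivity)
    filter_upwards [h4, Filter.eventually_gt_atTop 0] with x hx hx0
    rw [Real.exp_log hx0]
    rw [pow_one, Real.exp_neg, ← div_eq_mul_inv, div_lt_div_iff₀ (Real.exp_pos _) (by positivity)] at hx
    nlinarith
  have hev5 : ∀ᶠ n : ℕ in Filter.atTop,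
      Real.exp (Real.log (Real.log n)) * (y0 + 3) ≤ Real.exp (Real.log n / 2) :=
    (Real.tendsto_log_atTop.comp (tendsto_natCast_atTop_atTop (R := ℝ))).eventually hev4
  have hall := (hev2.and hev3).and hev5
  rw [Filter.eventually_atTop] at hall
  obtain ⟨n0, hn0⟩ := hall
  refine ⟨max n0 3, fun n hn p hp hpl => ?_⟩
  obtain ⟨⟨h1, h2⟩, h3⟩ := hn0 n (le_trans (le_max_left _ _) hn)
  have hn3 : 3 ≤ n := le_trans (le_max_right _ _) hn
  have hn3' : (3 : ℝ) ≤ n := by exact_mod_cast hn3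
  have hlogn : 0 < Real.log n := Real.log_pos (by linarith)
  have hp1 : (1 : ℝ) ≤ p := by exact_mod_cast hp.pos
  have hy0' : (2 : ℝ) ≤ y0 := by exact_mod_cast hy02
  obtain ⟨l, hl⟩ : ∃ l, l = Real.log (Real.log n) := ⟨_, rfl⟩
  rw [← hl] at h1 h2 h3 hpl ⊢
  -- choose T
  obtain ⟨T, hT⟩ : ∃ T : ℕ, T = ⌊Real.exp p⌋₊ + 1 + y0 := ⟨_, rfl⟩
  have hexp1 : 1 ≤ Real.exp p := Real.one_le_exp (by linarith)
  have hTle : ((T + 1 : ℕ) : ℝ) ≤ Real.exp p * (y0 + 3) := by
    rw [hT]; push_cast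
    have := Nat.floor_le (Real.exp_pos (p : ℝ)).le
    nlinarith
  have hTge : Real.exp p ≤ T := by
    rw [hT]; push_cast
    have := Nat.lt_floor_add_one (Real.exp (p : ℝ))
    linarith
  have hsq : Real.exp (Real.log n / 2) = √(n : ℝ) := by
    rw [Real.sqrt_eq_rpow, Real.rpow_def_of_pos (by linarith)]
    congr 1
    ring
  have hexl : Real.exp l = Real.log n := by rw [hl, Real.exp_log hlogn]
  have hTN : T ≤ Nat.sqrt n := by
    rw [Nat.le_sqrt]
    have h4 : (T : ℝ) ≤ √(n : ℝ) := by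
      rw [← hsq]
      refine le_trans ?_ h3
      have : (T : ℝ) ≤ ((T + 1 : ℕ) : ℝ) := by push_cast; linarith
      refine this.trans (hTle.trans ?_)
      have := Real.exp_le_exp.mpr hpl
      nlinarith
    have h5 : (T : ℝ) * T ≤ n := by
      have h6 := Real.mul_self_sqrt (show (0 : ℝ) ≤ n by linarith)
      nlinarith [Nat.cast_nonneg (α := ℝ) T]
    exact_mod_cast h5
  have h6 := h0 T (by omega) (Nat.sqrt n) hTN p hp (by
    rw [Real.le_log_iff_exp_le (lt_of_lt_of_le (Real.exp_pos _) hTge)]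
    exact hTge)
  refine le_trans ?_ h6
  -- log log (N+1) ≥ l - 1
  have h7 : l - 1 ≤ Real.log (Real.log ((Nat.sqrt n + 1 : ℕ) : ℝ)) := by
    have h8 : √(n : ℝ) ≤ ((Nat.sqrt n + 1 : ℕ) : ℝ) := by
      rw [Real.sqrt_le_left (by positivity)]
      have := Nat.lt_succ_sqrt n
      have h9 : n ≤ (Nat.sqrt n + 1) ^ 2 := by
        rw [sq]
        exact this.le
      exact_mod_cast h9
    have h9 : Real.log n / 2 ≤ Real.log ((Nat.sqrt n + 1 : ℕ) : ℝ) := by
      rw [← Real.log_sqrt (by linarith)]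
      apply Real.log_le_log _ h8
      rw [Real.sqrt_pos]; linarith
    have h10 : Real.log (Real.log n / 2) ≤ Real.log (Real.log ((Nat.sqrt n + 1 : ℕ) : ℝ)) :=
      Real.log_le_log (by positivity) h9
    rw [Real.log_div hlogn.ne' (by norm_num), ← hl] at h10
    have := Real.log_two_lt_d9
    linarith
  -- log log (T+1) ≤ log l + K
  have h8 : Real.log (Real.log ((T + 1 : ℕ) : ℝ)) ≤ Real.log l + K := by
    have h9 : Real.log ((T + 1 : ℕ) : ℝ) ≤ p + Real.log (y0 + 3) := by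
      have := Real.log_le_log (by positivity) hTle
      rwa [Real.log_mul (Real.exp_pos _).ne' (by positivity), Real.log_exp] at this
    have hl3 : 0 ≤ Real.log ((y0 : ℝ) + 3) := Real.log_nonneg (by linarith)
    have h10 : (p : ℝ) + Real.log (y0 + 3) ≤ l * (1 + Real.log (y0 + 3)) := by
      nlinarith
    have h11 : 0 < Real.log ((T + 1 : ℕ) : ℝ) := by
      apply Real.log_pos
      rw [hT]
      push_cast
      have := Nat.cast_nonneg (α := ℝ) ⌊Real.exp (p : ℝ)⌋₊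
      linarith
    have h12 := Real.log_le_log h11 (h9.trans h10)
    rw [Real.log_mul (by linarith) (by linarith)] at h12
    rw [hK]
    exact h12
  have h9 : l / (8 * p) = (l / 2) / (4 * p) := by
    field_simp
    ring
  rw [h9]
  apply div_le_div_of_nonneg_right _ (by positivity)
  linarith

end Pool.Agent.V11299.Cyc
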