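import Mathlib
import Pool.Agent.V11299.Cyc.Lam

set_option autoImplicit false

open Finset

namespace Pool.Agent.V11299.Cyc

lemma dvd_periodic (d : ℕ) : Function.Periodic (fun k : ℕ => d ∣ k) d := by
  intro k
  apply propext
  exact Nat.dvd_add_left (dvd_refl d)

lemma card_dvd_range {d : ℕ} (hd : 0 < d) : ((range d).filter (fun k => d ∣ k)).card = 1 := by
  have : (range d).filter (fun k => d ∣ k) = {0} := by
    ext c
    rw [mem_filter, mem_range, mem_singleton]
    constructor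
    · rintro ⟨h1, h2⟩
      exact Nat.eq_zero_of_dvd_of_lt h2 h1
    · rintro rfl
      exact ⟨hd, dvd_zero _⟩
  rw [this, card_singleton]

lemma card_dvd_Ico {a b d : ℕ} (hab : a ≤ b) (hd : 0 < d) :
    |(((Ico a b).filter (fun k => d ∣ k)).card : ℝ) - ((b : ℝ) - a) / d| ≤ 1 := by
  classical
  have hd' : (0 : ℝ) < d := by exact_mod_cast hd
  obtain ⟨k, hk⟩ : ∃ k, k = (b - a) / d := ⟨_, rfl⟩
  obtain ⟨r, hr⟩ : ∃ r, r = (b - a) % d := ⟨_, rfl⟩
  have hL : b - a = k * d + r := by rw [hk, hr]; exact (Nat.div_add_mod' _ _).symm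
  have hrd : r < d := by rw [hr]; exact Nat.mod_lt _ hd
  have hb : b = a + k * d + r := by omega
  have h1 : Ico a b = Ico a (a + k * d) ∪ Ico (a + k * d) b := by
    rw [Ico_union_Ico_eq_Ico (by omega) (by omega)]
  have h2 : ((Ico a (a + k * d)).filter (fun k => d ∣ k)).card = k := by
    have := card_periodic (dvd_periodic d) a k
    rw [card_dvd_range hd, mul_one] at this
    convert this
  have h3 : ((Ico (a + k * d) b).filter (fun k => d ∣ k)).card ≤ 1 := by
    have h4 : ((Ico (a + k * d) (a + k * d + 1 * d)).filter (fun k => d ∣ k)).card = 1 := by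
      have := card_periodic (dvd_periodic d) (a + k * d) 1
      rw [card_dvd_range hd, mul_one] at this
      convert this
    rw [← h4]
    apply card_le_card
    apply filter_subset_filter
    apply Ico_subset_Ico le_rfl
    omega
  have h5 : ((Ico a b).filter (fun k => d ∣ k)).card = k +
      ((Ico (a + k * d) b).filter (fun k => d ∣ k)).card := by
    rw [h1, filter_union, card_union_of_disjoint, h2]
    apply disjoint_filter_filter
    exact Ico_disjoint_Ico_consecutive _ _ _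
  have h6 : ((b : ℝ) - a) / d = k + r / d := by
    have : (b : ℝ) = a + k * d + r := by exact_mod_cast hb
    rw [this]
    field_simp
    ring
  have h7 : (r : ℝ) / d ≤ 1 := by
    rw [div_le_one hd']
    exact_mod_cast hrd.le
  have h8 : 0 ≤ (r : ℝ) / d := by positivity
  have h9 : (((Ico (a + k * d) b).filter (fun k => d ∣ k)).card : ℝ) ≤ 1 := by exact_mod_cast h3
  have h10 : 0 ≤ (((Ico (a + k * d) b).filter (fun k => d ∣ k)).card : ℝ) := Nat.cast_nonneg _
  rw [h5, h6]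
  push_cast
  rw [abs_le]
  constructor <;> linarith

/-- Turán's variance bound, for a set `S` of primes and an interval. -/
lemma turan {S : Finset ℕ} (hS : ∀ q ∈ S, q.Prime) {a b : ℕ} (hab : a ≤ b) :
    (((Ico a b).filter (fun k => ∀ q ∈ S, ¬ q ∣ k)).card : ℝ) * (∑ q ∈ S, (1 : ℝ) / q) ^ 2 ≤
      ((b : ℝ) - a) * (∑ q ∈ S, (1 : ℝ) / q) + ((S.card : ℝ) ^ 2 + S.card +
        2 * (∑ q ∈ S, (1 : ℝ) / q) * S.card) := by
  classical
  obtain ⟨lm, hlm⟩ : ∃ lm, lm = ∑ q ∈ S, (1 : ℝ) / q := ⟨_, rfl⟩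
  rw [← hlm]
  have hlm0 : 0 ≤ lm := by rw [hlm]; exact sum_nonneg fun _ _ => by positivity
  obtain ⟨w, hw⟩ : ∃ w : ℕ → ℝ, w = fun k => ∑ q ∈ S, if q ∣ k then (1 : ℝ) else 0 := ⟨_, rfl⟩
  obtain ⟨L, hL⟩ : ∃ L : ℝ, L = (b : ℝ) - a := ⟨_, rfl⟩
  rw [← hL]
  have hL0 : 0 ≤ L := by
    rw [hL]
    have : (a : ℝ) ≤ b := by exact_mod_cast hab
    linarith
  -- first moment
  have hm1 : L * lm - S.card ≤ ∑ k ∈ Ico a b, w k := by
    rw [hw, sum_comm]
    have h1 : ∀ q ∈ S, L * (1 / q) - 1 ≤ ∑ k ∈ Ico a b, if q ∣ k then (1 : ℝ) else 0 := by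
      intro q hq
      rw [← sum_filter, sum_const, nsmul_eq_mul, mul_one]
      have := (abs_le.mp (card_dvd_Ico hab (hS q hq).pos)).1
      rw [← hL] at this
      rw [mul_one_div]
      linarith
    refine le_trans (le_of_eq ?_) (sum_le_sum h1)
    rw [sum_sub_distrib, ← mul_sum, ← hlm]
    simp
  -- second moment
  have hm2 : ∑ k ∈ Ico a b, w k ^ 2 ≤ L * lm ^ 2 + S.card ^ 2 + (L * lm + S.card) := by
    have h1 : ∀ k, w k ^ 2 = ∑ q ∈ S, ∑ q' ∈ S, if (q ∣ k ∧ q' ∣ k) then (1 : ℝ) else 0 := by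
      intro k
      rw [sq, hw, sum_mul_sum]
      refine sum_congr rfl fun q _ => sum_congr rfl fun q' _ => ?_
      by_cases h1 : q ∣ k <;> by_cases h2 : q' ∣ k <;> simp [h1, h2]
    rw [sum_congr rfl fun k _ => h1 k, sum_comm]
    have h2 : ∀ q ∈ S, ∑ k ∈ Ico a b, ∑ q' ∈ S, (if (q ∣ k ∧ q' ∣ k) then (1 : ℝ) else 0) ≤
        (∑ q' ∈ S, (L * (1 / q * (1 / q')) + 1)) + (L * (1 / q) + 1) := by
      intro q hq
      rw [sum_comm]
      have h3 : ∀ q' ∈ S, ∑ k ∈ Ico a b, (if (q ∣ k ∧ q' ∣ k) then (1 : ℝ) else 0) ≤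
          (L * (1 / q * (1 / q')) + 1) + (if q' = q then (L * (1 / q) + 1) else 0) := by
        intro q' hq'
        have hqq := hS q hq
        have hqq' := hS q' hq'
        rw [← sum_filter, sum_const, nsmul_eq_mul, mul_one]
        by_cases h4 : q' = q
        · rw [if_pos h4, h4]
          have h5 : (Ico a b).filter (fun k => q ∣ k ∧ q ∣ k) = (Ico a b).filter (fun k => q ∣ k) := by
            apply filter_congr; intro k _; simp
          rw [h5]
          have := (abs_le.mp (card_dvd_Ico hab hqq.pos)).2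
          rw [← hL] at this
          have h6 : 0 ≤ L * (1 / (q : ℝ) * (1 / q)) := by positivity
          have h7 : L * (1 / (q : ℝ)) = L / q := by rw [mul_one_div]
          linarith
        · rw [if_neg h4, add_zero]
          have hcop : Nat.Coprime q q' := (Nat.coprime_primes hqq hqq').mpr (fun h => h4 h.symm)
          have h5 : (Ico a b).filter (fun k => q ∣ k ∧ q' ∣ k) =
              (Ico a b).filter (fun k => q * q' ∣ k) := by
            apply filter_congr
            intro k _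
            constructor
            · rintro ⟨h6, h7⟩
              exact hcop.mul_dvd_of_dvd_of_dvd h6 h7
            · intro h6
              exact ⟨(dvd_mul_right _ _).trans h6, (dvd_mul_left _ _).trans h6⟩
          rw [h5]
          have := (abs_le.mp (card_dvd_Ico hab (Nat.mul_pos hqq.pos hqq'.pos))).2
          rw [← hL] at this
          have h7 : L * (1 / (q : ℝ) * (1 / q')) = L / ((q * q' : ℕ) : ℝ) := by
            push_cast
            field_simp
          linarith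
      refine (sum_le_sum h3).trans (le_of_eq ?_)
      rw [sum_add_distrib, sum_ite_eq' S q, if_pos hq]
    refine (sum_le_sum h2).trans (le_of_eq ?_)
    rw [sum_add_distrib]
    have h4 : ∑ q ∈ S, (∑ q' ∈ S, (L * (1 / (q : ℝ) * (1 / (q' : ℝ))) + 1)) =
        L * lm ^ 2 + S.card ^ 2 := by
      have h5 : ∀ q ∈ S, (∑ q' ∈ S, (L * (1 / (q : ℝ) * (1 / (q' : ℝ))) + 1)) =
          L * lm * (1 / q) + S.card := by
        intro q _
        rw [sum_add_distrib, sum_const, nsmul_eq_mul, mul_one, hlm]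
        congr 1
        rw [← mul_sum, ← mul_sum]
        ring
      rw [sum_congr rfl h5, sum_add_distrib, ← mul_sum, ← hlm, sum_const, nsmul_eq_mul]
      ring
    rw [h4]
    congr 1
    rw [sum_add_distrib, ← mul_sum, ← hlm]
    simp
  -- variance
  have hvar : ∑ k ∈ Ico a b, (w k - lm) ^ 2 ≤ L * lm + (S.card ^ 2 + S.card + 2 * lm * S.card) := by
    have h1 : ∑ k ∈ Ico a b, (w k - lm) ^ 2 =
        ∑ k ∈ Ico a b, w k ^ 2 - 2 * lm * ∑ k ∈ Ico a b, w k + L * lm ^ 2 := by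
      have h2 : ∀ k ∈ Ico a b, (w k - lm) ^ 2 = w k ^ 2 - 2 * lm * w k + lm ^ 2 := by
        intro k _; ring
      rw [sum_congr rfl h2, sum_add_distrib, sum_sub_distrib, ← mul_sum, sum_const, Nat.card_Ico,
        nsmul_eq_mul, Nat.cast_sub hab, ← hL]
    rw [h1]
    nlinarith
  refine le_trans ?_ hvar
  have h1 : ∑ k ∈ (Ico a b).filter (fun k => ∀ q ∈ S, ¬ q ∣ k), (w k - lm) ^ 2 ≤
      ∑ k ∈ Ico a b, (w k - lm) ^ 2 :=
    sum_le_sum_of_subset_of_nonneg (filter_subset _ _) (fun _ _ _ => by positivity)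
  refine le_trans (le_of_eq ?_) h1
  have h2 : ∀ k ∈ (Ico a b).filter (fun k => ∀ q ∈ S, ¬ q ∣ k), (w k - lm) ^ 2 = lm ^ 2 := by
    intro k hk
    rw [mem_filter] at hk
    have : w k = 0 := by
      rw [hw]
      exact sum_eq_zero fun q hq => if_neg (hk.2 q hq)
    rw [this]; ring
  rw [sum_congr rfl h2, sum_const, nsmul_eq_mul]

lemma SP_card_le (p N : ℕ) : (SP p N).card ≤ N := by
  unfold SP
  refine (card_filter_le _ _).trans ?_
  rw [Nat.card_Icc]; omega

lemma lam_le (p N : ℕ) : lam p N ≤ N := by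
  unfold lam
  have h1 : ∀ q ∈ SP p N, (1 : ℝ) / q ≤ 1 := by
    intro q hq
    unfold SP at hq
    rw [mem_filter, mem_Icc] at hq
    have : (1 : ℝ) ≤ q := by exact_mod_cast hq.1.1
    rw [div_le_one (by linarith)]
    exact this
  refine (sum_le_card_nsmul _ _ _ h1).trans ?_
  rw [nsmul_eq_mul, mul_one]
  exact_mod_cast SP_card_le p N

open Classical in
/-- cyclic numbers divisible by `p` in an interval -/
lemma card_cyc_dvd {p N a b : ℕ} (hp : p.Prime) (hab : a ≤ b) (h1 : 1 ≤ lam p N) :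
    (((Ico a b).filter (fun m => p ∣ m ∧ Cyc m)).card : ℝ) ≤
      (((b : ℝ) - a) / p + 2) / lam p N + 4 * N ^ 2 := by
  have hp0 : (0 : ℝ) < p := by exact_mod_cast hp.pos
  have hS : ∀ q ∈ SP p N, q.Prime := by
    intro q hq
    unfold SP at hq
    rw [mem_filter] at hq
    exact hq.2.1
  have hdiv : a / p ≤ b / p + 1 := by
    have := Nat.div_le_div_right (c := p) hab
    omega
  have ht := turan hS hdiv
  have hcard : ((Ico a b).filter (fun m => p ∣ m ∧ Cyc m)).card ≤
      ((Ico (a / p) (b / p + 1)).filter (fun k => ∀ q ∈ SP p N, ¬ q ∣ k)).card := by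
    refine card_le_card_of_injOn (fun m => m / p) ?_ ?_
    · intro m hm
      rw [mem_coe, mem_filter, mem_Ico] at hm
      obtain ⟨⟨hm1, hm2⟩, hpm, hcyc⟩ := hm
      rw [mem_coe, mem_filter, mem_Ico]
      refine ⟨⟨Nat.div_le_div_right hm1, ?_⟩, ?_⟩
      · have := Nat.div_le_div_right (c := p) hm2.le
        simp only
        omega
      · intro q hq hqk
        have hqm : q ∣ m := hqk.trans (Nat.div_dvd_of_dvd hpm)
        unfold SP at hq
        rw [mem_filter] at hq
        refine hcyc.not_dvd hp hq.2.1 hpm hqm ?_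
        exact (Nat.modEq_iff_dvd' hq.2.1.one_lt.le).mp hq.2.2.symm
    · intro m hm m' hm' hmm
      rw [mem_coe, mem_filter] at hm hm'
      simp only at hmm
      rw [← Nat.div_mul_cancel hm.2.1, hmm, Nat.div_mul_cancel hm'.2.1]
  obtain ⟨lm, hlm⟩ : ∃ lm, lm = lam p N := ⟨_, rfl⟩
  have hlm' : lm = ∑ q ∈ SP p N, (1 : ℝ) / q := hlm
  rw [← hlm'] at ht
  rw [← hlm] at h1 ⊢
  have hlN : lm ≤ N := by rw [hlm]; exact lam_le p N
  have hSN : ((SP p N).card : ℝ) ≤ N := by exact_mod_cast SP_card_le p N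
  have hN1 : (1 : ℝ) ≤ N := h1.trans hlN
  have hlen : (((b / p + 1 : ℕ) : ℝ) - ((a / p : ℕ) : ℝ)) ≤ ((b : ℝ) - a) / p + 2 := by
    have h2 : ((b / p : ℕ) : ℝ) ≤ (b : ℝ) / p := Nat.cast_div_le
    have h3 : (a : ℝ) / p ≤ ((a / p : ℕ) : ℝ) + 1 := by
      rw [div_le_iff₀ hp0]
      have := Nat.lt_div_mul_add hp.pos (a := a)
      have h4 : (a : ℝ) ≤ ((a / p : ℕ) : ℝ) * p + p := by exact_mod_cast this.le
      linarith
    push_cast
    rw [sub_div]
    linarith
  obtain ⟨Q, hQ⟩ : ∃ Q : ℝ, Q = (((Ico (a / p) (b / p + 1)).filter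
    (fun k => ∀ q ∈ SP p N, ¬ q ∣ k)).card : ℝ) := ⟨_, rfl⟩
  have hcard' : (((Ico a b).filter (fun m => p ∣ m ∧ Cyc m)).card : ℝ) ≤ Q := by
    rw [hQ]; exact_mod_cast hcard
  refine hcard'.trans ?_
  have ht2 : Q * lm ^ 2 ≤ (((b : ℝ) - a) / p + 2) * lm + 4 * N ^ 2 := by
    have h4 : Q * lm ^ 2 ≤ (((b / p + 1 : ℕ) : ℝ) - ((a / p : ℕ) : ℝ)) * lm +
        (((SP p N).card : ℝ) ^ 2 + (SP p N).card + 2 * lm * (SP p N).card) := by
      rw [hQ]
      convert ht
    have h5 : (((b / p + 1 : ℕ) : ℝ) - ((a / p : ℕ) : ℝ)) * lm ≤ (((b : ℝ) - a) / p + 2) * lm :=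
      mul_le_mul_of_nonneg_right hlen (by linarith)
    have hS0 : (0 : ℝ) ≤ (SP p N).card := Nat.cast_nonneg _
    have h6 : ((SP p N).card : ℝ) ^ 2 ≤ N ^ 2 := by gcongr
    have h7 : ((SP p N).card : ℝ) ≤ N ^ 2 := by nlinarith
    have h8 : 2 * lm * (SP p N).card ≤ 2 * N ^ 2 := by
      have : lm * (SP p N).card ≤ N * N := by
        apply mul_le_mul hlN hSN hS0 (by linarith)
      nlinarith
    linarith
  have hlm0 : 0 < lm := by linarith
  have hA : 0 ≤ ((b : ℝ) - a) / p + 2 := by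
    have : (a : ℝ) ≤ b := by exact_mod_cast hab
    have : 0 ≤ ((b : ℝ) - a) / p := div_nonneg (by linarith) hp0.le
    linarith
  -- divide by lm ^ 2
  have h9 : Q ≤ ((((b : ℝ) - a) / p + 2) * lm + 4 * N ^ 2) / lm ^ 2 := by
    rw [le_div_iff₀ (by positivity)]
    exact ht2
  refine h9.trans ?_
  rw [add_div]
  have h10 : (((b : ℝ) - a) / p + 2) * lm / lm ^ 2 = (((b : ℝ) - a) / p + 2) / lm := by
    field_simp
  rw [h10]
  have h11 : 4 * (N : ℝ) ^ 2 / lm ^ 2 ≤ 4 * N ^ 2 := by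
    apply div_le_self (by positivity)
    nlinarith
  linarith

end Pool.Agent.V11299.Cyc
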