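import Mathlib
import Pool.Agent.V11299.Cyc.Turan
import Pool.Agent.Helper923.PPS.BT

set_option autoImplicit false

open Finset

namespace Pool.Agent.V11299.Cyc

lemma bt : ∃ C : ℝ, 1 ≤ C ∧ ∀ (a q N : ℕ), 2 ≤ N → (q = 1 ∨ q.Prime) →
    (((Finset.range N).filter (fun k => (a + k * q).Prime)).card : ℝ) ≤
      C * N / Real.log N := Helper923.PPS.brun_titchmarsh

/-- the interval `(n³, (n+1)³)` -/
def I (n : ℕ) : Finset ℕ := Ico (n ^ 3 + 1) ((n + 1) ^ 3)

lemma sum_Icc_inv_le (N : ℕ) : ∑ r ∈ Icc 1 N, (1 : ℝ) / r ≤ 1 + Real.log N := by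
  have h := harmonic_le_one_add_log N
  rw [harmonic_eq_sum_Icc] at h
  push_cast at h
  simpa using h

lemma sum_inv_sq_tail {y Z : ℕ} (hy : 1 ≤ y) :
    ∑ i ∈ Ioc y Z, 1 / (i : ℝ) ^ 2 ≤ 1 / (y : ℝ) := by
  rcases Nat.lt_or_ge Z y with h | h
  · rw [Ioc_eq_empty (by omega), sum_empty]
    positivity
  · have h1 := sum_Ioc_inv_sq_le_sub (α := ℝ) (k := y) (n := Z) (by omega) h
    have h2 : ∑ i ∈ Ioc y Z, 1 / (i : ℝ) ^ 2 = ∑ i ∈ Ioc y Z, ((i : ℝ) ^ 2)⁻¹ := by
      refine sum_congr rfl fun i _ => ?_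
      rw [one_div]
    rw [h2, one_div]
    have : 0 ≤ (Z : ℝ)⁻¹ := by positivity
    linarith

/-- reciprocals over primes `1 + k p`, dyadically -/
lemma recip_dyadic : ∃ C : ℝ, 1 ≤ C ∧ ∀ (p : ℕ), p.Prime → ∀ J : ℕ, 1 ≤ J →
    ∑ k ∈ (Ico 1 (2 ^ J)).filter (fun k => (1 + k * p).Prime), (1 : ℝ) / k ≤
      C * (1 + Real.log J) := by
  obtain ⟨C, hC1, hC⟩ := bt
  have hl2 : 0 < Real.log 2 := Real.log_pos (by norm_num)
  refine ⟨1 + C / Real.log 2, by
    have : 0 ≤ C / Real.log 2 := by positivity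
    linarith, fun p hp J hJ => ?_⟩
  have key : ∀ J : ℕ, 1 ≤ J →
      ∑ k ∈ (Ico 1 (2 ^ J)).filter (fun k => (1 + k * p).Prime), (1 : ℝ) / k ≤
      1 + C / Real.log 2 * ∑ j ∈ Ico 1 J, (1 : ℝ) / j := by
    intro J hJ
    induction J, hJ using Nat.le_induction with
    | base =>
      have h1 : Ico 1 (2 ^ 1) = {1} := by decide
      rw [h1]
      rw [Ico_self, sum_empty, mul_zero, add_zero]
      refine (sum_le_sum_of_subset_of_nonneg (filter_subset _ _) (fun _ _ _ => by positivity)).trans ?_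
      simp
    | succ J hJ ih =>
      have h1 : Ico 1 (2 ^ (J + 1)) = Ico 1 (2 ^ J) ∪ Ico (2 ^ J) (2 ^ (J + 1)) := by
        rw [Ico_union_Ico_eq_Ico Nat.one_le_two_pow (Nat.pow_le_pow_right (by norm_num) (by omega))]
      rw [h1, filter_union, sum_union (by
        apply disjoint_filter_filter
        exact Ico_disjoint_Ico_consecutive _ _ _), sum_Ico_succ_top hJ, mul_add]
      have h2 : ∑ k ∈ (Ico (2 ^ J) (2 ^ (J + 1))).filter (fun k => (1 + k * p).Prime), (1 : ℝ) / k ≤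
          C / Real.log 2 * (1 / J) := by
        have h3 : ∀ k ∈ (Ico (2 ^ J) (2 ^ (J + 1))).filter (fun k => (1 + k * p).Prime),
            (1 : ℝ) / k ≤ 1 / 2 ^ J := by
          intro k hk
          rw [mem_filter, mem_Ico] at hk
          have : ((2 : ℝ) ^ J) ≤ k := by exact_mod_cast hk.1.1
          gcongr
        refine (sum_le_card_nsmul _ _ _ h3).trans ?_
        rw [nsmul_eq_mul]
        have h4 : ((Ico (2 ^ J) (2 ^ (J + 1))).filter (fun k => (1 + k * p).Prime)).card ≤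
            ((range (2 ^ J)).filter (fun k => ((1 + 2 ^ J * p) + k * p).Prime)).card := by
          refine card_le_card_of_injOn (fun k => k - 2 ^ J) ?_ ?_
          · intro k hk
            rw [mem_coe, mem_filter, mem_Ico] at hk
            rw [mem_coe, mem_filter, mem_range]
            refine ⟨?_, ?_⟩
            · have : 2 ^ (J + 1) = 2 ^ J + 2 ^ J := by ring
              simp only
              omega
            · have : 1 + 2 ^ J * p + (k - 2 ^ J) * p = 1 + k * p := by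
                have h5 : k = 2 ^ J + (k - 2 ^ J) := by omega
                conv_rhs => rw [h5]
                ring
              rw [this]
              exact hk.2
          · intro a ha b hb hab
            rw [mem_coe, mem_filter, mem_Ico] at ha hb
            simp only at hab
            omega
        have h5 := hC (1 + 2 ^ J * p) p (2 ^ J) (by
          calc 2 = 2 ^ 1 := by norm_num
            _ ≤ 2 ^ J := Nat.pow_le_pow_right (by norm_num) hJ) (Or.inr hp)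
        have h6 : (((Ico (2 ^ J) (2 ^ (J + 1))).filter (fun k => (1 + k * p).Prime)).card : ℝ) ≤
            C * ((2 ^ J : ℕ) : ℝ) / Real.log ((2 ^ J : ℕ) : ℝ) := by
          refine le_trans ?_ h5
          exact_mod_cast h4
        have hJ' : (0 : ℝ) < J := by exact_mod_cast (by omega : 0 < J)
        calc (((Ico (2 ^ J) (2 ^ (J + 1))).filter (fun k => (1 + k * p).Prime)).card : ℝ) *
              (1 / 2 ^ J) ≤ C * ((2 ^ J : ℕ) : ℝ) / Real.log ((2 ^ J : ℕ) : ℝ) * (1 / 2 ^ J) := by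
              gcongr
          _ = C / Real.log 2 * (1 / J) := by
              push_cast
              rw [Real.log_pow]
              field_simp
      linarith
  refine (key J hJ).trans ?_
  have h1 : ∑ j ∈ Ico 1 J, (1 : ℝ) / j ≤ 1 + Real.log J := by
    refine le_trans ?_ (sum_Icc_inv_le J)
    refine sum_le_sum_of_subset_of_nonneg ?_ (fun _ _ _ => by positivity)
    intro x hx
    rw [mem_Ico] at hx
    rw [mem_Icc]
    omega
  have hJ0 : 0 ≤ Real.log J := Real.log_natCast_nonneg J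
  have h2 : 0 ≤ C / Real.log 2 := by positivity
  nlinarith [mul_le_mul_of_nonneg_left h1 h2]

lemma card_I_dvd {n d : ℕ} (hd : 0 < d) : (((I n).filter (fun m => d ∣ m)).card : ℝ) ≤
    (3 * (n : ℝ) ^ 2 + 3 * n) / d + 1 := by
  unfold I
  have h1 : n ^ 3 + 1 ≤ (n + 1) ^ 3 := by
    have : (n + 1) ^ 3 = n ^ 3 + 3 * n ^ 2 + 3 * n + 1 := by ring
    omega
  have h2 := (abs_le.mp (card_dvd_Ico h1 hd)).2
  have h3 : (((n + 1) ^ 3 : ℕ) : ℝ) - ((n ^ 3 + 1 : ℕ) : ℝ) = 3 * (n : ℝ) ^ 2 + 3 * n := by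
    push_cast; ring
  rw [h3] at h2
  linarith

open Classical in
/-- B1: divisible by a square `p²` with `p > y` -/
lemma card_B1 {n y : ℕ} (hy : 1 ≤ y) :
    (((I n).filter (fun m => ∃ p : ℕ, y < p ∧ p ^ 2 ∣ m)).card : ℝ) ≤
      (3 * (n : ℝ) ^ 2 + 3 * n) / y + Nat.sqrt ((n + 1) ^ 3) := by
  obtain ⟨Z, hZ⟩ : ∃ Z, Z = Nat.sqrt ((n + 1) ^ 3) := ⟨_, rfl⟩
  rw [← hZ]
  have h1 : (I n).filter (fun m => ∃ p : ℕ, y < p ∧ p ^ 2 ∣ m) ⊆
      (Ioc y Z).biUnion (fun p => (I n).filter (fun m => p ^ 2 ∣ m)) := by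
    intro m hm
    rw [mem_filter] at hm
    obtain ⟨hmI, p, hp1, hp2⟩ := hm
    rw [mem_biUnion]
    refine ⟨p, ?_, ?_⟩
    · rw [mem_Ioc]
      refine ⟨hp1, ?_⟩
      rw [hZ, Nat.le_sqrt, ← sq]
      unfold I at hmI
      rw [mem_Ico] at hmI
      have := Nat.le_of_dvd (by omega) hp2
      omega
    · rw [mem_filter]
      exact ⟨hmI, hp2⟩
  have h2 : (((I n).filter (fun m => ∃ p : ℕ, y < p ∧ p ^ 2 ∣ m)).card : ℝ) ≤
      ∑ p ∈ Ioc y Z, (((I n).filter (fun m => p ^ 2 ∣ m)).card : ℝ) := by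
    exact_mod_cast (card_le_card h1).trans card_biUnion_le
  refine h2.trans ?_
  have h3 : ∀ p ∈ Ioc y Z, (((I n).filter (fun m => p ^ 2 ∣ m)).card : ℝ) ≤
      (3 * (n : ℝ) ^ 2 + 3 * n) * (1 / (p : ℝ) ^ 2) + 1 := by
    intro p hp
    rw [mem_Ioc] at hp
    have hp0 : 0 < p := by omega
    have := card_I_dvd (n := n) (d := p ^ 2) (by positivity)
    push_cast at this
    rw [mul_one_div]
    exact this
  refine (sum_le_sum h3).trans ?_
  rw [sum_add_distrib, ← mul_sum, sum_const, nsmul_eq_mul, mul_one, Nat.card_Ioc]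
  have h4 := sum_inv_sq_tail (Z := Z) hy
  have h5 : ((Z - y : ℕ) : ℝ) ≤ Z := by exact_mod_cast Nat.sub_le _ _
  have h6 : (3 * (n : ℝ) ^ 2 + 3 * n) * ∑ i ∈ Ioc y Z, 1 / (i : ℝ) ^ 2 ≤
      (3 * (n : ℝ) ^ 2 + 3 * n) * (1 / y) := mul_le_mul_of_nonneg_left h4 (by positivity)
  rw [mul_one_div] at h6
  linarith

open Classical in
/-- B2: divisible by `p q`, `q ≡ 1 (p)`, `p q ≤ n²` -/
lemma card_B2 : ∃ C : ℝ, 1 ≤ C ∧ ∃ n0 : ℕ, ∀ n : ℕ, n0 ≤ n → ∀ y : ℕ, 1 ≤ y →
    (((I n).filter (fun m => ∃ p : ℕ, p.Prime ∧ y < p ∧ ∃ k : ℕ, (1 + k * p).Prime ∧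
      p * (1 + k * p) ≤ n ^ 2 ∧ p * (1 + k * p) ∣ m)).card : ℝ) ≤
      C * n ^ 2 * (1 + Real.log (Real.log n)) / y := by
  obtain ⟨C, hC1, hC⟩ := recip_dyadic
  have htend : Filter.Tendsto (fun n : ℕ => Real.log (Real.log n)) Filter.atTop Filter.atTop :=
    Real.tendsto_log_atTop.comp (Real.tendsto_log_atTop.comp (tendsto_natCast_atTop_atTop (R := ℝ)))
  have hev : ∀ᶠ n : ℕ in Filter.atTop, (1 : ℝ) ≤ Real.log (Real.log n) :=
    htend.eventually_ge_atTop 1
  rw [Filter.eventually_atTop] at hev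
  obtain ⟨n1, hn1⟩ := hev
  refine ⟨7 * (3 * C), by linarith, max n1 3, fun n hn y hy => ?_⟩
  have hll := hn1 n (le_trans (le_max_left _ _) hn)
  have hn3 : 3 ≤ n := le_trans (le_max_right _ _) hn
  have hnR : (3 : ℝ) ≤ n := by exact_mod_cast hn3
  have hlogn : 0 < Real.log n := Real.log_pos (by linarith)
  obtain ⟨J, hJ⟩ : ∃ J, J = Nat.log 2 (n ^ 2) + 1 := ⟨_, rfl⟩
  have hJ1 : 1 ≤ J := by omega
  have h2J : n ^ 2 < 2 ^ J := by rw [hJ]; exact Nat.lt_pow_succ_log_self (by norm_num) _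
  -- log J bound
  have hl2 : 0 < Real.log 2 := Real.log_pos (by norm_num)
  have hl2' := Real.log_two_gt_d9
  have hJR : (J : ℝ) ≤ 4 * Real.log n := by
    have h1 : ((2 : ℝ) ^ (Nat.log 2 (n ^ 2))) ≤ (n : ℝ) ^ 2 := by
      exact_mod_cast Nat.pow_log_le_self 2 (by positivity)
    have h2 := Real.log_le_log (by positivity) h1
    rw [Real.log_pow, Real.log_pow] at h2
    have h3 : (Nat.log 2 (n ^ 2) : ℝ) ≤ 3 * Real.log n := by
      push_cast at h2
      have h4 : (Nat.log 2 (n ^ 2) : ℝ) * Real.log 2 ≤ 2 * Real.log n := h2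
      nlinarith [Nat.cast_nonneg (α := ℝ) (Nat.log 2 (n ^ 2))]
    have h5 : 1 ≤ Real.log n := by
      rw [Real.le_log_iff_exp_le (by linarith)]
      have := Real.exp_one_lt_d9
      linarith
    rw [hJ]; push_cast; linarith
  have hlogJ : Real.log J ≤ 2 + Real.log (Real.log n) := by
    have h1 : Real.log J ≤ Real.log (4 * Real.log n) :=
      Real.log_le_log (by exact_mod_cast hJ1) hJR
    rw [Real.log_mul (by norm_num) hlogn.ne'] at h1
    have h2 : Real.log 4 ≤ 2 := by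
      have : (4 : ℝ) = 2 ^ 2 := by norm_num
      rw [this, Real.log_pow]
      have := Real.log_two_lt_d9
      push_cast; linarith
    linarith
  have hCJ : C * (1 + Real.log J) ≤ 3 * C * (1 + Real.log (Real.log n)) := by
    have : 1 + Real.log J ≤ 3 * (1 + Real.log (Real.log n)) := by linarith
    nlinarith
  have h1 : (I n).filter (fun m => ∃ p : ℕ, p.Prime ∧ y < p ∧ ∃ k : ℕ, (1 + k * p).Prime ∧
      p * (1 + k * p) ≤ n ^ 2 ∧ p * (1 + k * p) ∣ m) ⊆
      ((Ioc y (n ^ 2)).filter Nat.Prime).biUnion (fun p =>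
        ((Ico 1 (2 ^ J)).filter (fun k => (1 + k * p).Prime)).biUnion (fun k =>
          (I n).filter (fun m => p * (1 + k * p) ≤ n ^ 2 ∧ p * (1 + k * p) ∣ m))) := by
    intro m hm
    rw [mem_filter] at hm
    obtain ⟨hmI, p, hp, hyp, k, hk, hle, hdvd⟩ := hm
    have hk0 : 1 ≤ k := by
      rcases Nat.eq_zero_or_pos k with h0 | h0
      · subst h0
        simp at hk
        exact absurd hk (by norm_num)
      · exact h0
    rw [mem_biUnion]
    refine ⟨p, ?_, ?_⟩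
    · rw [mem_filter, mem_Ioc]
      refine ⟨⟨hyp, ?_⟩, hp⟩
      exact le_trans (Nat.le_mul_of_pos_right p (by omega)) hle
    · rw [mem_biUnion]
      refine ⟨k, ?_, ?_⟩
      · rw [mem_filter, mem_Ico]
        refine ⟨⟨hk0, ?_⟩, hk⟩
        refine lt_of_le_of_lt ?_ h2J
        refine le_trans ?_ hle
        have hpp := hp.pos
        nlinarith [Nat.mul_le_mul hpp hpp, Nat.mul_le_mul_left k hpp]
      · rw [mem_filter]
        exact ⟨hmI, hle, hdvd⟩
  have h2 : (((I n).filter (fun m => ∃ p : ℕ, p.Prime ∧ y < p ∧ ∃ k : ℕ, (1 + k * p).Prime ∧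
      p * (1 + k * p) ≤ n ^ 2 ∧ p * (1 + k * p) ∣ m)).card : ℝ) ≤
      ∑ p ∈ (Ioc y (n ^ 2)).filter Nat.Prime,
        ∑ k ∈ (Ico 1 (2 ^ J)).filter (fun k => (1 + k * p).Prime),
          (((I n).filter (fun m => p * (1 + k * p) ≤ n ^ 2 ∧ p * (1 + k * p) ∣ m)).card : ℝ) := by
    have h3 := (card_le_card h1).trans card_biUnion_le
    have h4 : ∑ p ∈ (Ioc y (n ^ 2)).filter Nat.Prime,
        (((Ico 1 (2 ^ J)).filter (fun k => (1 + k * p).Prime)).biUnion (fun k =>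
          (I n).filter (fun m => p * (1 + k * p) ≤ n ^ 2 ∧ p * (1 + k * p) ∣ m))).card ≤
        ∑ p ∈ (Ioc y (n ^ 2)).filter Nat.Prime,
        ∑ k ∈ (Ico 1 (2 ^ J)).filter (fun k => (1 + k * p).Prime),
          ((I n).filter (fun m => p * (1 + k * p) ≤ n ^ 2 ∧ p * (1 + k * p) ∣ m)).card :=
      sum_le_sum fun p _ => card_biUnion_le
    exact_mod_cast h3.trans h4
  refine h2.trans ?_
  have h3 : ∀ p ∈ (Ioc y (n ^ 2)).filter Nat.Prime,
      ∑ k ∈ (Ico 1 (2 ^ J)).filter (fun k => (1 + k * p).Prime),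
          (((I n).filter (fun m => p * (1 + k * p) ≤ n ^ 2 ∧ p * (1 + k * p) ∣ m)).card : ℝ) ≤
      7 * (n : ℝ) ^ 2 * (3 * C * (1 + Real.log (Real.log n))) * (1 / (p : ℝ) ^ 2) := by
    intro p hp
    rw [mem_filter, mem_Ioc] at hp
    have hp0 : (0 : ℝ) < p := by exact_mod_cast hp.2.pos
    have h4 : ∀ k ∈ (Ico 1 (2 ^ J)).filter (fun k => (1 + k * p).Prime),
        (((I n).filter (fun m => p * (1 + k * p) ≤ n ^ 2 ∧ p * (1 + k * p) ∣ m)).card : ℝ) ≤
        7 * (n : ℝ) ^ 2 * (1 / (p : ℝ) ^ 2) * (1 / k) := by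
      intro k hk
      rw [mem_filter, mem_Ico] at hk
      have hk0 : (0 : ℝ) < k := by exact_mod_cast hk.1.1
      by_cases hle : p * (1 + k * p) ≤ n ^ 2
      · have h5 : (I n).filter (fun m => p * (1 + k * p) ≤ n ^ 2 ∧ p * (1 + k * p) ∣ m) =
            (I n).filter (fun m => p * (1 + k * p) ∣ m) := by
          apply filter_congr; intro m _; simp [hle]
        rw [h5]
        have h6 := card_I_dvd (n := n) (d := p * (1 + k * p)) (Nat.mul_pos hp.2.pos (by omega))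
        refine h6.trans ?_
        obtain ⟨D, hD⟩ : ∃ D : ℝ, D = ((p * (1 + k * p) : ℕ) : ℝ) := ⟨_, rfl⟩
        rw [← hD]
        have hDle : D ≤ (n : ℝ) ^ 2 := by rw [hD]; exact_mod_cast hle
        have hDge : (k : ℝ) * p ^ 2 ≤ D := by rw [hD]; push_cast; nlinarith
        have hkp : 0 < (k : ℝ) * p ^ 2 := by positivity
        have hD0 : 0 < D := lt_of_lt_of_le hkp hDge
        have h7 : (3 * (n : ℝ) ^ 2 + 3 * n) / D + 1 ≤ 7 * n ^ 2 / D := by
          rw [div_add_one hD0.ne']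
          apply div_le_div_of_nonneg_right _ hD0.le
          nlinarith
        refine h7.trans ?_
        have h8 : 7 * (n : ℝ) ^ 2 * (1 / (p : ℝ) ^ 2) * (1 / k) = 7 * n ^ 2 / (k * p ^ 2) := by
          field_simp
        rw [h8]
        gcongr
      · have h5 : (I n).filter (fun m => p * (1 + k * p) ≤ n ^ 2 ∧ p * (1 + k * p) ∣ m) = ∅ := by
          apply filter_eq_empty_iff.mpr
          intro m _ h
          exact hle h.1
        rw [h5, card_empty]
        push_cast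
        positivity
    refine (sum_le_sum h4).trans ?_
    rw [← mul_sum]
    have h5 := (hC p hp.2 J hJ1).trans hCJ
    calc 7 * (n : ℝ) ^ 2 * (1 / (p : ℝ) ^ 2) *
          ∑ k ∈ (Ico 1 (2 ^ J)).filter (fun k => (1 + k * p).Prime), (1 : ℝ) / k
        ≤ 7 * (n : ℝ) ^ 2 * (1 / (p : ℝ) ^ 2) * (3 * C * (1 + Real.log (Real.log n))) := by gcongr
      _ = _ := by ring
  refine (sum_le_sum h3).trans ?_
  rw [← mul_sum]
  have h4 : ∑ p ∈ (Ioc y (n ^ 2)).filter Nat.Prime, 1 / (p : ℝ) ^ 2 ≤ 1 / (y : ℝ) :=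
    (sum_le_sum_of_subset_of_nonneg (filter_subset _ _) (fun _ _ _ => by positivity)).trans
      (sum_inv_sq_tail hy)
  have h5 : 0 ≤ 7 * (n : ℝ) ^ 2 * (3 * C * (1 + Real.log (Real.log n))) := by
    have : 0 ≤ 1 + Real.log (Real.log n) := by linarith
    positivity
  refine (mul_le_mul_of_nonneg_left h4 h5).trans (le_of_eq ?_)
  ring

end Pool.Agent.V11299.Cyc
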