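import Mathlib
import Pool.Agent.V11299.Cyc.Bad1

set_option autoImplicit false

open Finset

namespace Pool.Agent.V11299.Cyc

open Classical in
/-- multiples `m = p r q` of a given `p r`, with `q ≡ 1 (p)` prime -/
noncomputable def MM (n p r : ℕ) : Finset ℕ :=
  (I n).filter (fun m => ∃ k : ℕ, (1 + k * p).Prime ∧ m = p * r * (1 + k * p))

lemma card_MM {n p r : ℕ} (hp : p.Prime) (hr : 1 ≤ r) : ∃ a : ℕ,
    (MM n p r).card ≤ ((range ((3 * n ^ 2 + 3 * n + 1) / (p ^ 2 * r) + 1)).filter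
      (fun k => (a + k * p).Prime)).card := by
  classical
  by_cases hex : ∃ k : ℕ, (1 + k * p).Prime ∧ p * r * (1 + k * p) ∈ I n
  · obtain ⟨K, hK⟩ : ∃ K, K = Nat.find hex := ⟨_, rfl⟩
    have hKs := Nat.find_spec hex
    rw [← hK] at hKs
    refine ⟨1 + K * p, ?_⟩
    have hsub : MM n p r ⊆ ((range ((3 * n ^ 2 + 3 * n + 1) / (p ^ 2 * r) + 1)).filter
      (fun k => (1 + K * p + k * p).Prime)).image (fun k => p * r * (1 + K * p + k * p)) := by
      intro m hm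
      unfold MM at hm
      rw [mem_filter] at hm
      obtain ⟨hmI, k, hk, hmk⟩ := hm
      have hKk : K ≤ k := by
        rw [hK]
        apply Nat.find_min'
        exact ⟨hk, by rw [← hmk]; exact hmI⟩
      obtain ⟨d, hd⟩ : ∃ d, k = K + d := ⟨k - K, by omega⟩
      rw [mem_image]
      have heq : 1 + K * p + d * p = 1 + k * p := by rw [hd]; ring
      refine ⟨d, ?_, ?_⟩
      · rw [mem_filter, mem_range]
        refine ⟨?_, by rw [heq]; exact hk⟩
        rw [Nat.lt_succ_iff, Nat.le_div_iff_mul_le (Nat.mul_pos (pow_pos hp.pos 2) (by omega))]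
        have h1 := hKs.2
        unfold I at h1 hmI
        rw [mem_Ico] at h1 hmI
        have h2 : m = p * r * (1 + K * p) + d * (p ^ 2 * r) := by
          rw [hmk, hd]; ring
        have h3 : (n + 1) ^ 3 = n ^ 3 + 3 * n ^ 2 + 3 * n + 1 := by ring
        omega
      · rw [heq, hmk]
    exact (card_le_card hsub).trans card_image_le
  · refine ⟨0, ?_⟩
    have : MM n p r = ∅ := by
      unfold MM
      apply filter_eq_empty_iff.mpr
      rintro m hm ⟨k, hk, hmk⟩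
      exact hex ⟨k, hk, by rw [← hmk]; exact hm⟩
    rw [this, card_empty]
    exact Nat.zero_le _

/-- admissible cofactors -/
def RR (n p : ℕ) : Finset ℕ := (Icc 1 (n + 3)).filter (fun r => r * p ^ 2 < (n + 1) ^ 3)

lemma card_RR_le (n p : ℕ) : (RR n p).card ≤ n + 3 := by
  unfold RR
  refine (card_filter_le _ _).trans ?_
  rw [Nat.card_Icc]; omega

lemma card_RR_le' {n p : ℕ} (hp : 0 < p) : ((RR n p).card : ℝ) ≤ ((n : ℝ) + 1) ^ 3 / p ^ 2 := by
  have h1 : (RR n p) ⊆ Icc 1 ((n + 1) ^ 3 / p ^ 2) := by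
    intro r hr
    unfold RR at hr
    rw [mem_filter, mem_Icc] at hr
    rw [mem_Icc]
    refine ⟨hr.1.1, ?_⟩
    rw [Nat.le_div_iff_mul_le (by positivity)]
    exact hr.2.le
  have h2 := card_le_card h1
  rw [Nat.card_Icc, Nat.add_sub_cancel] at h2
  calc ((RR n p).card : ℝ) ≤ (((n + 1) ^ 3 / p ^ 2 : ℕ) : ℝ) := by exact_mod_cast h2
    _ ≤ (((n + 1) ^ 3 : ℕ) : ℝ) / ((p ^ 2 : ℕ) : ℝ) := Nat.cast_div_le
    _ = _ := by push_cast; rfl

/-- total number of pairs `(p, r)` -/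
lemma sum_card_RR : ∃ C : ℝ, 1 ≤ C ∧ ∀ n : ℕ, 3 ≤ n →
    ∑ p ∈ (Ico 1 (n ^ 2)).filter Nat.Prime, ((RR n p).card : ℝ) ≤ C * n ^ 2 / Real.log n := by
  obtain ⟨C, hC1, hC⟩ := bt
  refine ⟨24 * C, by linarith, fun n hn => ?_⟩
  have hnR : (3 : ℝ) ≤ n := by exact_mod_cast hn
  have hlogn : 0 < Real.log n := Real.log_pos (by linarith)
  have hmaps : ∀ p ∈ (Ico 1 (n ^ 2)).filter Nat.Prime, p / n ∈ range n := by
    intro p hp
    rw [mem_filter, mem_Ico] at hp
    rw [mem_range]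
    rw [Nat.div_lt_iff_lt_mul (by omega), ← sq]
    exact hp.1.2
  rw [← sum_fiberwise_of_maps_to hmaps]
  obtain ⟨b, hb⟩ : ∃ b : ℕ → ℝ, b = fun j : ℕ => 8 * (n : ℝ) * (if j = 0 then 1 else 1 / (j : ℝ) ^ 2) :=
    ⟨_, rfl⟩
  have hbn : ∀ j, 0 ≤ b j := by
    intro j; rw [hb]; simp only; split_ifs <;> positivity
  have h1 : ∀ j ∈ range n, ∑ p ∈ ((Ico 1 (n ^ 2)).filter Nat.Prime).filter (fun p => p / n = j),
      ((RR n p).card : ℝ) ≤ C * n / Real.log n * b j := by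
    intro j _
    have h2 : ∀ p ∈ ((Ico 1 (n ^ 2)).filter Nat.Prime).filter (fun p => p / n = j),
        ((RR n p).card : ℝ) ≤ b j := by
      intro p hp
      rw [mem_filter, mem_filter, mem_Ico] at hp
      rw [hb]
      simp only
      split_ifs with h0
      · have h3 : ((RR n p).card : ℝ) ≤ n + 3 := by exact_mod_cast card_RR_le n p
        linarith
      · refine (card_RR_le' hp.1.2.pos).trans ?_
        have hj : (1 : ℝ) ≤ j := by exact_mod_cast Nat.one_le_iff_ne_zero.mpr h0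
        have hjp : (j : ℝ) * n ≤ p := by
          have := Nat.div_mul_le_self p n
          rw [hp.2] at this
          exact_mod_cast this
        have hp0 : (0 : ℝ) < p := by exact_mod_cast hp.1.2.pos
        rw [div_le_iff₀ (by positivity)]
        have h4 : ((n : ℝ) + 1) ^ 3 ≤ 8 * (n : ℝ) * (n : ℝ) ^ 2 := by
          have : (n : ℝ) + 1 ≤ 2 * n := by linarith
          calc ((n : ℝ) + 1) ^ 3 ≤ (2 * (n : ℝ)) ^ 3 := by gcongr
            _ = 8 * (n : ℝ) * (n : ℝ) ^ 2 := by ring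
        refine h4.trans ?_
        have h5 : 8 * (n : ℝ) * n ^ 2 = 8 * n * (1 / (j : ℝ) ^ 2) * (j * n) ^ 2 := by
          field_simp
        rw [h5]
        gcongr
    refine (sum_le_card_nsmul _ _ _ h2).trans ?_
    rw [nsmul_eq_mul]
    refine mul_le_mul_of_nonneg_right ?_ (hbn j)
    have h3 := hC (j * n) 1 n (by omega) (Or.inl rfl)
    refine le_trans ?_ h3
    have h4 : (((Ico 1 (n ^ 2)).filter Nat.Prime).filter (fun p => p / n = j)).card ≤
        ((range n).filter (fun k => (j * n + k * 1).Prime)).card := by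
      refine card_le_card_of_injOn (fun p => p % n) ?_ ?_
      · intro p hp
        rw [mem_coe, mem_filter, mem_filter] at hp
        rw [mem_coe, mem_filter, mem_range]
        refine ⟨Nat.mod_lt _ (by omega), ?_⟩
        have : j * n + p % n * 1 = p := by
          rw [mul_one, ← hp.2]
          exact Nat.div_add_mod' p n
        rw [this]
        exact hp.1.2
      · intro p hp q hq hpq
        rw [mem_coe, mem_filter] at hp hq
        simp only at hpq
        rw [← Nat.div_add_mod' p n, ← Nat.div_add_mod' q n, hp.2, hq.2, hpq]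
    exact_mod_cast h4
  refine (sum_le_sum h1).trans ?_
  rw [← mul_sum]
  have h2 : ∑ j ∈ range n, b j ≤ 8 * n * 3 := by
    rw [hb, ← mul_sum]
    refine mul_le_mul_of_nonneg_left ?_ (by positivity)
    have h3 : range n = insert 0 (Ico 1 n) := by
      ext x; simp only [mem_range, mem_insert, mem_Ico]; omega
    rw [h3, sum_insert (by simp), if_pos rfl]
    have h4 : ∑ j ∈ Ico 1 n, (if j = 0 then (1 : ℝ) else 1 / (j : ℝ) ^ 2) ≤
        ∑ j ∈ Ico 1 n, 1 / (j : ℝ) ^ 2 := by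
      refine sum_le_sum fun j hj => ?_
      rw [mem_Ico] at hj
      rw [if_neg (by omega)]
    have h5 : ∑ j ∈ Ico 1 n, 1 / (j : ℝ) ^ 2 ≤ 2 := by
      have h6 : Ico 1 n ⊆ insert 1 (Ioc 1 n) := by
        intro x hx; rw [mem_Ico] at hx; rw [mem_insert, mem_Ioc]; omega
      refine (sum_le_sum_of_subset_of_nonneg h6 (fun _ _ _ => by positivity)).trans ?_
      rw [sum_insert (by simp)]
      have := sum_inv_sq_tail (y := 1) (Z := n) le_rfl
      norm_num at this ⊢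
      linarith
    linarith
  calc C * n / Real.log n * ∑ j ∈ range n, b j ≤ C * n / Real.log n * (8 * n * 3) := by
        have : 0 ≤ C := by linarith
        gcongr
    _ = 24 * C * n ^ 2 / Real.log n := by ring

open Classical in
/-- B3: divisible by `p q`, `q ≡ 1 (p)`, `p q > n²` -/
lemma card_B3 : ∃ C : ℝ, 1 ≤ C ∧ ∃ n0 : ℕ, ∀ n : ℕ, n0 ≤ n → ∀ y : ℕ, 1 ≤ y →
    (((I n).filter (fun m => ∃ p : ℕ, p.Prime ∧ y < p ∧ ∃ k : ℕ, (1 + k * p).Prime ∧
      n ^ 2 < p * (1 + k * p) ∧ p * (1 + k * p) ∣ m)).card : ℝ) ≤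
      C * n ^ 2 / y + C * n ^ 2 / Real.log n := by
  obtain ⟨C, hC1, hC⟩ := bt
  obtain ⟨C2, hC21, hC2⟩ := sum_card_RR
  obtain ⟨x1, hx1⟩ := ev_log 4 (42 ^ 2)
  obtain ⟨x2, hx2⟩ := ev_L 2
  refine ⟨84 * C + C2 + 1, by linarith, max (max x1 x2) 10, fun n hn y hy => ?_⟩
  have hn1 : x1 ≤ n := le_trans (le_trans (le_max_left _ _) (le_max_left _ _)) hn
  have hn2 : x2 ≤ n := le_trans (le_trans (le_max_right _ _) (le_max_left _ _)) hn
  have hn3 : 10 ≤ n := le_trans (le_max_right _ _) hn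
  have hnR : (10 : ℝ) ≤ n := by exact_mod_cast hn3
  have hlog2 := hx2 n hn2
  have hlogn : 0 < Real.log n := by linarith
  have hlog4 := hx1 n hn1
  have hy0 : (0 : ℝ) < y := by exact_mod_cast hy
  -- inclusion
  have h1 : (I n).filter (fun m => ∃ p : ℕ, p.Prime ∧ y < p ∧ ∃ k : ℕ, (1 + k * p).Prime ∧
      n ^ 2 < p * (1 + k * p) ∧ p * (1 + k * p) ∣ m) ⊆
      ((Ico (y + 1) (n ^ 2)).filter Nat.Prime).biUnion (fun p =>
        (RR n p).biUnion (fun r => MM n p r)) := by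
    intro m hm
    rw [mem_filter] at hm
    obtain ⟨hmI, p, hp, hyp, k, hk, hlt, hdvd⟩ := hm
    have hk0 : 1 ≤ k := by
      rcases Nat.eq_zero_or_pos k with h0 | h0
      · subst h0
        simp at hk
        exact absurd hk (by norm_num)
      · exact h0
    obtain ⟨r, hr⟩ := hdvd
    have hmI' := hmI
    unfold I at hmI'
    rw [mem_Ico] at hmI'
    have hr0 : 1 ≤ r := by
      rcases Nat.eq_zero_or_pos r with h0 | h0
      · subst h0
        rw [mul_zero] at hr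
        omega
      · exact h0
    have hpp := hp.pos
    have h3 : (n + 1) ^ 3 = n ^ 3 + 3 * n ^ 2 + 3 * n + 1 := by ring
    -- r p² < (n+1)³
    have hrp : r * p ^ 2 < (n + 1) ^ 3 := by
      refine lt_of_le_of_lt ?_ hmI'.2
      rw [hr]
      have : p ^ 2 ≤ p * (1 + k * p) := by
        have : p ≤ 1 + k * p := by nlinarith
        nlinarith
      nlinarith
    have hrn : r ≤ n + 3 := by
      by_contra hcon
      push Not at hcon
      have h4 : (n + 4) * n ^ 2 ≤ m := by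
        rw [hr, mul_comm]
        exact Nat.mul_le_mul hlt.le hcon
      have h5 : (n + 4) * n ^ 2 = n ^ 3 + 4 * n ^ 2 := by ring
      have h6 : 3 * n + 1 ≤ n ^ 2 := by nlinarith
      omega
    have hpn : p < n ^ 2 := by
      by_contra hcon
      push Not at hcon
      have h4 : (n ^ 2) ^ 2 ≤ p ^ 2 := Nat.pow_le_pow_left hcon 2
      have h5 : p ^ 2 ≤ r * p ^ 2 := Nat.le_mul_of_pos_left _ hr0
      have h6 : (n ^ 2) ^ 2 = n * n ^ 3 := by ring
      have h7 : 10 * n ^ 3 ≤ n * n ^ 3 := Nat.mul_le_mul_right _ hn3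
      have h8 : 10 * n ^ 2 ≤ n ^ 3 := by
        have : n ^ 3 = n * n ^ 2 := by ring
        rw [this]
        exact Nat.mul_le_mul_right _ hn3
      have h9 : 3 * n + 1 ≤ n ^ 2 := by nlinarith
      omega
    rw [mem_biUnion]
    refine ⟨p, ?_, ?_⟩
    · rw [mem_filter, mem_Ico]
      exact ⟨⟨hyp, hpn⟩, hp⟩
    · rw [mem_biUnion]
      refine ⟨r, ?_, ?_⟩
      · unfold RR
        rw [mem_filter, mem_Icc]
        exact ⟨⟨hr0, hrn⟩, hrp⟩
      · unfold MM
        rw [mem_filter]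
        refine ⟨hmI, k, hk, ?_⟩
        rw [hr]; ring
  have h2 : (((I n).filter (fun m => ∃ p : ℕ, p.Prime ∧ y < p ∧ ∃ k : ℕ, (1 + k * p).Prime ∧
      n ^ 2 < p * (1 + k * p) ∧ p * (1 + k * p) ∣ m)).card : ℝ) ≤
      ∑ p ∈ (Ico (y + 1) (n ^ 2)).filter Nat.Prime, ∑ r ∈ RR n p, ((MM n p r).card : ℝ) := by
    have h3 := (card_le_card h1).trans card_biUnion_le
    have h4 : ∑ p ∈ (Ico (y + 1) (n ^ 2)).filter Nat.Prime, ((RR n p).biUnion (fun r => MM n p r)).card ≤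
        ∑ p ∈ (Ico (y + 1) (n ^ 2)).filter Nat.Prime, ∑ r ∈ RR n p, (MM n p r).card :=
      sum_le_sum fun p _ => card_biUnion_le
    exact_mod_cast h3.trans h4
  refine h2.trans ?_
  -- H
  obtain ⟨H, hH⟩ : ∃ H : ℝ, H = 3 * (n : ℝ) ^ 2 + 3 * n + 1 := ⟨_, rfl⟩
  have hH7 : H ≤ 7 * n ^ 2 := by rw [hH]; nlinarith
  have hH3 : 3 * (n : ℝ) ^ 2 ≤ H := by rw [hH]; nlinarith
  have hH0 : 0 < H := by rw [hH]; positivity
  -- W bounds
  have hW : ∀ p r : ℕ, (0 < p) → (1 ≤ r) →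
      H / ((p : ℝ) ^ 2 * r) ≤ (((3 * n ^ 2 + 3 * n + 1) / (p ^ 2 * r) + 1 : ℕ) : ℝ) ∧
      (((3 * n ^ 2 + 3 * n + 1) / (p ^ 2 * r) + 1 : ℕ) : ℝ) ≤ H / ((p : ℝ) ^ 2 * r) + 1 := by
    intro p r hp hr
    have hd : 0 < p ^ 2 * r := Nat.mul_pos (pow_pos hp 2) (by omega)
    have hd' : (0 : ℝ) < (p : ℝ) ^ 2 * r := by
      have : (0 : ℝ) < ((p ^ 2 * r : ℕ) : ℝ) := by exact_mod_cast hd
      push_cast at this
      exact this
    constructor
    · rw [div_le_iff₀ hd']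
      have h3 := Nat.lt_div_mul_add hd (a := 3 * n ^ 2 + 3 * n + 1)
      have h4 : ((3 * n ^ 2 + 3 * n + 1 : ℕ) : ℝ) ≤
          (((3 * n ^ 2 + 3 * n + 1) / (p ^ 2 * r) : ℕ) : ℝ) * ((p : ℝ) ^ 2 * r) + (p : ℝ) ^ 2 * r := by
        exact_mod_cast h3.le
      push_cast at h4 ⊢
      rw [hH]
      linarith
    · have h3 : (((3 * n ^ 2 + 3 * n + 1) / (p ^ 2 * r) : ℕ) : ℝ) ≤
          ((3 * n ^ 2 + 3 * n + 1 : ℕ) : ℝ) / ((p ^ 2 * r : ℕ) : ℝ) := Nat.cast_div_le
      rw [Nat.cast_add, Nat.cast_one]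
      push_cast at h3
      push_cast
      rw [hH]
      linarith
  -- harmonic bound
  have hharm : ∀ p, ∑ r ∈ RR n p, (1 : ℝ) / r ≤ 3 * Real.log n := by
    intro p
    have h3 : ∑ r ∈ RR n p, (1 : ℝ) / r ≤ ∑ r ∈ Icc 1 (n + 3), (1 : ℝ) / r := by
      unfold RR
      exact sum_le_sum_of_subset_of_nonneg (filter_subset _ _) (fun _ _ _ => by positivity)
    refine h3.trans ((sum_Icc_inv_le _).trans ?_)
    have h4 : Real.log ((n + 3 : ℕ) : ℝ) ≤ Real.log ((n : ℝ) ^ 2) := by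
      apply Real.log_le_log (by push_cast; linarith)
      push_cast
      nlinarith
    rw [Real.log_pow] at h4
    push_cast at h4 ⊢
    linarith
  -- case A: p⁴ ≤ n
  have hA : ∀ p ∈ (Ico (y + 1) (n ^ 2)).filter Nat.Prime, p ^ 4 ≤ n →
      ∑ r ∈ RR n p, ((MM n p r).card : ℝ) ≤ 84 * C * n ^ 2 * (1 / (p : ℝ) ^ 2) := by
    intro p hp hp4
    rw [mem_filter, mem_Ico] at hp
    have hp0 : (0 : ℝ) < p := by exact_mod_cast hp.2.pos
    have hpsq : (p : ℝ) ^ 2 ≤ √(n : ℝ) := by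
      apply Real.le_sqrt_of_sq_le
      have : ((p : ℝ) ^ 2) ^ 2 = (p : ℝ) ^ 4 := by ring
      rw [this]
      exact_mod_cast hp4
    have hsq0 : 0 < √(n : ℝ) := Real.sqrt_pos.mpr (by linarith)
    have hsq2 : √(n : ℝ) * √(n : ℝ) = n := Real.mul_self_sqrt (by linarith)
    have h3 : ∀ r ∈ RR n p, ((MM n p r).card : ℝ) ≤
        4 * C * H / Real.log n * (1 / (p : ℝ) ^ 2) * (1 / r) := by
      intro r hr
      have hr' := hr
      unfold RR at hr
      rw [mem_filter, mem_Icc] at hr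
      have hr0 : (0 : ℝ) < r := by exact_mod_cast hr.1.1
      have hrn : (r : ℝ) ≤ n + 3 := by exact_mod_cast hr.1.2
      obtain ⟨a, ha⟩ := card_MM (n := n) hp.2 hr.1.1
      obtain ⟨W, hWd⟩ : ∃ W, W = (3 * n ^ 2 + 3 * n + 1) / (p ^ 2 * r) + 1 := ⟨_, rfl⟩
      have hWb := hW p r hp.2.pos hr.1.1
      rw [← hWd] at ha hWb
      have hge : √(n : ℝ) ≤ H / ((p : ℝ) ^ 2 * r) := by
        rw [le_div_iff₀ (by positivity)]
        calc √(n : ℝ) * ((p : ℝ) ^ 2 * r) ≤ √(n : ℝ) * (√(n : ℝ) * (n + 3)) := by gcongr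
          _ = n * (n + 3) := by rw [← mul_assoc, hsq2]
          _ ≤ H := by rw [hH]; nlinarith
      have hsq1 : 2 ≤ √(n : ℝ) := by
        apply Real.le_sqrt_of_sq_le
        linarith
      have hWge : √(n : ℝ) ≤ W := hge.trans hWb.1
      have hW2 : 2 ≤ W := by
        have : (2 : ℝ) ≤ W := hsq1.trans hWge
        exact_mod_cast this
      have hWle : (W : ℝ) ≤ 2 * (H / ((p : ℝ) ^ 2 * r)) := by linarith [hWb.2]
      have hlogW : Real.log n / 2 ≤ Real.log W := by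
        rw [← Real.log_sqrt (by linarith)]
        exact Real.log_le_log hsq0 hWge
      have hB := hC a p W hW2 (Or.inr hp.2)
      have hcard : ((MM n p r).card : ℝ) ≤ C * W / Real.log W := by
        refine le_trans ?_ hB
        exact_mod_cast ha
      refine hcard.trans ?_
      have hC0 : 0 ≤ C := by linarith
      calc C * W / Real.log W ≤ C * (2 * (H / ((p : ℝ) ^ 2 * r))) / (Real.log n / 2) := by gcongr
        _ = 4 * C * H / Real.log n * (1 / (p : ℝ) ^ 2) * (1 / r) := by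
            field_simp
            ring
    refine (sum_le_sum h3).trans ?_
    rw [← mul_sum]
    have hC0 : 0 ≤ C := by linarith
    calc 4 * C * H / Real.log n * (1 / (p : ℝ) ^ 2) * ∑ r ∈ RR n p, (1 : ℝ) / r
        ≤ 4 * C * (7 * n ^ 2) / Real.log n * (1 / (p : ℝ) ^ 2) * (3 * Real.log n) := by
          have := hharm p
          gcongr
      _ = 84 * C * n ^ 2 * (1 / (p : ℝ) ^ 2) := by
          field_simp
          ring
  -- case B: p⁴ > n
  have hB : ∀ p ∈ (Ico (y + 1) (n ^ 2)).filter Nat.Prime,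
      ∑ r ∈ RR n p, ((MM n p r).card : ℝ) ≤ 21 * n ^ 2 * Real.log n * (1 / (p : ℝ) ^ 2) +
        (RR n p).card := by
    intro p hp
    rw [mem_filter, mem_Ico] at hp
    have hp0 : (0 : ℝ) < p := by exact_mod_cast hp.2.pos
    have h3 : ∀ r ∈ RR n p, ((MM n p r).card : ℝ) ≤
        H * (1 / (p : ℝ) ^ 2) * (1 / r) + 1 := by
      intro r hr
      have hr' := hr
      unfold RR at hr
      rw [mem_filter, mem_Icc] at hr
      have hr0 : (0 : ℝ) < r := by exact_mod_cast hr.1.1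
      obtain ⟨a, ha⟩ := card_MM (n := n) hp.2 hr.1.1
      have h4 := ha.trans (card_filter_le _ _)
      rw [card_range] at h4
      have h5 := (hW p r hp.2.pos hr.1.1).2
      have h6 : H / ((p : ℝ) ^ 2 * r) = H * (1 / (p : ℝ) ^ 2) * (1 / r) := by
        field_simp
      rw [← h6]
      refine le_trans ?_ h5
      exact_mod_cast h4
    refine (sum_le_sum h3).trans ?_
    rw [sum_add_distrib, ← mul_sum, sum_const, nsmul_eq_mul, mul_one]
    have h7 : H * (1 / (p : ℝ) ^ 2) * ∑ r ∈ RR n p, (1 : ℝ) / r ≤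
        7 * n ^ 2 * (1 / (p : ℝ) ^ 2) * (3 * Real.log n) := by
      have := hharm p
      gcongr
    have h8 : 7 * (n : ℝ) ^ 2 * (1 / (p : ℝ) ^ 2) * (3 * Real.log n) =
        21 * n ^ 2 * Real.log n * (1 / (p : ℝ) ^ 2) := by ring
    linarith
  -- combine
  rw [← sum_filter_add_sum_filter_not _ (fun p => p ^ 4 ≤ n)]
  have hS1 : ∑ p ∈ ((Ico (y + 1) (n ^ 2)).filter Nat.Prime).filter (fun p => p ^ 4 ≤ n),
      ∑ r ∈ RR n p, ((MM n p r).card : ℝ) ≤ 84 * C * n ^ 2 / y := by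
    have h3 : ∀ p ∈ ((Ico (y + 1) (n ^ 2)).filter Nat.Prime).filter (fun p => p ^ 4 ≤ n),
        ∑ r ∈ RR n p, ((MM n p r).card : ℝ) ≤ 84 * C * n ^ 2 * (1 / (p : ℝ) ^ 2) := by
      intro p hp
      rw [mem_filter] at hp
      exact hA p hp.1 hp.2
    refine (sum_le_sum h3).trans ?_
    rw [← mul_sum]
    have h4 : ∑ p ∈ ((Ico (y + 1) (n ^ 2)).filter Nat.Prime).filter (fun p => p ^ 4 ≤ n),
        1 / (p : ℝ) ^ 2 ≤ 1 / (y : ℝ) := by
      refine le_trans ?_ (sum_inv_sq_tail (Z := n ^ 2) hy)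
      refine sum_le_sum_of_subset_of_nonneg ?_ (fun _ _ _ => by positivity)
      intro p hp
      rw [mem_filter, mem_filter, mem_Ico] at hp
      rw [mem_Ioc]
      omega
    have hC0 : 0 ≤ C := by linarith
    calc 84 * C * n ^ 2 * _ ≤ 84 * C * (n : ℝ) ^ 2 * (1 / (y : ℝ)) := by gcongr
      _ = _ := by ring
  have hS2 : ∑ p ∈ ((Ico (y + 1) (n ^ 2)).filter Nat.Prime).filter (fun p => ¬ p ^ 4 ≤ n),
      ∑ r ∈ RR n p, ((MM n p r).card : ℝ) ≤ (n : ℝ) ^ 2 / Real.log n + C2 * n ^ 2 / Real.log n := by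
    have h3 : ∀ p ∈ ((Ico (y + 1) (n ^ 2)).filter Nat.Prime).filter (fun p => ¬ p ^ 4 ≤ n),
        ∑ r ∈ RR n p, ((MM n p r).card : ℝ) ≤ 21 * n ^ 2 * Real.log n * (1 / (p : ℝ) ^ 2) +
          (RR n p).card := by
      intro p hp
      rw [mem_filter] at hp
      exact hB p hp.1
    refine (sum_le_sum h3).trans ?_
    rw [sum_add_distrib, ← mul_sum]
    have hz : ∃ z : ℕ, 1 ≤ z ∧ z ^ 4 ≤ n ∧ 21 * Real.log n ^ 2 ≤ z := by
      refine ⟨⌊42 * Real.log n ^ 2⌋₊, ?_, ?_, ?_⟩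
      · rw [Nat.one_le_floor_iff]
        nlinarith
      · have h4 : ((⌊42 * Real.log n ^ 2⌋₊ : ℕ) : ℝ) ≤ 42 * Real.log n ^ 2 :=
          Nat.floor_le (by positivity)
        have h5 : ((⌊42 * Real.log n ^ 2⌋₊ : ℕ) : ℝ) ^ 4 ≤ n := by
          calc ((⌊42 * Real.log n ^ 2⌋₊ : ℕ) : ℝ) ^ 4 ≤ (42 * Real.log n ^ 2) ^ 4 := by gcongr
            _ = (42 ^ 2 * Real.log n ^ 4) ^ 2 := by ring
            _ ≤ (√(n : ℝ)) ^ 2 := by gcongr
            _ = n := Real.sq_sqrt (by linarith)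
        exact_mod_cast h5
      · have h4 := Nat.lt_floor_add_one (42 * Real.log n ^ 2)
        have h5 : 1 ≤ 21 * Real.log n ^ 2 := by nlinarith
        linarith
    obtain ⟨z, hz1, hz4, hzl⟩ := hz
    have h4 : ∑ p ∈ ((Ico (y + 1) (n ^ 2)).filter Nat.Prime).filter (fun p => ¬ p ^ 4 ≤ n),
        1 / (p : ℝ) ^ 2 ≤ 1 / (z : ℝ) := by
      refine le_trans ?_ (sum_inv_sq_tail (Z := n ^ 2) hz1)
      refine sum_le_sum_of_subset_of_nonneg ?_ (fun _ _ _ => by positivity)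
      intro p hp
      rw [mem_filter, mem_filter, mem_Ico] at hp
      rw [mem_Ioc]
      refine ⟨?_, hp.1.1.2.le⟩
      by_contra hcon
      push Not at hcon
      have : p ^ 4 ≤ z ^ 4 := Nat.pow_le_pow_left hcon 4
      exact hp.2 (this.trans hz4)
    have hz0 : (0 : ℝ) < z := by exact_mod_cast hz1
    have h5 : 21 * (n : ℝ) ^ 2 * Real.log n *
        (∑ p ∈ ((Ico (y + 1) (n ^ 2)).filter Nat.Prime).filter (fun p => ¬ p ^ 4 ≤ n),
        1 / (p : ℝ) ^ 2) ≤ (n : ℝ) ^ 2 / Real.log n := by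
      calc _ ≤ 21 * (n : ℝ) ^ 2 * Real.log n * (1 / (z : ℝ)) := by gcongr
        _ = (n : ℝ) ^ 2 * (21 * Real.log n) / z := by ring
        _ ≤ (n : ℝ) ^ 2 / Real.log n := by
            rw [div_le_div_iff₀ hz0 hlogn]
            nlinarith [sq_nonneg (n : ℝ)]
    have h6 : ∑ p ∈ ((Ico (y + 1) (n ^ 2)).filter Nat.Prime).filter (fun p => ¬ p ^ 4 ≤ n),
        ((RR n p).card : ℝ) ≤ C2 * n ^ 2 / Real.log n := by
      refine le_trans ?_ (hC2 n (by omega))
      refine sum_le_sum_of_subset_of_nonneg ?_ (fun _ _ _ => by positivity)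
      intro p hp
      rw [mem_filter, mem_filter, mem_Ico] at hp
      rw [mem_filter, mem_Ico]
      exact ⟨⟨by omega, hp.1.1.2⟩, hp.1.2⟩
    linarith
  have h9 : (84 * C + C2 + 1) * (n : ℝ) ^ 2 / y = 84 * C * n ^ 2 / y + (C2 + 1) * n ^ 2 / y := by ring
  have h10 : (84 * C + C2 + 1) * (n : ℝ) ^ 2 / Real.log n =
      84 * C * n ^ 2 / Real.log n + (n ^ 2 / Real.log n + C2 * n ^ 2 / Real.log n) := by ring
  have h11 : 0 ≤ (C2 + 1) * (n : ℝ) ^ 2 / y := by
    have : 0 ≤ C2 + 1 := by linarith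
    positivity
  have h12 : 0 ≤ 84 * C * (n : ℝ) ^ 2 / Real.log n := by
    have : 0 ≤ C := by linarith
    positivity
  linarith

end Pool.Agent.V11299.Cyc
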