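import Mathlib
import Pool.Agent.V11299.Cyc.Basic
import Pool.Agent.Helper923.HMertens

set_option autoImplicit false

open Finset

namespace Pool.Agent.V11299.Cyc

lemma dens_mul {s : Finset ℕ} {a b : ℕ} (hab : a ≤ b) :
    dens s b = dens s a * ∏ p ∈ (Ioc a b).filter Nat.Prime, (1 - (nu s p : ℝ) / p) := by
  unfold dens
  rw [← prod_union]
  · congr 1
    rw [← filter_union]
    congr 1
    ext x
    simp only [mem_Icc, mem_union, mem_Ioc]
    omega
  · apply disjoint_filter_filter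
    rw [disjoint_left]
    intro x hx
    rw [mem_Icc] at hx
    rw [mem_Ioc]
    omega

lemma nu_div_le_one {s : Finset ℕ} {p : ℕ} (hp : 0 < p) : (nu s p : ℝ) / p ≤ 1 := by
  have hp0 : (0 : ℝ) < p := by exact_mod_cast hp
  have h1 : nu s p ≤ p := by
    unfold nu
    refine (card_filter_le _ _).trans ?_
    rw [card_range]
  have h2 : (nu s p : ℝ) ≤ p := by exact_mod_cast h1
  rw [div_le_one hp0]; exact h2

lemma dens_anti {s : Finset ℕ} {a b : ℕ} (hab : a ≤ b) : dens s b ≤ dens s a := by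
  rw [dens_mul hab]
  have h1 : ∏ p ∈ (Ioc a b).filter Nat.Prime, (1 - (nu s p : ℝ) / p) ≤ 1 := by
    refine prod_le_one ?_ ?_
    · intro p hp
      rw [mem_filter] at hp
      have := nu_div_le_one (s := s) hp.2.pos
      linarith
    · intro p hp
      have : 0 ≤ (nu s p : ℝ) / p := by positivity
      linarith
  have h2 := dens_nonneg s a
  nlinarith

lemma one_sub_sum_le_prod {ι : Type*} (S : Finset ι) (f : ι → ℝ) (h0 : ∀ i ∈ S, 0 ≤ f i)
    (h1 : ∀ i ∈ S, f i ≤ 1) : 1 - ∑ i ∈ S, f i ≤ ∏ i ∈ S, (1 - f i) := by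
  classical
  induction S using Finset.induction_on with
  | empty => simp
  | insert a S ha ih =>
    rw [sum_insert ha, prod_insert ha]
    have h2 := ih (fun i hi => h0 i (mem_insert_of_mem hi)) (fun i hi => h1 i (mem_insert_of_mem hi))
    have h3 := h0 a (mem_insert_self _ _)
    have h4 := h1 a (mem_insert_self _ _)
    have h5 : 0 ≤ ∏ i ∈ S, (1 - f i) := prod_nonneg fun i hi => by
      have := h1 i (mem_insert_of_mem hi); linarith
    have h6 : ∏ i ∈ S, (1 - f i) ≤ 1 := prod_le_one (fun i hi => by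
      have := h1 i (mem_insert_of_mem hi); linarith) (fun i hi => by
      have := h0 i (mem_insert_of_mem hi); linarith)
    nlinarith

lemma dens_lower_ratio {s : Finset ℕ} {a b : ℕ} (hab : a ≤ b) :
    dens s a * (1 - s.card * ∑ p ∈ (Ioc a b).filter Nat.Prime, (1 : ℝ) / p) ≤ dens s b := by
  rw [dens_mul hab]
  refine mul_le_mul_of_nonneg_left ?_ (dens_nonneg s a)
  refine le_trans ?_ (one_sub_sum_le_prod _ _ ?_ ?_)
  · rw [mul_sum]
    have : ∑ p ∈ (Ioc a b).filter Nat.Prime, (nu s p : ℝ) / p ≤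
        ∑ p ∈ (Ioc a b).filter Nat.Prime, (s.card : ℝ) * (1 / p) := by
      refine sum_le_sum fun p _ => ?_
      rw [mul_one_div]
      have : (nu s p : ℝ) ≤ s.card := by exact_mod_cast nu_le_card s p
      gcongr
    linarith
  · intro p _
    positivity
  · intro p hp
    rw [mem_filter] at hp
    exact nu_div_le_one hp.2.pos

/-- Mertens in the form we need -/
lemma mert : ∃ C : ℝ, 0 ≤ C ∧ ∀ a b : ℕ, 2 ≤ a → a ≤ b →
    |∑ p ∈ (Finset.Ioc a b).filter Nat.Prime, (1 : ℝ) / p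
      - Real.log (Real.log b / Real.log a)| ≤ C / Real.log a :=
  Helper923.HMertens.mertens_ratio

lemma dens_pair_pos {g : ℕ} (hg : 2 ∣ g) (y : ℕ) : 0 < dens {0, g} y := by
  unfold dens
  refine prod_pos fun p hp => ?_
  rw [mem_filter, mem_Icc] at hp
  have hp0 : (0 : ℝ) < p := by exact_mod_cast hp.2.pos
  have h2 := hp.2.two_le
  rw [nu_pair hp.2]
  rcases Nat.lt_or_ge 2 p with h3 | h3
  · have h4 : (3 : ℝ) ≤ p := by exact_mod_cast h3
    have h5 : ((if p ∣ g then 1 else 2 : ℕ) : ℝ) ≤ 2 := by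
      split_ifs <;> norm_num
    have : ((if p ∣ g then 1 else 2 : ℕ) : ℝ) / p ≤ 2 / 3 := by
      rw [div_le_div_iff₀ hp0 (by norm_num)]
      nlinarith
    linarith
  · have h4 : p = 2 := by omega
    subst h4
    rw [if_pos hg]
    norm_num

lemma dens_pair_lower {g : ℕ} (hg : 2 ∣ g) : ∃ c : ℝ, 0 < c ∧ ∀ y : ℕ, 6 ≤ y →
    c / Real.log y ^ 3 ≤ dens {0, g} y := by
  obtain ⟨C, hC0, hC⟩ := mert
  have hl6 : 0 < Real.log (6 : ℕ) := Real.log_pos (by norm_num)
  refine ⟨dens {0, g} 6 * Real.exp (-3 * (C / Real.log (6 : ℕ))) * Real.log (6 : ℕ) ^ 3, ?_, ?_⟩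
  · have := dens_pair_pos hg 6
    positivity
  · intro y hy
    have hy' : (6 : ℝ) ≤ y := by exact_mod_cast hy
    have hly : 0 < Real.log y := Real.log_pos (by linarith)
    rw [dens_mul hy]
    have h1 := hC 6 y (by norm_num) hy
    rw [abs_le] at h1
    have h2 : Real.exp (-3 * (C / Real.log (6 : ℕ))) * Real.log (6 : ℕ) ^ 3 / Real.log y ^ 3 ≤
        ∏ p ∈ (Ioc 6 y).filter Nat.Prime, (1 - (nu {0, g} p : ℝ) / p) := by
      have h3 : Real.exp (-3 * (∑ p ∈ (Ioc 6 y).filter Nat.Prime, (1 : ℝ) / p)) ≤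
          ∏ p ∈ (Ioc 6 y).filter Nat.Prime, (1 - (nu {0, g} p : ℝ) / p) := by
        rw [mul_sum, Real.exp_sum]
        refine prod_le_prod (fun p _ => (Real.exp_pos _).le) fun p hp => ?_
        rw [mem_filter, mem_Ioc] at hp
        have hp7 : (7 : ℝ) ≤ p := by exact_mod_cast hp.1.1
        have hp0 : (0 : ℝ) < p := by linarith
        have h4 : (nu {0, g} p : ℝ) ≤ 2 := by
          exact_mod_cast (nu_le_card _ _).trans card_le_two
        have h5 : (nu {0, g} p : ℝ) / p ≤ 2 / p := by gcongr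
        have h6 : 1 + 3 / (p : ℝ) ≤ Real.exp (3 / p) := by
          have := Real.add_one_le_exp (3 / (p : ℝ))
          linarith
        have h7 : (1 : ℝ) ≤ (1 - 2 / p) * (1 + 3 / p) := by
          have : (1 - 2 / (p : ℝ)) * (1 + 3 / p) = 1 + (p - 6) / p ^ 2 := by
            field_simp; ring
          rw [this]
          have : 0 ≤ ((p : ℝ) - 6) / p ^ 2 := by
            apply div_nonneg <;> [linarith; positivity]
          linarith
        have h8 : 0 < 1 - 2 / (p : ℝ) := by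
          have : 2 / (p : ℝ) ≤ 2 / 7 := by gcongr
          linarith
        have h9 : 1 ≤ (1 - 2 / (p : ℝ)) * Real.exp (3 / p) :=
          h7.trans (mul_le_mul_of_nonneg_left h6 h8.le)
        have h10 : Real.exp (-3 * (1 / (p : ℝ))) = (Real.exp (3 / p))⁻¹ := by
          rw [← Real.exp_neg]; congr 1; ring
        rw [h10, inv_le_iff_one_le_mul₀ (Real.exp_pos _)]
        nlinarith [Real.exp_pos (3 / (p : ℝ))]
      refine le_trans ?_ h3
      have h4 : Real.exp (-3 * (C / Real.log (6 : ℕ))) * Real.log (6 : ℕ) ^ 3 / Real.log y ^ 3 =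
          Real.exp (-3 * (C / Real.log (6 : ℕ) + Real.log (Real.log y / Real.log (6 : ℕ)))) := by
        rw [mul_add, Real.exp_add, mul_div_assoc]
        congr 1
        have h5 : -3 * Real.log (Real.log y / Real.log (6 : ℕ)) =
            Real.log ((Real.log (6 : ℕ) / Real.log y) ^ 3) := by
          rw [Real.log_pow, Real.log_div hl6.ne' hly.ne', Real.log_div hly.ne' hl6.ne']
          push_cast
          ring
        rw [h5, Real.exp_log (by positivity), div_pow]
      rw [h4]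
      apply Real.exp_le_exp.mpr
      linarith [h1.2]
    have h11 := dens_pair_pos hg 6
    calc dens {0, g} 6 * Real.exp (-3 * (C / Real.log (6 : ℕ))) * Real.log (6 : ℕ) ^ 3 /
          Real.log y ^ 3 = dens {0, g} 6 * (Real.exp (-3 * (C / Real.log (6 : ℕ))) *
            Real.log (6 : ℕ) ^ 3 / Real.log y ^ 3) := by ring
      _ ≤ _ := mul_le_mul_of_nonneg_left h2 h11.le

lemma dens_triple {g : ℕ} (hg : 2 ∣ g) (hg6 : g ≤ 6) :
    ∃ K : ℝ, 0 < K ∧ ∀ h : ℕ, 0 < h → h < g → ∀ y : ℕ, 6 ≤ y →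
      dens {0, h, g} y ≤ K * dens {0, g} y / Real.log y := by
  obtain ⟨C, hC0, hC⟩ := mert
  have hl6 : 0 < Real.log (6 : ℕ) := Real.log_pos (by norm_num)
  have hd6 := dens_pair_pos hg 6
  refine ⟨(dens {0, g} 6)⁻¹ * (Real.exp (C / Real.log (6 : ℕ)) * Real.log (6 : ℕ)), by positivity, ?_⟩
  intro h h0 hhg y hy
  have hy' : (6 : ℝ) ≤ y := by exact_mod_cast hy
  have hly : 0 < Real.log y := Real.log_pos (by linarith)
  have h1 := hC 6 y (by norm_num) hy
  rw [abs_le] at h1
  rw [dens_mul (s := {0, h, g}) hy, dens_mul (s := {0, g}) hy]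
  have h2 : ∏ p ∈ (Ioc 6 y).filter Nat.Prime, (1 - (nu {0, h, g} p : ℝ) / p) ≤
      (∏ p ∈ (Ioc 6 y).filter Nat.Prime, (1 - (nu {0, g} p : ℝ) / p)) *
        ∏ p ∈ (Ioc 6 y).filter Nat.Prime, (1 - 1 / (p : ℝ)) := by
    rw [← prod_mul_distrib]
    refine prod_le_prod ?_ ?_
    · intro p hp
      rw [mem_filter] at hp
      have := nu_div_le_one (s := {0, h, g}) hp.2.pos
      linarith
    · intro p hp
      rw [mem_filter, mem_Ioc] at hp
      have hp7 : (7 : ℝ) ≤ p := by exact_mod_cast hp.1.1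
      have hp0 : (0 : ℝ) < p := by linarith
      have h3 : nu {0, h, g} p = 3 := by
        rw [nu_eq_card]
        · rw [card_eq_three]
          exact ⟨0, h, g, by omega, by omega, by omega, rfl⟩
        · intro t ht
          simp only [mem_insert, mem_singleton] at ht
          omega
      have h4 : (nu {0, g} p : ℝ) ≤ 2 := by
        exact_mod_cast (nu_le_card _ _).trans card_le_two
      have h5 : (nu {0, g} p : ℝ) / p ≤ 2 / p := by gcongr
      rw [h3]
      have h6 : (1 - ((3 : ℕ) : ℝ) / p) ≤ (1 - 2 / p) * (1 - 1 / (p : ℝ)) := by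
        have : (1 - 2 / p) * (1 - 1 / (p : ℝ)) = (1 - ((3 : ℕ) : ℝ) / p) + 2 / p ^ 2 := by
          push_cast; field_simp; ring
        rw [this]
        have : 0 ≤ 2 / (p : ℝ) ^ 2 := by positivity
        linarith
      have h7 : 0 ≤ 1 - 1 / (p : ℝ) := by
        have : 1 / (p : ℝ) ≤ 1 / 7 := by gcongr
        linarith
      refine h6.trans (mul_le_mul_of_nonneg_right (by linarith) h7)
  have h8 : ∏ p ∈ (Ioc 6 y).filter Nat.Prime, (1 - 1 / (p : ℝ)) ≤
      Real.exp (C / Real.log (6 : ℕ)) * Real.log (6 : ℕ) / Real.log y := by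
    have h9 : ∏ p ∈ (Ioc 6 y).filter Nat.Prime, (1 - 1 / (p : ℝ)) ≤
        Real.exp (- ∑ p ∈ (Ioc 6 y).filter Nat.Prime, (1 : ℝ) / p) := by
      rw [← sum_neg_distrib, Real.exp_sum]
      refine prod_le_prod ?_ ?_
      · intro p hp
        rw [mem_filter, mem_Ioc] at hp
        have hp7 : (7 : ℝ) ≤ p := by exact_mod_cast hp.1.1
        have : 1 / (p : ℝ) ≤ 1 / 7 := by gcongr
        linarith
      · intro p _
        have := Real.add_one_le_exp (-(1 / (p : ℝ)))
        linarith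
    refine h9.trans ?_
    have h10 : Real.exp (C / Real.log (6 : ℕ)) * Real.log (6 : ℕ) / Real.log y =
        Real.exp (C / Real.log (6 : ℕ) - Real.log (Real.log y / Real.log (6 : ℕ))) := by
      rw [Real.exp_sub, Real.exp_log (by positivity)]
      field_simp
    rw [h10]
    apply Real.exp_le_exp.mpr
    linarith [h1.1]
  have h11 := dens_nonneg {0, h, g} 6
  have h12 : dens {0, h, g} 6 ≤ 1 := by
    unfold dens
    refine prod_le_one ?_ ?_
    · intro p hp
      rw [mem_filter] at hp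
      have := nu_div_le_one (s := {0, h, g}) hp.2.pos
      linarith
    · intro p _
      have : 0 ≤ (nu {0, h, g} p : ℝ) / p := by positivity
      linarith
  obtain ⟨A, hA⟩ : ∃ A, A = ∏ p ∈ (Ioc 6 y).filter Nat.Prime, (1 - (nu {0, g} p : ℝ) / p) :=
    ⟨_, rfl⟩
  obtain ⟨B, hB⟩ : ∃ B, B = ∏ p ∈ (Ioc 6 y).filter Nat.Prime, (1 - 1 / (p : ℝ)) := ⟨_, rfl⟩
  have hA0 : 0 ≤ A := by
    rw [hA]
    refine prod_nonneg fun p hp => ?_
    rw [mem_filter] at hp
    have := nu_div_le_one (s := {0, g}) hp.2.pos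
    linarith
  rw [← hA, ← hB] at h2
  rw [← hB] at h8
  rw [← hA]
  have h13 : 0 ≤ ∏ p ∈ (Ioc 6 y).filter Nat.Prime, (1 - (nu {0, h, g} p : ℝ) / p) := by
    refine prod_nonneg fun p hp => ?_
    rw [mem_filter] at hp
    have := nu_div_le_one (s := {0, h, g}) hp.2.pos
    linarith
  calc dens {0, h, g} 6 * ∏ p ∈ (Ioc 6 y).filter Nat.Prime, (1 - (nu {0, h, g} p : ℝ) / p)
      ≤ 1 * ∏ p ∈ (Ioc 6 y).filter Nat.Prime, (1 - (nu {0, h, g} p : ℝ) / p) :=
        mul_le_mul_of_nonneg_right h12 h13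
    _ ≤ A * B := by rw [one_mul]; exact h2
    _ ≤ A * (Real.exp (C / Real.log (6 : ℕ)) * Real.log (6 : ℕ) / Real.log y) :=
        mul_le_mul_of_nonneg_left h8 hA0
    _ = (dens {0, g} 6)⁻¹ * (Real.exp (C / Real.log (6 : ℕ)) * Real.log (6 : ℕ)) *
        (dens {0, g} 6 * A) / Real.log y := by
        field_simp

lemma dens_succ_lower {g y : ℕ} : dens {0, g} y * (1 - 2 / ((y : ℝ) + 1)) ≤ dens {0, g} (y + 1) := by
  have h0 := dens_nonneg {0, g} y
  by_cases h : (y + 1).Prime
  · rw [dens_succ_prime h]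
    refine mul_le_mul_of_nonneg_left ?_ h0
    have h4 : (nu {0, g} (y + 1) : ℝ) ≤ 2 := by
      exact_mod_cast (nu_le_card _ _).trans card_le_two
    have : (nu {0, g} (y + 1) : ℝ) / ((y + 1 : ℕ) : ℝ) ≤ 2 / ((y : ℝ) + 1) := by
      push_cast
      gcongr
    linarith
  · rw [dens_succ_not_prime h]
    have : 0 ≤ 2 / ((y : ℝ) + 1) := by positivity
    nlinarith

end Pool.Agent.V11299.Cyc
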