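import Mathlib
import Pool.Agent.V11299.Cyc.Dens
import Pool.Agent.V11299.Cyc.Bad2

set_option autoImplicit false

open Finset

namespace Pool.Agent.V11299.Cyc

open Classical in
/-- all `c + h`, `h ∈ s`, are cyclic and in the interval -/
noncomputable def AA (s : Finset ℕ) (n : ℕ) : Finset ℕ :=
  (I n).filter (fun c => ∀ h ∈ s, c + h < (n + 1) ^ 3 ∧ Cyc (c + h))

open Classical in
/-- consecutive cyclic numbers with difference `g` -/
noncomputable def TT (g n : ℕ) : Finset ℕ :=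
  (I n).filter (fun c => c + g < (n + 1) ^ 3 ∧ Cyc c ∧ Cyc (c + g) ∧
    ∀ d, c < d → d < c + g → ¬ Cyc d)

lemma I_eq (n : ℕ) : I n = Ico (n ^ 3 + 1) (n ^ 3 + 1 + (3 * n ^ 2 + 3 * n)) := by
  unfold I
  congr 1
  ring

lemma primorial_le_real (y : ℕ) : (primorial y : ℝ) ≤ 4 ^ y := by
  exact_mod_cast primorial_le_four_pow y

open Classical in
lemma card_good_I (s : Finset ℕ) (y n : ℕ) :
    (((I n).filter (good y s)).card : ℝ) ≤ (3 * (n : ℝ) ^ 2 + 3 * n) * dens s y + 4 ^ y := by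
  rw [I_eq]
  have h := (abs_le.mp (card_good_Ico s y (n ^ 3 + 1) (3 * n ^ 2 + 3 * n))).2
  push_cast at h
  have := primorial_le_real y
  linarith

open Classical in
lemma card_AA_le (s : Finset ℕ) (y n : ℕ) {E : ℝ} (hE0 : 0 ≤ E)
    (hE : ∀ p : ℕ, p.Prime → p ≤ y → (((I n).filter (fun m => p ∣ m ∧ Cyc m)).card : ℝ) ≤ E) :
    ((AA s n).card : ℝ) ≤ (3 * (n : ℝ) ^ 2 + 3 * n) * dens s y + 4 ^ y + s.card * y * E := by
  have hsub : AA s n ⊆ (I n).filter (good y s) ∪
      s.biUnion (fun h => ((Icc 1 y).filter Nat.Prime).biUnion (fun p =>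
        (I n).filter (fun c => c + h ∈ (I n).filter (fun m => p ∣ m ∧ Cyc m)))) := by
    intro c hc
    unfold AA at hc
    rw [mem_filter] at hc
    rw [mem_union]
    by_cases hg : good y s c
    · left
      rw [mem_filter]
      exact ⟨hc.1, hg⟩
    · right
      unfold good at hg
      push Not at hg
      obtain ⟨p, hp, hpy, h, hs, hd⟩ := hg
      rw [mem_biUnion]
      refine ⟨h, hs, ?_⟩
      rw [mem_biUnion]
      refine ⟨p, ?_, ?_⟩
      · rw [mem_filter, mem_Icc]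
        exact ⟨⟨hp.pos, hpy⟩, hp⟩
      · rw [mem_filter, mem_filter]
        have h1 := hc.2 h hs
        refine ⟨hc.1, ?_, hd, h1.2⟩
        have h2 := hc.1
        unfold I at h2 ⊢
        rw [mem_Ico] at h2 ⊢
        omega
  have h1 := (card_le_card hsub).trans (card_union_le _ _)
  have h2 : (s.biUnion (fun h => ((Icc 1 y).filter Nat.Prime).biUnion (fun p =>
        (I n).filter (fun c => c + h ∈ (I n).filter (fun m => p ∣ m ∧ Cyc m))))).card ≤
      ∑ h ∈ s, ∑ p ∈ (Icc 1 y).filter Nat.Prime,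
        ((I n).filter (fun m => p ∣ m ∧ Cyc m)).card := by
    refine card_biUnion_le.trans (sum_le_sum fun h _ => card_biUnion_le.trans
      (sum_le_sum fun p _ => ?_))
    refine card_le_card_of_injOn (fun c => c + h) ?_ ?_
    · intro c hc
      rw [mem_coe, mem_filter] at hc
      exact hc.2
    · intro a _ b _ hab
      simp only at hab
      omega
  have h3 : ((∑ h ∈ s, ∑ p ∈ (Icc 1 y).filter Nat.Prime,
        ((I n).filter (fun m => p ∣ m ∧ Cyc m)).card : ℕ) : ℝ) ≤ s.card * y * E := by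
    push_cast
    have h4 : ∀ h ∈ s, ∑ p ∈ (Icc 1 y).filter Nat.Prime,
        (((I n).filter (fun m => p ∣ m ∧ Cyc m)).card : ℝ) ≤ y * E := by
      intro h _
      have h5 : ∀ p ∈ (Icc 1 y).filter Nat.Prime,
          (((I n).filter (fun m => p ∣ m ∧ Cyc m)).card : ℝ) ≤ E := by
        intro p hp
        rw [mem_filter, mem_Icc] at hp
        exact hE p hp.2 hp.1.2
      refine (sum_le_card_nsmul _ _ _ h5).trans ?_
      rw [nsmul_eq_mul]
      have h6 : ((Icc 1 y).filter Nat.Prime).card ≤ y := by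
        refine (card_filter_le _ _).trans ?_
        rw [Nat.card_Icc]; omega
      have h7 : (((Icc 1 y).filter Nat.Prime).card : ℝ) ≤ y := by exact_mod_cast h6
      exact mul_le_mul_of_nonneg_right h7 hE0
    refine (sum_le_card_nsmul _ _ _ h4).trans (le_of_eq ?_)
    rw [nsmul_eq_mul]
    ring
  have h4 := card_good_I s y n
  have h5 : ((AA s n).card : ℝ) ≤ (((I n).filter (good y s)).card : ℝ) +
      ((∑ h ∈ s, ∑ p ∈ (Icc 1 y).filter Nat.Prime,
        ((I n).filter (fun m => p ∣ m ∧ Cyc m)).card : ℕ) : ℝ) := by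
    exact_mod_cast h1.trans (Nat.add_le_add_left h2 _)
  linarith

open Classical in
/-- cyclic multiples of a small prime -/
lemma card_cyc_small : ∃ n0 : ℕ, ∀ n : ℕ, n0 ≤ n → ∀ p : ℕ, p.Prime →
    8 * (p : ℝ) ≤ Real.log (Real.log n) →
    (((I n).filter (fun m => p ∣ m ∧ Cyc m)).card : ℝ) ≤ 100 * n ^ 2 / Real.log (Real.log n) := by
  obtain ⟨n1, h1⟩ := lam_lower
  refine ⟨max n1 3, fun n hn p hp hpl => ?_⟩
  have hn1 : n1 ≤ n := le_trans (le_max_left _ _) hn
  have hn3 : 3 ≤ n := le_trans (le_max_right _ _) hn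
  have hnR : (3 : ℝ) ≤ n := by exact_mod_cast hn3
  have hp2 : (2 : ℝ) ≤ p := by exact_mod_cast hp.two_le
  obtain ⟨l, hl⟩ : ∃ l, l = Real.log (Real.log n) := ⟨_, rfl⟩
  have h2 := h1 n hn1 p hp (by linarith)
  rw [← hl] at hpl h2 ⊢
  have hl0 : 0 < l := by linarith
  have hlam1 : 1 ≤ lam p (Nat.sqrt n) := by
    refine le_trans ?_ h2
    rw [le_div_iff₀ (by linarith)]
    linarith
  have hab : n ^ 3 + 1 ≤ (n + 1) ^ 3 := by
    have : (n + 1) ^ 3 = n ^ 3 + 3 * n ^ 2 + 3 * n + 1 := by ring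
    omega
  have h3 := card_cyc_dvd hp hab hlam1
  have h4 : (((I n).filter (fun m => p ∣ m ∧ Cyc m)).card : ℝ) ≤
      ((((n + 1) ^ 3 : ℕ) : ℝ) - ((n ^ 3 + 1 : ℕ) : ℝ)) / p / lam p (Nat.sqrt n) +
        2 / lam p (Nat.sqrt n) + 4 * (Nat.sqrt n : ℝ) ^ 2 := by
    unfold I
    rw [← add_div]
    convert h3 using 3
  refine h4.trans ?_
  have h5 : (((n + 1) ^ 3 : ℕ) : ℝ) - ((n ^ 3 + 1 : ℕ) : ℝ) = 3 * (n : ℝ) ^ 2 + 3 * n := by
    push_cast; ring
  rw [h5]
  have h6 : (Nat.sqrt n : ℝ) ^ 2 ≤ n := by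
    exact_mod_cast Nat.sqrt_le' n
  have hlnn : l ≤ n := by
    have h7 : Real.log n ≤ n := (Real.log_le_sub_one_of_pos (by linarith)).trans (by linarith)
    have h8 : 0 < Real.log n := Real.log_pos (by linarith)
    have h9 : l ≤ Real.log n := by
      rw [hl]
      exact (Real.log_le_sub_one_of_pos h8).trans (by linarith)
    linarith
  have hp0 : (0 : ℝ) < p := by linarith
  have h7 : (3 * (n : ℝ) ^ 2 + 3 * n) / p / lam p (Nat.sqrt n) ≤ (3 * (n : ℝ) ^ 2 + 3 * n) / p / (l / (8 * p)) := by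
    gcongr
  have h8 : (3 * (n : ℝ) ^ 2 + 3 * n) / p / (l / (8 * p)) = 8 * (3 * (n : ℝ) ^ 2 + 3 * n) / l := by
    field_simp
  have h9 : 2 / lam p (Nat.sqrt n) ≤ 2 := by
    apply div_le_self (by norm_num) hlam1
  have h10 : 8 * (3 * (n : ℝ) ^ 2 + 3 * n) / l + 2 + 4 * n ≤ 100 * n ^ 2 / l := by
    rw [div_add' _ _ _ hl0.ne', div_add' _ _ _ hl0.ne']
    apply div_le_div_of_nonneg_right _ hl0.le
    nlinarith [mul_le_mul_of_nonneg_left hlnn (show (0 : ℝ) ≤ n by linarith)]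
  linarith

/-- the set of bad `m` -/
def BadP (y m : ℕ) : Prop := ∃ p : ℕ, p.Prime ∧ y < p ∧ p ∣ m ∧
  (p ^ 2 ∣ m ∨ ∃ q : ℕ, q.Prime ∧ p ∣ q - 1 ∧ q ∣ m)

lemma cyc_of_good {y m : ℕ} (hm : m ≠ 0) (h1 : ∀ p : ℕ, p.Prime → p ≤ y → ¬ p ∣ m)
    (h2 : ¬ BadP y m) : Cyc m := by
  unfold BadP at h2
  push Not at h2
  have h3 : ∀ p : ℕ, p.Prime → p ∣ m → y < p := by
    intro p hp hd
    by_contra hcon
    exact h1 p hp (by omega) hd
  refine cyc_of hm ?_ ?_
  · intro p hp hd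
    have hpm : p ∣ m := (dvd_pow_self p (by norm_num)).trans hd
    exact (h2 p hp (h3 p hp hpm) hpm).1 hd
  · intro p q hp hq hpm hqm hd
    exact (h2 p hp (h3 p hp hpm) hpm).2 q hq hd hqm

open Classical in
lemma card_bad : ∃ C : ℝ, 1 ≤ C ∧ ∃ n0 : ℕ, ∀ n : ℕ, n0 ≤ n → ∀ y : ℕ, 1 ≤ y →
    (((I n).filter (BadP y)).card : ℝ) ≤
      C * n ^ 2 * (1 + Real.log (Real.log n)) / y + C * n ^ 2 / Real.log n := by
  obtain ⟨C2, hC2, n2, h2⟩ := card_B2
  obtain ⟨C3, hC3, n3, h3⟩ := card_B3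
  obtain ⟨x1, hx1⟩ := ev_log 1 3
  have htend : Filter.Tendsto (fun n : ℕ => Real.log (Real.log n)) Filter.atTop Filter.atTop :=
    Real.tendsto_log_atTop.comp (Real.tendsto_log_atTop.comp (tendsto_natCast_atTop_atTop (R := ℝ)))
  have hev : ∀ᶠ n : ℕ in Filter.atTop, (1 : ℝ) ≤ Real.log (Real.log n) :=
    htend.eventually_ge_atTop 1
  rw [Filter.eventually_atTop] at hev
  obtain ⟨n4, hn4⟩ := hev
  refine ⟨6 + C2 + C3, by linarith, max (max (max n2 n3) (max x1 3)) n4, fun n hn y hy => ?_⟩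
  have hn2 : n2 ≤ n := by omega
  have hn3 : n3 ≤ n := by omega
  have hnx : x1 ≤ n := by omega
  have hn33 : 3 ≤ n := by omega
  have hn4' : n4 ≤ n := by omega
  have hnR : (3 : ℝ) ≤ n := by exact_mod_cast hn33
  have hll := hn4 n hn4'
  have hlogn : 0 < Real.log n := Real.log_pos (by linarith)
  have hsq := hx1 n hnx
  rw [pow_one] at hsq
  have hsub : (I n).filter (BadP y) ⊆
      ((I n).filter (fun m => ∃ p : ℕ, y < p ∧ p ^ 2 ∣ m)) ∪
      (((I n).filter (fun m => ∃ p : ℕ, p.Prime ∧ y < p ∧ ∃ k : ℕ, (1 + k * p).Prime ∧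
      p * (1 + k * p) ≤ n ^ 2 ∧ p * (1 + k * p) ∣ m)) ∪
      ((I n).filter (fun m => ∃ p : ℕ, p.Prime ∧ y < p ∧ ∃ k : ℕ, (1 + k * p).Prime ∧
      n ^ 2 < p * (1 + k * p) ∧ p * (1 + k * p) ∣ m))) := by
    intro m hm
    rw [mem_filter] at hm
    obtain ⟨hmI, p, hp, hyp, hpm, hor⟩ := hm
    rw [mem_union, mem_union]
    rcases hor with h | ⟨q, hq, hpq, hqm⟩
    · left
      rw [mem_filter]
      exact ⟨hmI, p, hyp, h⟩
    · right
      obtain ⟨k, hk⟩ := hpq
      have hq1 : q = 1 + k * p := by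
        have := hq.one_lt
        rw [mul_comm k p]
        omega
      have hne : p ≠ q := by
        intro hpq
        rw [← hpq] at hk
        have h5 := hp.one_lt
        rcases Nat.eq_zero_or_pos k with h0 | h0
        · subst h0
          omega
        · have : p * 1 ≤ p * k := Nat.mul_le_mul_left p h0
          omega
      have hcop : Nat.Coprime p q := (Nat.coprime_primes hp hq).mpr hne
      have hdvd : p * (1 + k * p) ∣ m := by
        rw [← hq1]
        exact hcop.mul_dvd_of_dvd_of_dvd hpm hqm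
      rcases Nat.lt_or_ge (n ^ 2) (p * (1 + k * p)) with h6 | h6
      · right
        rw [mem_filter]
        exact ⟨hmI, p, hp, hyp, k, by rw [← hq1]; exact hq, h6, hdvd⟩
      · left
        rw [mem_filter]
        exact ⟨hmI, p, hp, hyp, k, by rw [← hq1]; exact hq, h6, hdvd⟩
  have h4 := (card_le_card hsub).trans ((card_union_le _ _).trans
    (Nat.add_le_add_left (card_union_le _ _) _))
  have h5 := card_B1 (n := n) hy
  have h6 := h2 n hn2 y hy
  have h7 := h3 n hn3 y hy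
  have h8 : (((I n).filter (BadP y)).card : ℝ) ≤
      (((I n).filter (fun m => ∃ p : ℕ, y < p ∧ p ^ 2 ∣ m)).card : ℝ) +
      ((((I n).filter (fun m => ∃ p : ℕ, p.Prime ∧ y < p ∧ ∃ k : ℕ, (1 + k * p).Prime ∧
      p * (1 + k * p) ≤ n ^ 2 ∧ p * (1 + k * p) ∣ m)).card : ℝ) +
      (((I n).filter (fun m => ∃ p : ℕ, p.Prime ∧ y < p ∧ ∃ k : ℕ, (1 + k * p).Prime ∧
      n ^ 2 < p * (1 + k * p) ∧ p * (1 + k * p) ∣ m)).card : ℝ)) := by
    exact_mod_cast h4
  refine h8.trans ((add_le_add h5 (add_le_add h6 h7)).trans ?_)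
  have hy0 : (0 : ℝ) < y := by exact_mod_cast hy
  have h9 : (3 * (n : ℝ) ^ 2 + 3 * n) / y ≤ 6 * n ^ 2 * (1 + Real.log (Real.log n)) / y := by
    apply div_le_div_of_nonneg_right _ hy0.le
    nlinarith [sq_nonneg (n : ℝ)]
  have h10 : (Nat.sqrt ((n + 1) ^ 3) : ℝ) ≤ 6 * n ^ 2 / Real.log n := by
    have h11 : (Nat.sqrt ((n + 1) ^ 3) : ℝ) ≤ √(((n : ℝ) + 1) ^ 3) := by
      apply Real.le_sqrt_of_sq_le
      have := Nat.sqrt_le' ((n + 1) ^ 3)
      exact_mod_cast this
    have h12 : √(((n : ℝ) + 1) ^ 3) ≤ 4 * (n * √n) := by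
      rw [Real.sqrt_le_left (by positivity)]
      have h13 : (4 * ((n : ℝ) * √n)) ^ 2 = 16 * n ^ 2 * (√n) ^ 2 := by ring
      rw [h13, Real.sq_sqrt (by linarith)]
      have : (n : ℝ) + 1 ≤ 2 * n := by linarith
      calc ((n : ℝ) + 1) ^ 3 ≤ (2 * (n : ℝ)) ^ 3 := by gcongr
        _ ≤ 16 * (n : ℝ) ^ 2 * (n : ℝ) := by
            nlinarith [pow_pos (show (0 : ℝ) < n by linarith) 3]
    refine h11.trans (h12.trans ?_)
    rw [le_div_iff₀ hlogn]
    have h14 : √(n : ℝ) * √(n : ℝ) = n := Real.mul_self_sqrt (by linarith)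
    have h15 : 0 ≤ √(n : ℝ) := Real.sqrt_nonneg _
    have h16 : √(n : ℝ) * Real.log n ≤ n / 3 := by nlinarith
    nlinarith
  have h11 : C3 * (n : ℝ) ^ 2 / y ≤ C3 * n ^ 2 * (1 + Real.log (Real.log n)) / y := by
    apply div_le_div_of_nonneg_right _ hy0.le
    have : 0 ≤ C3 * (n : ℝ) ^ 2 := by
      have : 0 ≤ C3 := by linarith
      positivity
    nlinarith
  have h12 : (6 + C2 + C3) * (n : ℝ) ^ 2 * (1 + Real.log (Real.log n)) / y =
      6 * n ^ 2 * (1 + Real.log (Real.log n)) / y + C2 * n ^ 2 * (1 + Real.log (Real.log n)) / y +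
        C3 * n ^ 2 * (1 + Real.log (Real.log n)) / y := by ring
  have h13 : (6 + C2 + C3) * (n : ℝ) ^ 2 / Real.log n =
      6 * n ^ 2 / Real.log n + C2 * n ^ 2 / Real.log n + C3 * n ^ 2 / Real.log n := by ring
  have h14 : 0 ≤ C2 * (n : ℝ) ^ 2 / Real.log n := by
    have : 0 ≤ C2 := by linarith
    positivity
  linarith

open Classical in
/-- lower bound for pairs -/
lemma card_AA_ge {g y n : ℕ} (hg : g ≤ 3 * n ^ 2 + 3 * n) :
    (3 * (n : ℝ) ^ 2 + 3 * n - g) * dens {0, g} y - 4 ^ y - 2 * ((I n).filter (BadP y)).card ≤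
      ((AA {0, g} n).card : ℝ) := by
  obtain ⟨L, hL⟩ : ∃ L, 3 * n ^ 2 + 3 * n = L + g := ⟨3 * n ^ 2 + 3 * n - g, by omega⟩
  have h1 := (abs_le.mp (card_good_Ico {0, g} y (n ^ 3 + 1) L)).1
  have h2 := primorial_le_real y
  have h3 : (L : ℝ) = 3 * (n : ℝ) ^ 2 + 3 * n - g := by
    have : (3 * (n : ℝ) ^ 2 + 3 * n) = L + g := by exact_mod_cast hL
    linarith
  rw [h3] at h1
  have hn3 : (n + 1) ^ 3 = n ^ 3 + 1 + L + g := by
    have : (n + 1) ^ 3 = n ^ 3 + 3 * n ^ 2 + 3 * n + 1 := by ring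
    omega
  have hsub : (Ico (n ^ 3 + 1) (n ^ 3 + 1 + L)).filter (good y {0, g}) ⊆
      AA {0, g} n ∪ ((I n).filter (BadP y) ∪
        (Ico (n ^ 3 + 1) (n ^ 3 + 1 + L)).filter (fun c => c + g ∈ (I n).filter (BadP y))) := by
    intro c hc
    rw [mem_filter, mem_Ico] at hc
    rw [mem_union, mem_union]
    have hcI : c ∈ I n := by
      unfold I; rw [mem_Ico]; omega
    have hcgI : c + g ∈ I n := by
      unfold I; rw [mem_Ico]; omega
    by_cases hb1 : BadP y c
    · right; left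
      rw [mem_filter]
      exact ⟨hcI, hb1⟩
    · by_cases hb2 : BadP y (c + g)
      · right; right
        rw [mem_filter, mem_filter, mem_Ico]
        exact ⟨hc.1, hcgI, hb2⟩
      · left
        unfold AA
        rw [mem_filter]
        refine ⟨hcI, fun h hh => ?_⟩
        rw [mem_insert, mem_singleton] at hh
        have hgood := hc.2
        unfold good at hgood
        rcases hh with rfl | rfl
        · refine ⟨by omega, cyc_of_good (by omega) ?_ (by simpa using hb1)⟩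
          intro p hp hpy
          exact hgood p hp hpy 0 (by simp)
        · refine ⟨by omega, cyc_of_good (by omega) ?_ hb2⟩
          intro p hp hpy
          exact hgood p hp hpy h (by simp)
  have h4 := (card_le_card hsub).trans ((card_union_le _ _).trans
    (Nat.add_le_add_left (card_union_le _ _) _))
  have h5 : ((Ico (n ^ 3 + 1) (n ^ 3 + 1 + L)).filter
      (fun c => c + g ∈ (I n).filter (BadP y))).card ≤ ((I n).filter (BadP y)).card := by
    refine card_le_card_of_injOn (fun c => c + g) ?_ ?_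
    · intro c hc
      rw [mem_coe, mem_filter] at hc
      exact hc.2
    · intro a _ b _ hab
      simp only at hab
      omega
  have h6 : (((Ico (n ^ 3 + 1) (n ^ 3 + 1 + L)).filter (good y {0, g})).card : ℝ) ≤
      ((AA {0, g} n).card : ℝ) + (((I n).filter (BadP y)).card + ((I n).filter (BadP y)).card) := by
    have h7 := h4.trans (Nat.add_le_add_left (Nat.add_le_add_left h5 _) _)
    exact_mod_cast h7
  linarith

lemma TT_subset {g n : ℕ} : TT g n ⊆ AA {0, g} n := by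
  classical
  intro c hc
  unfold TT at hc
  rw [mem_filter] at hc
  unfold AA
  rw [mem_filter]
  refine ⟨hc.1, fun h hh => ?_⟩
  rw [mem_insert, mem_singleton] at hh
  rcases hh with rfl | rfl
  · exact ⟨by omega, hc.2.2.1⟩
  · exact ⟨hc.2.1, hc.2.2.2.1⟩

lemma AA_subset {g n : ℕ} (hn : 2 ≤ n) : AA {0, g} n ⊆ TT g n ∪
    ((range g).filter (fun h => 0 < h)).biUnion (fun h => AA {0, h, g} n) := by
  classical
  intro c hc
  have hc' := hc
  unfold AA at hc
  rw [mem_filter] at hc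
  rw [mem_union]
  by_cases hex : ∀ d, c < d → d < c + g → ¬ Cyc d
  · left
    unfold TT
    rw [mem_filter]
    have h1 := hc.2 0 (by simp)
    have h2 := hc.2 g (by simp)
    exact ⟨hc.1, h2.1, h1.2, h2.2, hex⟩
  · right
    push Not at hex
    obtain ⟨d, hd1, hd2, hd3⟩ := hex
    rw [mem_biUnion]
    refine ⟨d - c, ?_, ?_⟩
    · rw [mem_filter, mem_range]; omega
    · unfold AA
      rw [mem_filter]
      refine ⟨hc.1, fun h hh => ?_⟩
      simp only [mem_insert, mem_singleton] at hh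
      rcases hh with rfl | rfl | rfl
      · exact hc.2 0 (by simp)
      · have h2 := hc.2 g (by simp)
        have : c + (d - c) = d := by omega
        rw [this]
        exact ⟨by omega, hd3⟩
      · exact hc.2 h (by simp)

lemma AA_odd_empty {g h n : ℕ} (hn : 2 ≤ n) (hh : ¬ 2 ∣ h) : AA {0, h, g} n = ∅ := by
  classical
  rw [eq_empty_iff_forall_notMem]
  intro c hc
  unfold AA at hc
  rw [mem_filter] at hc
  have h1 := hc.2 0 (by simp)
  have h2 := hc.2 h (by simp)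
  have hcI := hc.1
  unfold I at hcI
  rw [mem_Ico] at hcI
  have h8 : 2 ^ 3 ≤ n ^ 3 := Nat.pow_le_pow_left hn 3
  have h3 := h1.2.odd (by omega)
  have h4 := h2.2.odd (by omega)
  omega

end Pool.Agent.V11299.Cyc
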