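import Mathlib
import Pool.Agent.V11299.Cyc.Main1

set_option autoImplicit false

open Finset Filter Topology

namespace Pool.Agent.V11299.Cyc

noncomputable def Y0 (x : ℝ) : ℕ := ⌊x⌋₊
noncomputable def Y1 (x : ℝ) : ℕ := ⌊x / Real.log x ^ 5⌋₊
noncomputable def Y2 (x : ℝ) : ℕ := ⌊2 * (x * Real.log x ^ 5)⌋₊

lemma tendsto_log_floor {u : ℝ → ℝ} (hu : Tendsto u atTop atTop)
    (h : Tendsto (fun x => Real.log (u x) / Real.log x) atTop (𝓝 1)) :
    Tendsto (fun x => Real.log ((⌊u x⌋₊ : ℕ) : ℝ) / Real.log x) atTop (𝓝 1) := by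
  have h1 : Tendsto (fun x => ((⌊u x⌋₊ : ℕ) : ℝ) / u x) atTop (𝓝 1) :=
    tendsto_nat_floor_div_atTop.comp hu
  have h2 : Tendsto (fun x => Real.log (((⌊u x⌋₊ : ℕ) : ℝ) / u x)) atTop (𝓝 0) := by
    have := (Real.continuousAt_log (by norm_num : (1 : ℝ) ≠ 0)).tendsto.comp h1
    rwa [Real.log_one] at this
  have h3 : Tendsto (fun x => Real.log (((⌊u x⌋₊ : ℕ) : ℝ) / u x) / Real.log x) atTop (𝓝 0) :=
    h2.div_atTop Real.tendsto_log_atTop
  have h4 := h.add h3
  rw [add_zero] at h4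
  refine h4.congr' ?_
  filter_upwards [hu.eventually_ge_atTop 1] with x hx
  have h5 : 1 ≤ ⌊u x⌋₊ := Nat.le_floor (by exact_mod_cast hx)
  have h6 : (0 : ℝ) < ((⌊u x⌋₊ : ℕ) : ℝ) := by exact_mod_cast h5
  rw [Real.log_div h6.ne' (by linarith)]
  rw [← add_div]
  congr 1
  ring

lemma tendsto_loglog_div_log : Tendsto (fun x : ℝ => Real.log (Real.log x) / Real.log x) atTop (𝓝 0) := by
  have h1 : Tendsto (fun x : ℝ => Real.log x / x) atTop (𝓝 0) := by
    have := Real.isLittleO_log_id_atTop.tendsto_div_nhds_zero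
    simpa using this
  exact h1.comp Real.tendsto_log_atTop

lemma logY0 : Tendsto (fun x => Real.log (Y0 x : ℝ) / Real.log x) atTop (𝓝 1) := by
  apply tendsto_log_floor tendsto_id
  have : ∀ᶠ x : ℝ in atTop, (1 : ℝ) = Real.log (id x) / Real.log x := by
    filter_upwards [eventually_gt_atTop 1] with x hx
    have := Real.log_pos hx
    rw [id, div_self this.ne']
  exact tendsto_const_nhds.congr' this

lemma tendsto_u1 : Tendsto (fun x : ℝ => x / Real.log x ^ 5) atTop atTop := by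
  have h1 : (fun x : ℝ => Real.log x ^ 5) =o[atTop] (fun x : ℝ => x) :=
    Real.isLittleO_pow_log_id_atTop
  have h2 := h1.tendsto_div_nhds_zero
  have h3 : Tendsto (fun x : ℝ => (Real.log x ^ 5 / x)⁻¹) atTop atTop := by
    apply Tendsto.inv_tendsto_nhdsGT_zero
    rw [tendsto_nhdsWithin_iff]
    refine ⟨h2, ?_⟩
    filter_upwards [eventually_gt_atTop 1] with x hx
    have := Real.log_pos hx
    exact Set.mem_Ioi.mpr (by positivity)
  refine h3.congr fun x => ?_
  rw [inv_div]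

lemma logY1 : Tendsto (fun x => Real.log (Y1 x : ℝ) / Real.log x) atTop (𝓝 1) := by
  apply tendsto_log_floor tendsto_u1
  have h1 : Tendsto (fun x : ℝ => 1 - 5 * (Real.log (Real.log x) / Real.log x)) atTop (𝓝 1) := by
    have := (tendsto_loglog_div_log.const_mul 5).const_sub 1
    simpa using this
  refine h1.congr' ?_
  filter_upwards [eventually_gt_atTop 1] with x hx
  have hl := Real.log_pos hx
  rw [Real.log_div (by linarith) (by positivity), Real.log_pow]
  push_cast
  field_simp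

lemma tendsto_u2 : Tendsto (fun x : ℝ => 2 * (x * Real.log x ^ 5)) atTop atTop := by
  have h1 : Tendsto (fun x : ℝ => x * Real.log x ^ 5) atTop atTop := by
    apply tendsto_id.atTop_mul_atTop₀
    exact (tendsto_pow_atTop (by norm_num)).comp Real.tendsto_log_atTop
  exact h1.const_mul_atTop (by norm_num)

lemma logY2 : Tendsto (fun x => Real.log (Y2 x : ℝ) / Real.log x) atTop (𝓝 1) := by
  apply tendsto_log_floor tendsto_u2
  have h0 : Tendsto (fun x : ℝ => Real.log 2 / Real.log x) atTop (𝓝 0) :=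
    tendsto_const_nhds.div_atTop Real.tendsto_log_atTop
  have h1 : Tendsto (fun x : ℝ => Real.log 2 / Real.log x +
      (1 + 5 * (Real.log (Real.log x) / Real.log x))) atTop (𝓝 1) := by
    have := h0.add ((tendsto_loglog_div_log.const_mul 5).const_add 1)
    simpa using this
  refine h1.congr' ?_
  filter_upwards [eventually_gt_atTop 1] with x hx
  have hl := Real.log_pos hx
  rw [Real.log_mul (by norm_num) (by positivity), Real.log_mul (by linarith) (by positivity),
    Real.log_pow]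
  push_cast
  field_simp

lemma tendsto_Y1 : Tendsto Y1 atTop atTop := tendsto_nat_floor_atTop.comp tendsto_u1

lemma tendsto_Y0 : Tendsto Y0 atTop atTop := tendsto_nat_floor_atTop

lemma Y1_le_Y0 : ∀ᶠ x : ℝ in atTop, Y1 x ≤ Y0 x := by
  have h : ∀ᶠ x : ℝ in atTop, (1 : ℝ) ≤ Real.log x := Real.tendsto_log_atTop.eventually_ge_atTop 1
  filter_upwards [h, eventually_ge_atTop 0] with x hx hx0
  unfold Y1 Y0
  apply Nat.floor_le_floor
  apply div_le_self hx0
  exact one_le_pow₀ hx

lemma Y0_le_Y2 : ∀ᶠ x : ℝ in atTop, Y0 x ≤ Y2 x := by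
  have h : ∀ᶠ x : ℝ in atTop, (1 : ℝ) ≤ Real.log x := Real.tendsto_log_atTop.eventually_ge_atTop 1
  filter_upwards [h, eventually_ge_atTop 0] with x hx hx0
  unfold Y0 Y2
  apply Nat.floor_le_floor
  have : 1 ≤ Real.log x ^ 5 := one_le_pow₀ hx
  nlinarith

lemma dens_ratio_tendsto {s : Finset ℕ} (hpos : ∀ y, 0 < dens s y) {a b : ℝ → ℕ}
    (ha : Tendsto a atTop atTop) (hab : ∀ᶠ x in atTop, a x ≤ b x)
    (hla : Tendsto (fun x => Real.log (a x : ℝ) / Real.log x) atTop (𝓝 1))
    (hlb : Tendsto (fun x => Real.log (b x : ℝ) / Real.log x) atTop (𝓝 1)) :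
    Tendsto (fun x => dens s (b x) / dens s (a x)) atTop (𝓝 1) := by
  obtain ⟨C, hC0, hC⟩ := mert
  have h1 : Tendsto (fun x => Real.log (b x : ℝ) / Real.log (a x : ℝ)) atTop (𝓝 1) := by
    have h2 := hlb.div hla (by norm_num)
    rw [div_one] at h2
    refine h2.congr' ?_
    filter_upwards [eventually_gt_atTop 1] with x hx
    have := Real.log_pos hx
    simp only [Pi.div_apply]
    field_simp
  have h2 : Tendsto (fun x => Real.log (Real.log (b x : ℝ) / Real.log (a x : ℝ))) atTop (𝓝 0) := by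
    have := (Real.continuousAt_log (by norm_num : (1 : ℝ) ≠ 0)).tendsto.comp h1
    rwa [Real.log_one] at this
  have h3 : Tendsto (fun x => C / Real.log (a x : ℝ)) atTop (𝓝 0) :=
    tendsto_const_nhds.div_atTop (Real.tendsto_log_atTop.comp
      ((tendsto_natCast_atTop_atTop (R := ℝ)).comp ha))
  have h4 : Tendsto (fun x => 1 - (s.card : ℝ) * (Real.log (Real.log (b x : ℝ) / Real.log (a x : ℝ)) +
      C / Real.log (a x : ℝ))) atTop (𝓝 1) := by
    have := ((h2.add h3).const_mul (s.card : ℝ)).const_sub 1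
    simpa using this
  refine tendsto_of_tendsto_of_tendsto_of_le_of_le' h4 tendsto_const_nhds ?_ ?_
  · filter_upwards [hab, ha.eventually_ge_atTop 2] with x hx1 hx2
    rw [le_div_iff₀ (hpos _)]
    have h5 := dens_lower_ratio (s := s) hx1
    have h6 := (abs_le.mp (hC _ _ hx2 hx1)).2
    refine le_trans ?_ h5
    rw [mul_comm]
    refine mul_le_mul_of_nonneg_left ?_ (hpos _).le
    have h7 : (0 : ℝ) ≤ s.card := Nat.cast_nonneg _
    nlinarith
  · filter_upwards [hab] with x hx1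
    rw [div_le_one (hpos _)]
    exact dens_anti hx1

/-- facts relating `n`, `x = log log n` and `w = log x` -/
lemma facts : ∀ᶠ n : ℕ in atTop, ∃ x w : ℝ, x = Real.log (Real.log n) ∧ w = Real.log x ∧
    10 ≤ w ∧ w ^ 5 ≤ x ∧ x ≤ Real.log n ∧ 3 * Real.log n ≤ n ∧ 10 ≤ n ∧ 0 < x ∧
    (4 : ℝ) ^ (Y2 x) ≤ n := by
  have hl : Tendsto (fun n : ℕ => Real.log (n : ℝ)) atTop atTop :=
    Real.tendsto_log_atTop.comp (tendsto_natCast_atTop_atTop (R := ℝ))
  have hll : Tendsto (fun n : ℕ => Real.log (Real.log n)) atTop atTop :=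
    Real.tendsto_log_atTop.comp hl
  have e1 : ∀ᶠ x : ℝ in atTop, 10 ≤ Real.log x := Real.tendsto_log_atTop.eventually_ge_atTop 10
  have e2 : ∀ᶠ x : ℝ in atTop, Real.log x ^ 5 ≤ x := by
    have h1 : (fun x : ℝ => Real.log x ^ 5) =o[atTop] (fun x : ℝ => x) := Real.isLittleO_pow_log_id_atTop
    have h2 := h1.def (c := 1) one_pos
    filter_upwards [h2, eventually_ge_atTop 0] with x hx hx0
    rw [one_mul, Real.norm_of_nonneg hx0] at hx
    exact (le_abs_self _).trans hx
  have e3 : ∀ᶠ x : ℝ in atTop, 4 * x ^ 2 ≤ Real.exp x := by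
    have h1 := Real.tendsto_pow_mul_exp_neg_atTop_nhds_zero 2
    have h2 : ∀ᶠ x : ℝ in atTop, x ^ 2 * Real.exp (-x) < 1 / 4 := h1.eventually_lt_const (by norm_num)
    filter_upwards [h2] with x hx
    rw [Real.exp_neg, ← div_eq_mul_inv, div_lt_div_iff₀ (Real.exp_pos _) (by norm_num)] at hx
    linarith
  have e4 : ∀ᶠ n : ℕ in atTop, 3 * Real.log n ≤ n := by
    have h1 : ∀ᶠ x : ℝ in atTop, ‖Real.log x‖ ≤ 1 / 3 * ‖x‖ :=
      Real.isLittleO_log_id_atTop.def (by norm_num)
    have h2 := (tendsto_natCast_atTop_atTop (R := ℝ)).eventually h1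
    filter_upwards [h2] with n hn
    have h3 := (le_abs_self _).trans hn
    rw [Real.norm_of_nonneg (Nat.cast_nonneg n)] at h3
    linarith
  filter_upwards [hll.eventually e1, hll.eventually e2, hll.eventually e3, e4,
    eventually_ge_atTop 10, hll.eventually_gt_atTop 0, hl.eventually_gt_atTop 0] with n h1 h2 h3 h4 h5 h6 h7
  refine ⟨Real.log (Real.log n), Real.log (Real.log (Real.log n)), rfl, rfl, h1, h2, ?_, h4,
    by exact_mod_cast h5, h6, ?_⟩
  · exact (Real.log_le_sub_one_of_pos h7).trans (by linarith)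
  · obtain ⟨x, hx⟩ : ∃ x, x = Real.log (Real.log n) := ⟨_, rfl⟩
    rw [← hx] at h1 h2 h3 h6 ⊢
    have hn0 : (0 : ℝ) < n := by exact_mod_cast (by omega : 0 < n)
    have h8 : ((Y2 x : ℕ) : ℝ) ≤ 2 * (x * Real.log x ^ 5) := Nat.floor_le (by positivity)
    have h9 : ((Y2 x : ℕ) : ℝ) ≤ 2 * x ^ 2 := by
      refine h8.trans ?_
      nlinarith
    have h10 : Real.exp x = Real.log n := by rw [hx, Real.exp_log h7]
    rw [← Real.exp_log (show (0 : ℝ) < 4 ^ (Y2 x) by positivity), Real.log_pow,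
      ← Real.le_log_iff_exp_le hn0]
    have h11 : Real.log 4 ≤ 2 := by
      have : (4 : ℝ) = 2 ^ 2 := by norm_num
      rw [this, Real.log_pow]
      have := Real.log_two_lt_d9
      push_cast; linarith
    have h12 : 0 < Real.log 4 := Real.log_pos (by norm_num)
    have h13 : ((Y2 x : ℕ) : ℝ) * Real.log 4 ≤ 2 * x ^ 2 * 2 := by
      apply mul_le_mul h9 h11 h12.le (by positivity)
    rw [← h10]
    linarith

end Pool.Agent.V11299.Cyc
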