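import Mathlib
import Pool.Agent.V11299.Cyc.Main2

set_option autoImplicit false

open Finset Filter Topology

namespace Pool.Agent.V11299.Cyc

lemma dens_le_one (s : Finset ℕ) (y : ℕ) : dens s y ≤ 1 := by
  have := dens_anti (s := s) (Nat.zero_le y)
  have h0 : dens s 0 = 1 := by simp [dens]
  linarith

/-- upper bound for all sets of at most 3 shifts -/
lemma upper_gen : ∀ᶠ n : ℕ in atTop, ∀ s : Finset ℕ, s.card ≤ 3 →
    ((AA s n).card : ℝ) ≤ 3 * (n : ℝ) ^ 2 * dens s (Y1 (Real.log (Real.log n))) +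
      304 * (n ^ 2 / Real.log (Real.log (Real.log n)) ^ 5) := by
  classical
  obtain ⟨n0, h0⟩ := card_cyc_small
  have hll : Tendsto (fun n : ℕ => Real.log (Real.log n)) atTop atTop :=
    Real.tendsto_log_atTop.comp
      (Real.tendsto_log_atTop.comp (tendsto_natCast_atTop_atTop (R := ℝ)))
  filter_upwards [facts, eventually_ge_atTop n0, hll.eventually Y1_le_Y0,
    hll.eventually Y0_le_Y2] with n hf hn0 hY1 hY2 s hs
  obtain ⟨x, w, hx, hw, hw10, hwx, hxl, hln, hn10, hx0, h4⟩ := hf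
  rw [← hx, ← hw]
  rw [← hx] at hY1 hY2
  have hnR : (10 : ℝ) ≤ n := by exact_mod_cast hn10
  have hw0 : 0 < w := by linarith
  have hw5 : (10 : ℝ) ≤ w ^ 5 := by
    have : w ^ 1 ≤ w ^ 5 := pow_le_pow_right₀ (by linarith) (by norm_num)
    linarith
  obtain ⟨e, he⟩ : ∃ e : ℝ, e = (n : ℝ) ^ 2 / w ^ 5 := ⟨_, rfl⟩
  rw [← he]
  have hne : (n : ℝ) ≤ e := by
    rw [he, le_div_iff₀ (by positivity)]
    nlinarith
  have hy1 : ((Y1 x : ℕ) : ℝ) ≤ x / w ^ 5 := by
    rw [hw]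
    unfold Y1
    exact Nat.floor_le (by rw [← hw]; positivity)
  have hE0 : 0 ≤ 100 * (n : ℝ) ^ 2 / x := by positivity
  have h1 := card_AA_le s (Y1 x) n hE0 (by
    intro p hp hpy
    have h8 : 8 * (p : ℝ) ≤ Real.log (Real.log n) := by
      rw [← hx]
      have h9 : (p : ℝ) ≤ x / w ^ 5 := le_trans (by exact_mod_cast hpy) hy1
      have h10 : x / w ^ 5 ≤ x / 10 := by gcongr
      linarith
    have h9 := h0 n hn0 p hp h8
    rw [← hx] at h9
    exact h9)
  have h2 : (3 * (n : ℝ) ^ 2 + 3 * n) * dens s (Y1 x) ≤ 3 * (n : ℝ) ^ 2 * dens s (Y1 x) + 3 * e := by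
    have := dens_le_one s (Y1 x)
    have := dens_nonneg s (Y1 x)
    nlinarith
  have h3 : (4 : ℝ) ^ (Y1 x) ≤ e := by
    have : (4 : ℝ) ^ (Y1 x) ≤ 4 ^ (Y2 x) := pow_le_pow_right₀ (by norm_num) (hY1.trans hY2)
    linarith
  have h5 : (s.card : ℝ) * (Y1 x : ℕ) * (100 * (n : ℝ) ^ 2 / x) ≤ 300 * e := by
    have h6 : (s.card : ℝ) ≤ 3 := by exact_mod_cast hs
    calc (s.card : ℝ) * (Y1 x : ℕ) * (100 * (n : ℝ) ^ 2 / x)
        ≤ 3 * (x / w ^ 5) * (100 * (n : ℝ) ^ 2 / x) := by gcongr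
      _ = 300 * e := by rw [he]; field_simp; ring
  linarith

/-- lower bound for pairs -/
lemma lower_gen : ∃ C : ℝ, 0 ≤ C ∧ ∀ᶠ n : ℕ in atTop, ∀ g : ℕ, g ≤ 6 →
    3 * (n : ℝ) ^ 2 * dens {0, g} (Y2 (Real.log (Real.log n))) -
      C * (n ^ 2 / Real.log (Real.log (Real.log n)) ^ 5) ≤ ((AA {0, g} n).card : ℝ) := by
  classical
  obtain ⟨C, hC1, n0, h0⟩ := card_bad
  refine ⟨1 + 6 * C, by linarith, ?_⟩
  filter_upwards [facts, eventually_ge_atTop n0] with n hf hn0 g hg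
  obtain ⟨x, w, hx, hw, hw10, hwx, hxl, hln, hn10, hx0, h4⟩ := hf
  have hlogn : 0 < Real.log n := by linarith
  rw [← hx, ← hw]
  have hnR : (10 : ℝ) ≤ n := by exact_mod_cast hn10
  have hw0 : 0 < w := by linarith
  have hw5 : (10 : ℝ) ≤ w ^ 5 := by
    have : w ^ 1 ≤ w ^ 5 := pow_le_pow_right₀ (by linarith) (by norm_num)
    linarith
  obtain ⟨e, he⟩ : ∃ e : ℝ, e = (n : ℝ) ^ 2 / w ^ 5 := ⟨_, rfl⟩
  rw [← he]
  have hne : (n : ℝ) ≤ e := by
    rw [he, le_div_iff₀ (by positivity)]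
    nlinarith
  have hy2 : x * w ^ 5 ≤ ((Y2 x : ℕ) : ℝ) := by
    unfold Y2
    rw [← hw]
    have h1 := Nat.lt_floor_add_one (2 * (x * w ^ 5))
    have h2 : 1 ≤ x * w ^ 5 := by nlinarith
    linarith
  have hy21 : 1 ≤ Y2 x := by
    have : (1 : ℝ) ≤ ((Y2 x : ℕ) : ℝ) := by
      refine le_trans ?_ hy2
      nlinarith
    exact_mod_cast this
  have h1 := h0 n hn0 (Y2 x) hy21
  rw [← hx] at h1
  have hg2 : g ≤ 3 * n ^ 2 + 3 * n := by nlinarith
  have h2 := card_AA_ge (g := g) (y := Y2 x) (n := n) hg2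
  have h3 : C * (n : ℝ) ^ 2 * (1 + x) / ((Y2 x : ℕ) : ℝ) ≤ 2 * C * e := by
    have hC0 : 0 ≤ C := by linarith
    calc C * (n : ℝ) ^ 2 * (1 + x) / ((Y2 x : ℕ) : ℝ) ≤ C * (n : ℝ) ^ 2 * (2 * x) / (x * w ^ 5) := by
          have : 1 + x ≤ 2 * x := by linarith
          gcongr
      _ = 2 * C * e := by rw [he]; field_simp
  have h5 : C * (n : ℝ) ^ 2 / Real.log n ≤ C * e := by
    have hC0 : 0 ≤ C := by linarith
    rw [he, ← mul_div_assoc]
    have : w ^ 5 ≤ Real.log n := hwx.trans hxl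
    gcongr
  have h6 : 3 * (n : ℝ) ^ 2 * dens {0, g} (Y2 x) ≤ (3 * (n : ℝ) ^ 2 + 3 * n - g) * dens {0, g} (Y2 x) := by
    have h7 : (g : ℝ) ≤ 6 := by exact_mod_cast hg
    have := dens_nonneg {0, g} (Y2 x)
    nlinarith
  linarith

theorem main_asymp {g : ℕ} (hg : 2 ∣ g) (hg0 : 0 < g) (hg6 : g ≤ 6) :
    Tendsto (fun n : ℕ => ((TT g n).card : ℝ) /
      (3 * (n : ℝ) ^ 2 * dens {0, g} (Y0 (Real.log (Real.log n))))) atTop (𝓝 1) := by
  classical
  have hll : Tendsto (fun n : ℕ => Real.log (Real.log n)) atTop atTop :=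
    Real.tendsto_log_atTop.comp
      (Real.tendsto_log_atTop.comp (tendsto_natCast_atTop_atTop (R := ℝ)))
  obtain ⟨C, hC0, hlow⟩ := lower_gen
  obtain ⟨K, hK0, hK⟩ := dens_triple hg hg6
  obtain ⟨c, hc0, hc⟩ := dens_pair_lower hg
  have hpos := dens_pair_pos hg
  -- ratio limits
  have hr1 : Tendsto (fun x => dens {0, g} (Y1 x) / dens {0, g} (Y0 x)) atTop (𝓝 1) := by
    have h1 := dens_ratio_tendsto hpos tendsto_Y1 Y1_le_Y0 logY1 logY0
    have h2 := h1.inv₀ (by norm_num)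
    rw [inv_one] at h2
    refine h2.congr fun x => ?_
    rw [inv_div]
  have hr2 : Tendsto (fun x => dens {0, g} (Y2 x) / dens {0, g} (Y0 x)) atTop (𝓝 1) :=
    dens_ratio_tendsto hpos tendsto_Y0 Y0_le_Y2 logY0 logY2
  have he : Tendsto (fun x : ℝ => 1 / (Real.log x ^ 5 * dens {0, g} (Y0 x))) atTop (𝓝 0) := by
    have h1 : Tendsto (fun x : ℝ => (1 / c) * (1 / Real.log x ^ 2)) atTop (𝓝 0) := by
      have h2 : Tendsto (fun x : ℝ => Real.log x ^ 2) atTop atTop :=
        (tendsto_pow_atTop (by norm_num)).comp Real.tendsto_log_atTop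
      have h3 : Tendsto (fun x : ℝ => 1 / Real.log x ^ 2) atTop (𝓝 0) :=
        tendsto_const_nhds.div_atTop h2
      have := h3.const_mul (1 / c)
      simpa using this
    refine tendsto_of_tendsto_of_tendsto_of_le_of_le' tendsto_const_nhds h1 ?_ ?_
    · filter_upwards [eventually_gt_atTop 1] with x hx
      have := Real.log_pos hx
      have := hpos (Y0 x)
      positivity
    · filter_upwards [eventually_gt_atTop 1, tendsto_Y0.eventually_ge_atTop 6] with x hx hY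
      have hlx := Real.log_pos hx
      have h2 := hc _ hY
      have hY6 : (6 : ℝ) ≤ Y0 x := by exact_mod_cast hY
      have h3 : Real.log (Y0 x : ℝ) ≤ Real.log x := by
        apply Real.log_le_log (by linarith)
        exact Nat.floor_le (by linarith)
      have h4 : 0 < Real.log (Y0 x : ℝ) := Real.log_pos (by linarith)
      have h5 : c / Real.log x ^ 3 ≤ dens {0, g} (Y0 x) := by
        refine le_trans ?_ h2
        gcongr
      have h6 : 0 < c / Real.log x ^ 3 := by positivity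
      calc 1 / (Real.log x ^ 5 * dens {0, g} (Y0 x)) ≤ 1 / (Real.log x ^ 5 * (c / Real.log x ^ 3)) := by
            gcongr
        _ = (1 / c) * (1 / Real.log x ^ 2) := by field_simp
  have hlogY1 : Tendsto (fun x => 1 / Real.log (Y1 x : ℝ)) atTop (𝓝 0) :=
    tendsto_const_nhds.div_atTop (Real.tendsto_log_atTop.comp
      ((tendsto_natCast_atTop_atTop (R := ℝ)).comp tendsto_Y1))
  -- upper and lower functions
  have hU : Tendsto (fun x : ℝ => dens {0, g} (Y1 x) / dens {0, g} (Y0 x) +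
      304 / 3 * (1 / (Real.log x ^ 5 * dens {0, g} (Y0 x)))) atTop (𝓝 1) := by
    have := hr1.add (he.const_mul (304 / 3))
    simpa using this
  have hL : Tendsto (fun x : ℝ => dens {0, g} (Y2 x) / dens {0, g} (Y0 x) -
      (C + 6 * 304) / 3 * (1 / (Real.log x ^ 5 * dens {0, g} (Y0 x))) -
      6 * K * (dens {0, g} (Y1 x) / dens {0, g} (Y0 x) * (1 / Real.log (Y1 x : ℝ)))) atTop (𝓝 1) := by
    have := (hr2.sub (he.const_mul ((C + 6 * 304) / 3))).sub ((hr1.mul hlogY1).const_mul (6 * K))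
    simpa using this
  refine tendsto_of_tendsto_of_tendsto_of_le_of_le' (hL.comp hll) (hU.comp hll) ?_ ?_
  · filter_upwards [facts, upper_gen, hlow, hll.eventually (tendsto_Y1.eventually_ge_atTop 6)]
      with n hf hup hlo hY6
    obtain ⟨x, w, hx, hw, hw10, hwx, hxl, hln, hn10, hx0, h4⟩ := hf
    simp only [Function.comp]
    rw [← hx] at hup hlo hY6 ⊢
    rw [← hw] at hup hlo ⊢
    have hnR : (10 : ℝ) ≤ n := by exact_mod_cast hn10
    have hD0 := hpos (Y0 x)
    have hw0 : 0 < w := by linarith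
    have hsub := AA_subset (g := g) (n := n) (by omega)
    have h1 := (card_le_card hsub).trans ((card_union_le _ _).trans
      (Nat.add_le_add_left card_biUnion_le _))
    have h2 : ((AA {0, g} n).card : ℝ) ≤ ((TT g n).card : ℝ) +
        ∑ h ∈ (range g).filter (fun h => 0 < h), ((AA {0, h, g} n).card : ℝ) := by
      exact_mod_cast h1
    have hl1 : 0 < Real.log (Y1 x : ℝ) := by
      apply Real.log_pos
      have : (6 : ℝ) ≤ (Y1 x : ℕ) := by exact_mod_cast hY6
      linarith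
    have hD1 := hpos (Y1 x)
    obtain ⟨e, hee⟩ : ∃ e : ℝ, e = (n : ℝ) ^ 2 / w ^ 5 := ⟨_, rfl⟩
    rw [← hee] at hup hlo
    have he0 : 0 ≤ e := by rw [hee]; positivity
    have h3 : ∀ h ∈ (range g).filter (fun h => 0 < h), ((AA {0, h, g} n).card : ℝ) ≤
        3 * (n : ℝ) ^ 2 * (K * dens {0, g} (Y1 x) / Real.log (Y1 x : ℝ)) + 304 * e := by
      intro h hh
      rw [mem_filter, mem_range] at hh
      have h5 := hup {0, h, g} card_le_three
      have h6 := hK h hh.2 hh.1 (Y1 x) hY6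
      have h7 : 0 ≤ 3 * (n : ℝ) ^ 2 := by positivity
      have h8 := mul_le_mul_of_nonneg_left h6 h7
      linarith
    have h5 := sum_le_card_nsmul _ _ _ h3
    rw [nsmul_eq_mul] at h5
    have h6 : (((range g).filter (fun h => 0 < h)).card : ℝ) ≤ 6 := by
      have : ((range g).filter (fun h => 0 < h)).card ≤ g := by
        refine (card_filter_le _ _).trans ?_
        rw [card_range]
      exact_mod_cast this.trans hg6
    have h7 : 0 ≤ 3 * (n : ℝ) ^ 2 * (K * dens {0, g} (Y1 x) / Real.log (Y1 x : ℝ)) + 304 * e := by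
      positivity
    have h8 := h5.trans (mul_le_mul_of_nonneg_right h6 h7)
    have h9 := hlo g hg6
    rw [le_div_iff₀ (by positivity)]
    have h10 : (dens {0, g} (Y2 x) / dens {0, g} (Y0 x) -
        (C + 6 * 304) / 3 * (1 / (w ^ 5 * dens {0, g} (Y0 x))) -
        6 * K * (dens {0, g} (Y1 x) / dens {0, g} (Y0 x) * (1 / Real.log (Y1 x : ℝ)))) *
        (3 * (n : ℝ) ^ 2 * dens {0, g} (Y0 x)) =
        3 * (n : ℝ) ^ 2 * dens {0, g} (Y2 x) - (C + 6 * 304) * e -
        6 * (3 * (n : ℝ) ^ 2 * (K * dens {0, g} (Y1 x) / Real.log (Y1 x : ℝ))) := by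
      rw [hee]
      field_simp
    rw [h10]
    linarith
  · filter_upwards [facts, upper_gen] with n hf hup
    obtain ⟨x, w, hx, hw, hw10, hwx, hxl, hln, hn10, hx0, h4⟩ := hf
    simp only [Function.comp]
    rw [← hx] at hup ⊢
    rw [← hw] at hup ⊢
    have hnR : (10 : ℝ) ≤ n := by exact_mod_cast hn10
    have hw0 : 0 < w := by linarith
    have hD0 := hpos (Y0 x)
    have h1 := hup {0, g} (card_le_two.trans (by norm_num))
    have h2 : ((TT g n).card : ℝ) ≤ ((AA {0, g} n).card : ℝ) := by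
      exact_mod_cast card_le_card TT_subset
    rw [div_le_iff₀ (by positivity)]
    have h10 : (dens {0, g} (Y1 x) / dens {0, g} (Y0 x) +
        304 / 3 * (1 / (w ^ 5 * dens {0, g} (Y0 x)))) *
        (3 * (n : ℝ) ^ 2 * dens {0, g} (Y0 x)) =
        3 * (n : ℝ) ^ 2 * dens {0, g} (Y1 x) + 304 * ((n : ℝ) ^ 2 / w ^ 5) := by
      field_simp
    rw [h10]
    linarith

end Pool.Agent.V11299.Cyc
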