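import Mathlib
import Pool.Agent.V11299.Cyc.Main3

set_option autoImplicit false

open Finset Filter Topology

namespace Pool.Agent.V11299.Cyc

/-! ### regular variation -/

lemma floor_near {x x' : ℝ} (hx : 0 ≤ x) (hx' : 0 ≤ x') (h : |x' - x| < 1) :
    Y0 x' ≤ Y0 x + 1 ∧ Y0 x ≤ Y0 x' + 1 := by
  rw [abs_lt] at h
  unfold Y0
  constructor
  · have h1 : ⌊x'⌋₊ ≤ ⌊x + 1⌋₊ := Nat.floor_le_floor (by linarith)
    rwa [Nat.floor_add_one hx] at h1
  · have h1 : ⌊x⌋₊ ≤ ⌊x' + 1⌋₊ := Nat.floor_le_floor (by linarith)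
    rwa [Nat.floor_add_one hx'] at h1

lemma dens_near {g : ℕ} (hg : 2 ∣ g) {a b : ℕ → ℕ} (ha : Tendsto a atTop atTop)
    (hb : Tendsto b atTop atTop) (hab : ∀ᶠ n in atTop, b n ≤ a n + 1 ∧ a n ≤ b n + 1) :
    Tendsto (fun n => dens {0, g} (b n) / dens {0, g} (a n)) atTop (𝓝 1) := by
  have hpos := dens_pair_pos hg
  have h1 : ∀ {c : ℕ → ℕ}, Tendsto c atTop atTop →
      Tendsto (fun n => 1 - 2 / (((c n : ℕ) : ℝ) + 1)) atTop (𝓝 1) := by
    intro c hc
    have h2 : Tendsto (fun n => ((c n : ℕ) : ℝ) + 1) atTop atTop :=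
      tendsto_atTop_add_const_right _ _ ((tendsto_natCast_atTop_atTop (R := ℝ)).comp hc)
    have h3 : Tendsto (fun n => 2 / (((c n : ℕ) : ℝ) + 1)) atTop (𝓝 0) :=
      tendsto_const_nhds.div_atTop h2
    have := h3.const_sub 1
    simpa using this
  have hL := h1 ha
  have hU := (h1 hb).inv₀ (by norm_num)
  rw [inv_one] at hU
  refine tendsto_of_tendsto_of_tendsto_of_le_of_le' hL hU ?_ ?_
  · filter_upwards [hab, ha.eventually_ge_atTop 2] with n hn ha2
    have hda := hpos (a n)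
    have hdb := hpos (b n)
    rw [le_div_iff₀ hda]
    have hc : 0 ≤ 2 / (((a n : ℕ) : ℝ) + 1) := by positivity
    have hcase : b n ≤ a n ∨ b n = a n + 1 := by omega
    rcases hcase with h | h
    · have := dens_anti (s := {0, g}) h
      nlinarith
    · rw [h]
      have := dens_succ_lower (g := g) (y := a n)
      linarith
  · filter_upwards [hab, hb.eventually_ge_atTop 2] with n hn hb2
    have hda := hpos (a n)
    have hdb := hpos (b n)
    have hb2' : (2 : ℝ) ≤ b n := by exact_mod_cast hb2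
    have hc : 2 / (((b n : ℕ) : ℝ) + 1) < 1 := by
      rw [div_lt_one (by linarith)]; linarith
    have hc0 : 0 ≤ 2 / (((b n : ℕ) : ℝ) + 1) := by positivity
    rw [div_le_iff₀ hda, ← div_eq_inv_mul, le_div_iff₀ (by linarith)]
    have hcase : a n ≤ b n ∨ a n = b n + 1 := by omega
    rcases hcase with h | h
    · have := dens_anti (s := {0, g}) h
      nlinarith
    · rw [h]
      exact dens_succ_lower (g := g) (y := b n)

lemma tendsto_floor_atTop {t : ℝ} (ht : 0 < t) : Tendsto (fun n : ℕ => ⌊t * (n : ℝ)⌋₊) atTop atTop :=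
  tendsto_nat_floor_atTop.comp ((tendsto_natCast_atTop_atTop (R := ℝ)).const_mul_atTop ht)

lemma floor_ratio {t : ℝ} (ht : 0 < t) :
    Tendsto (fun n : ℕ => ((⌊t * (n : ℝ)⌋₊ : ℕ) : ℝ) / n) atTop (𝓝 t) :=
  (tendsto_nat_floor_mul_div_atTop ht.le).comp (tendsto_natCast_atTop_atTop (R := ℝ))

lemma loglog_diff {t : ℝ} (ht : 0 < t) :
    Tendsto (fun n : ℕ => Real.log (Real.log ((⌊t * (n : ℝ)⌋₊ : ℕ) : ℝ)) - Real.log (Real.log n))
      atTop (𝓝 0) := by
  have hl : Tendsto (fun n : ℕ => Real.log (n : ℝ)) atTop atTop :=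
    Real.tendsto_log_atTop.comp (tendsto_natCast_atTop_atTop (R := ℝ))
  have h1 : Tendsto (fun n : ℕ => Real.log (((⌊t * (n : ℝ)⌋₊ : ℕ) : ℝ) / n)) atTop
      (𝓝 (Real.log t)) := (Real.continuousAt_log ht.ne').tendsto.comp (floor_ratio ht)
  have h2 : Tendsto (fun n : ℕ => 1 + Real.log (((⌊t * (n : ℝ)⌋₊ : ℕ) : ℝ) / n) / Real.log n) atTop
      (𝓝 1) := by
    have := (h1.div_atTop hl).const_add 1
    simpa using this
  have h3 : Tendsto (fun n : ℕ => Real.log (1 + Real.log (((⌊t * (n : ℝ)⌋₊ : ℕ) : ℝ) / n) /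
      Real.log n)) atTop (𝓝 0) := by
    have := (Real.continuousAt_log (by norm_num : (1 : ℝ) ≠ 0)).tendsto.comp h2
    rwa [Real.log_one] at this
  refine h3.congr' ?_
  filter_upwards [hl.eventually_gt_atTop 0, (tendsto_floor_atTop ht).eventually_ge_atTop 2,
    eventually_ge_atTop 2] with n h4 h5 h6
  have h7 : (2 : ℝ) ≤ ((⌊t * (n : ℝ)⌋₊ : ℕ) : ℝ) := by exact_mod_cast h5
  have h8 : (2 : ℝ) ≤ n := by exact_mod_cast h6
  have h9 : 0 < Real.log ((⌊t * (n : ℝ)⌋₊ : ℕ) : ℝ) := Real.log_pos (by linarith)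
  rw [← Real.log_div h9.ne' h4.ne']
  congr 1
  rw [Real.log_div (by linarith) (by linarith)]
  field_simp
  ring

/-- the explicit comparison function -/
noncomputable def ff (g n : ℕ) : ℝ := 3 * (n : ℝ) ^ 2 * dens {0, g} (Y0 (Real.log (Real.log n)))

lemma ff_pos {g : ℕ} (hg : 2 ∣ g) {n : ℕ} (hn : 1 ≤ n) : 0 < ff g n := by
  unfold ff
  have h1 : (0 : ℝ) < n := by exact_mod_cast hn
  have := dens_pair_pos hg (Y0 (Real.log (Real.log n)))
  positivity

lemma ff_reg {g : ℕ} (hg : 2 ∣ g) {t : ℝ} (ht : 0 < t) :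
    Tendsto (fun n : ℕ => ff g ⌊t * (n : ℝ)⌋₊ / ff g n) atTop (𝓝 (t ^ (2 : ℝ))) := by
  have hll : Tendsto (fun n : ℕ => Real.log (Real.log n)) atTop atTop :=
    Real.tendsto_log_atTop.comp
      (Real.tendsto_log_atTop.comp (tendsto_natCast_atTop_atTop (R := ℝ)))
  have ha : Tendsto (fun n : ℕ => Y0 (Real.log (Real.log n))) atTop atTop := tendsto_Y0.comp hll
  have hb : Tendsto (fun n : ℕ => Y0 (Real.log (Real.log ((⌊t * (n : ℝ)⌋₊ : ℕ) : ℝ)))) atTop atTop :=
    ha.comp (tendsto_floor_atTop ht)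
  have hd := loglog_diff ht
  have hab : ∀ᶠ n : ℕ in atTop, Y0 (Real.log (Real.log ((⌊t * (n : ℝ)⌋₊ : ℕ) : ℝ))) ≤
      Y0 (Real.log (Real.log n)) + 1 ∧
      Y0 (Real.log (Real.log n)) ≤ Y0 (Real.log (Real.log ((⌊t * (n : ℝ)⌋₊ : ℕ) : ℝ))) + 1 := by
    have h1 : ∀ᶠ n : ℕ in atTop, |Real.log (Real.log ((⌊t * (n : ℝ)⌋₊ : ℕ) : ℝ)) -
        Real.log (Real.log n)| < 1 := by
      have := hd.abs
      rw [abs_zero] at this
      exact this.eventually_lt_const (by norm_num)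
    filter_upwards [h1, hll.eventually_ge_atTop 0,
      (hll.comp (tendsto_floor_atTop ht)).eventually_ge_atTop 0] with n h2 h3 h4
    exact floor_near h3 h4 h2
  have h1 := dens_near hg ha hb hab
  have h2 : Tendsto (fun n : ℕ => (((⌊t * (n : ℝ)⌋₊ : ℕ) : ℝ) / n) ^ 2) atTop (𝓝 (t ^ 2)) :=
    (floor_ratio ht).pow 2
  have h3 := h2.mul h1
  rw [mul_one] at h3
  have h4 : t ^ (2 : ℝ) = t ^ 2 := by
    rw [← Real.rpow_natCast]; norm_num
  rw [h4]
  refine h3.congr' ?_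
  filter_upwards [eventually_ge_atTop 1] with n hn
  have hn0 : (0 : ℝ) < n := by exact_mod_cast hn
  have := dens_pair_pos hg (Y0 (Real.log (Real.log n)))
  unfold ff
  field_simp

lemma dens_explicit (g y : ℕ) : dens {0, g} y =
    ∏ p ∈ (Icc 1 y).filter Nat.Prime, (1 - (if p ∣ g then (1 : ℝ) else 2) / p) := by
  unfold dens
  refine prod_congr rfl fun p hp => ?_
  rw [mem_filter] at hp
  rw [nu_pair hp.2]
  split_ifs <;> simp

/-! ### the literal counting function -/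

lemma infinite_cyc : (setOf Cyc).Infinite :=
  Nat.infinite_setOf_prime.mono fun _ hp => cyc_prime hp

open Classical in
lemma TT_card {g n : ℕ} (hg : 0 < g) :
    Set.ncard {j : ℕ | n ^ 3 < Nat.nth Cyc j ∧ Nat.nth Cyc (j + 1) < (n + 1) ^ 3 ∧
      Nat.nth Cyc (j + 1) = Nat.nth Cyc j + g} = (TT g n).card := by
  have hinf := infinite_cyc
  have hmono : StrictMono (Nat.nth Cyc) := Nat.nth_strictMono hinf
  rw [← Set.ncard_coe_finset, ← Set.ncard_image_of_injective _ hmono.injective]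
  congr 1
  ext c
  simp only [Set.mem_image, Set.mem_setOf_eq, mem_coe]
  unfold TT I
  rw [mem_filter, mem_Ico]
  constructor
  · rintro ⟨j, ⟨h1, h2, h3⟩, rfl⟩
    refine ⟨⟨h1, by omega⟩, by omega, Nat.nth_mem_of_infinite hinf j, ?_, ?_⟩
    · rw [← h3]; exact Nat.nth_mem_of_infinite hinf (j + 1)
    · intro d hd1 hd2 hd
      have h4 : Nat.nth Cyc (Nat.count Cyc d) = d := Nat.nth_count hd
      rw [← h4] at hd1 hd2
      rw [← h3] at hd2
      have h5 := hmono.lt_iff_lt.mp hd1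
      have h6 := hmono.lt_iff_lt.mp hd2
      omega
  · rintro ⟨⟨h1, h2⟩, h3, h4, h5, h6⟩
    refine ⟨Nat.count Cyc c, ?_, Nat.nth_count h4⟩
    have h7 : Nat.nth Cyc (Nat.count Cyc c) = c := Nat.nth_count h4
    have h8 : Nat.nth Cyc (Nat.count Cyc (c + g)) = c + g := Nat.nth_count h5
    have h9 : Nat.count Cyc c < Nat.count Cyc (c + g) := by
      rw [← hmono.lt_iff_lt, h7, h8]; omega
    have h10 : Nat.count Cyc (c + g) = Nat.count Cyc c + 1 := by
      by_contra hne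
      have h11 : Nat.count Cyc c + 1 < Nat.count Cyc (c + g) := by omega
      refine h6 (Nat.nth Cyc (Nat.count Cyc c + 1)) ?_ ?_ (Nat.nth_mem_of_infinite hinf _)
      · conv_lhs => rw [← h7]
        exact hmono (by omega)
      · conv_rhs => rw [← h8]
        exact hmono h11
    rw [h7, ← h10, h8]
    exact ⟨by omega, h3, rfl⟩

/-- `ff → ∞` -/
lemma ff_tendsto {g : ℕ} (hg : 2 ∣ g) : Tendsto (fun n : ℕ => ff g n) atTop atTop := by
  obtain ⟨c, hc0, hc⟩ := dens_pair_lower hg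
  have hll : Tendsto (fun n : ℕ => Real.log (Real.log n)) atTop atTop :=
    Real.tendsto_log_atTop.comp
      (Real.tendsto_log_atTop.comp (tendsto_natCast_atTop_atTop (R := ℝ)))
  have h1 : Tendsto (fun n : ℕ => 3 * c * (n : ℝ)) atTop atTop :=
    (tendsto_natCast_atTop_atTop (R := ℝ)).const_mul_atTop (by positivity)
  refine tendsto_atTop_mono' _ ?_ h1
  filter_upwards [facts, (tendsto_Y0.comp hll).eventually_ge_atTop 6] with n hf hY
  obtain ⟨x, w, hx, hw, hw10, hwx, hxl, hln, hn10, hx0, h4⟩ := hf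
  unfold ff
  simp only [Function.comp] at hY
  rw [← hx] at hY ⊢
  have hnR : (10 : ℝ) ≤ n := by exact_mod_cast hn10
  have h2 := hc _ hY
  have hY6 : (6 : ℝ) ≤ Y0 x := by exact_mod_cast hY
  have h3 : Real.log (Y0 x : ℝ) ≤ w := by
    rw [hw]
    apply Real.log_le_log (by linarith)
    exact Nat.floor_le (by linarith)
  have h5 : 0 < Real.log (Y0 x : ℝ) := Real.log_pos (by linarith)
  have h6 : c / w ^ 3 ≤ dens {0, g} (Y0 x) := by
    refine le_trans ?_ h2
    gcongr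
  have h7 : w ^ 3 ≤ n := by
    have : w ^ 3 ≤ w ^ 5 := pow_le_pow_right₀ (by linarith) (by norm_num)
    linarith
  have h8 : 3 * c * (n : ℝ) ≤ 3 * (n : ℝ) ^ 2 * (c / w ^ 3) := by
    rw [← mul_div_assoc, le_div_iff₀ (by positivity)]
    calc 3 * c * (n : ℝ) * w ^ 3 ≤ 3 * c * (n : ℝ) * n := by gcongr
      _ = 3 * (n : ℝ) ^ 2 * c := by ring
  exact h8.trans (by gcongr)

end Pool.Agent.V11299.Cyc
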